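import Mathlib

set_option autoImplicit false

open scoped BigOperators Matrix.Norms.L2Operator
open Matrix

namespace Pool.Agent.Helper190.SS

/-- uniform average over a finite type -/
noncomputable def avg {Ω : Type*} [Fintype Ω] (f : Ω → ℝ) : ℝ := (∑ ω, f ω) / (Fintype.card Ω : ℝ)

/-- the sign of a Boolean -/
noncomputable def sgn (e : Bool) : ℝ := if e then 1 else -1

/-- indicator of a proposition -/
noncomputable def ind (p : Prop) : ℝ := by classical exact if p then 1 else 0

theorem ind_true {p : Prop} (h : p) : ind p = 1 := by simp [ind, h]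

theorem ind_false {p : Prop} (h : ¬ p) : ind p = 0 := by simp [ind, h]

/-- the diagonal 0-1 matrix of a set of indices -/
noncomputable def dI {N : Type*} [DecidableEq N] (I : N → Bool) : Matrix N N ℝ :=
  Matrix.diagonal (fun j => if I j then (1 : ℝ) else 0)

/-- symmetric contraction with trace norm at most r -/
def Good {N : Type*} [Fintype N] [DecidableEq N] (r : ℕ) (G : Matrix N N ℝ) : Prop :=
  G.IsSymm ∧ ‖G‖ ≤ 1 ∧ ∀ B : Matrix N N ℝ, |Matrix.trace (G * B)| ≤ (r : ℝ) * ‖B‖

/-- sum of random single-entry sign matrices -/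
noncomputable def Xmat {T K N : Type*} [Fintype T] [DecidableEq K] [DecidableEq N]
    (c : ℝ) (θ : T → (K × N) × Bool) : Matrix K N ℝ :=
  ∑ τ, Matrix.single (θ τ).1.1 (θ τ).1.2 (c * sgn (θ τ).2)

/-- the transposed SparseStack matrix: rows (block, position), columns = coordinates -/
noncomputable def Smat {N Z B : Type*} [Fintype N] [Fintype Z] [DecidableEq N] [DecidableEq Z]
    [DecidableEq B] (c : ℝ) (a : N × Z → Bool × B) : Matrix (Z × B) N ℝ :=
  ∑ w : N × Z, Matrix.single (w.2, (a w).2) w.1 (c * sgn (a w).1)

/-- product of `f` along the walk a, l, c -/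
def chain {W : Type*} (f : W → W → ℝ) (a : W) : List W → W → ℝ
  | [], c => f a c
  | b :: l, c => f a b * chain f b l c

/-- support of the closed word (v, l) -/
def suppW {W : Type*} [DecidableEq W] (w : W × List W) : Finset W := (w.1 :: w.2).toFinset

/-- weight of a closed word -/
def wt {W : Type*} (f : W → W → ℝ) (w : W × List W) : ℝ := chain f w.1 w.2 w.1

/-- even total degree of the multigraph with edges p e -- q e -/
def EvenDeg {E W : Type*} [Fintype E] [DecidableEq W] (p q : E → W) : Prop :=
  ∀ w : W, Even ((Finset.univ.filter (fun e => p e = w)).card + (Finset.univ.filter (fun e => q e = w)).card)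

/-- all fibres of σ have even size -/
def EvenFib {F L : Type*} [Fintype F] [DecidableEq L] (σ : F → L) : Prop :=
  ∀ l : L, Even (Finset.univ.filter (fun u => σ u = l)).card

/-- the label of a slot in the walk t 0, j 0, t 1, j 1, ... -/
def lab {M : ℕ} [NeZero M] {R S : Type*} (t : Fin M → R) (j : Fin M → S) : Fin M × Bool → R × S :=
  fun u => if u.2 then (t u.1, j u.1) else (t u.1, j (u.1 - 1))

/-- kernel of a function as a Boolean relation -/
def kerB {M : ℕ} {R : Type*} [DecidableEq R] (t : Fin M → R) : Fin M → Fin M → Bool :=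
  fun s s' => decide (t s = t s')

/-- sign matrix -/
noncomputable def Rmat {D D' : ℕ} (R : Fin D → Fin D' → Bool) : Matrix (Fin D) (Fin D') ℝ :=
  fun i j => sgn (R i j)

/-- number of distinct values -/
def im {F L : Type*} [Fintype F] [DecidableEq L] (σ : F → L) : ℕ := (Finset.univ.image σ).card

end Pool.Agent.Helper190.SS
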