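import Pool.Agent.Helper190.SS.Defs

set_option autoImplicit false

open scoped BigOperators Matrix.Norms.L2Operator
open Matrix

namespace Pool.Agent.Helper190.SS



theorem prod_ofFn_expand {N : Type*} [Fintype N] [DecidableEq N] (n : ℕ) :
    ∀ (A : Fin (n + 1) → Matrix N N ℝ) (a c : N),
    (List.ofFn A).prod a c = ∑ i : Fin n → N, ∏ t : Fin (n + 1),
      A t ((Fin.cons a i : Fin (n + 1) → N) t) ((Fin.snoc i c : Fin (n + 1) → N) t) := by
  induction n with
  | zero =>
    intro A a c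
    simp [Fin.snoc]
  | succ n ih =>
    intro A a c
    rw [List.ofFn_succ, List.prod_cons, Matrix.mul_apply]
    rw [← (Fin.consEquiv (fun _ : Fin (n + 1) => N)).sum_comp, Fintype.sum_prod_type]
    refine Finset.sum_congr rfl (fun b _ => ?_)
    rw [ih, Finset.mul_sum]
    refine Finset.sum_congr rfl (fun i _ => ?_)
    rw [Fin.prod_univ_succ (n := n + 1)]
    have h1 : (Fin.consEquiv (fun _ : Fin (n + 1) => N)) (b, i)
        = (Fin.cons b i : Fin (n + 1) → N) := rfl
    have h2 : (Fin.snoc (Fin.cons b i : Fin (n + 1) → N) c : Fin (n + 2) → N)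
        = Fin.cons b (Fin.snoc i c : Fin (n + 1) → N) := by
      exact (Fin.cons_snoc_eq_snoc_cons (β := N) b i c).symm
    rw [h1, h2]
    rfl

theorem trace_prod_expand {N : Type*} [Fintype N] [DecidableEq N] (L : ℕ) [NeZero L]
    (A : Fin L → Matrix N N ℝ) :
    Matrix.trace (List.ofFn A).prod = ∑ i : Fin L → N, ∏ t : Fin L, A t (i t) (i (t + 1)) := by
  obtain ⟨m, rfl⟩ := Nat.exists_eq_succ_of_ne_zero (NeZero.ne L)
  rw [Matrix.trace]
  rw [← (Fin.consEquiv (fun _ : Fin (m + 1) => N)).sum_comp, Fintype.sum_prod_type]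
  refine Finset.sum_congr rfl (fun a _ => ?_)
  rw [Matrix.diag_apply, prod_ofFn_expand]
  refine Finset.sum_congr rfl (fun i _ => ?_)
  refine Finset.prod_congr rfl (fun t _ => ?_)
  have h1 : (Fin.consEquiv (fun _ : Fin (m + 1) => N)) (a, i)
        = (Fin.cons a i : Fin (m + 1) → N) := rfl
  rw [h1]
  congr 1
  refine Fin.lastCases ?_ (fun s => ?_) t
  · rw [Fin.snoc_last]
    have h2 : (Fin.last m + 1 : Fin (m + 1)) = 0 := Fin.last_add_one m
    rw [h2]
    rfl
  · rw [Fin.snoc_castSucc]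
    have h2 : (s.castSucc + 1 : Fin (m + 1)) = s.succ := Fin.coeSucc_eq_succ
    rw [h2]
    rfl

end Pool.Agent.Helper190.SS
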