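import Pool.Agent.Helper190.SS.Defs
import Pool.Agent.Helper190.SS.P_trace_prod_expand

set_option autoImplicit false

open scoped BigOperators Matrix.Norms.L2Operator
open Matrix

namespace Pool.Agent.Helper190.SS



theorem trace_pow_expand {N : Type*} [Fintype N] [DecidableEq N] (M : ℕ) [NeZero M]
    (A : Matrix N N ℝ) :
    Matrix.trace (A ^ M) = ∑ i : Fin M → N, ∏ s : Fin M, A (i s) (i (s + 1)) := by
  have h := trace_prod_expand M (fun _ : Fin M => A)
  rw [List.ofFn_const, List.prod_replicate] at h
  exact h

end Pool.Agent.Helper190.SS
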