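import Pool.Agent.Helper190.SS.Defs
import Pool.Agent.Helper190.SS.P_trace_pow_expand

set_option autoImplicit false

open scoped BigOperators Matrix.Norms.L2Operator
open Matrix

namespace Pool.Agent.Helper190.SS



theorem pow_rect {N T : Type*} [Fintype N] [DecidableEq N] [Fintype T] [DecidableEq T]
    (A : Matrix N T ℝ) (B : Matrix T N ℝ) (n : ℕ) :
    (A * B) ^ (n + 1) = A * (B * A) ^ n * B := by
  induction n with
  | zero => simp
  | succ n ih =>
    rw [pow_succ, ih, pow_succ (B * A) n]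
    simp only [Matrix.mul_assoc]

theorem trace_pow_rect {N T : Type*} [Fintype N] [DecidableEq N] [Fintype T] [DecidableEq T]
    (A : Matrix N T ℝ) (B : Matrix T N ℝ) (M : ℕ) [NeZero M] :
    Matrix.trace ((A * B) ^ M) = Matrix.trace ((B * A) ^ M) := by
  obtain ⟨n, rfl⟩ : ∃ n, M = n + 1 := ⟨M - 1, by have := NeZero.ne M; omega⟩
  rw [pow_rect, Matrix.mul_assoc, Matrix.trace_mul_comm, pow_succ (B * A) n, Matrix.mul_assoc]

theorem trace_expand {T K N : Type*} [Fintype T] [DecidableEq T] [Fintype K] [DecidableEq K]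
    [Fintype N] [DecidableEq N] (M : ℕ) [NeZero M] (c : ℝ) (θ : T → (K × N) × Bool)
    (G : Matrix N N ℝ) (H : Matrix K K ℝ) :
    Matrix.trace ((G * (Xmat c θ)ᵀ * H * Xmat c θ) ^ M) =
      ∑ x : Fin M → T, ∑ y : Fin M → T,
        (∏ s, ((c * sgn (θ (x s)).2) * (c * sgn (θ (y s)).2))) *
        (∏ s, H (θ (x s)).1.1 (θ (y s)).1.1) *
        (∏ s, G (θ (y s)).1.2 (θ (x (s + 1))).1.2) := by
  let U : Matrix K T ℝ := Matrix.of fun k τ => if (θ τ).1.1 = k then c * sgn (θ τ).2 else 0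
  let V : Matrix T N ℝ := Matrix.of fun τ j => if (θ τ).1.2 = j then 1 else 0
  have hX : Xmat c θ = U * V := by
    ext k j
    rw [Matrix.mul_apply, Xmat, Matrix.sum_apply]
    refine Finset.sum_congr rfl fun τ _ => ?_
    rw [Matrix.single_apply]
    show _ = (if (θ τ).1.1 = k then c * sgn (θ τ).2 else 0) * (if (θ τ).1.2 = j then 1 else 0)
    by_cases h1 : (θ τ).1.1 = k <;> by_cases h2 : (θ τ).1.2 = j <;> simp [h1, h2]
  have hU : ∀ x y, (Uᵀ * H * U) x y =
      (c * sgn (θ x).2) * H (θ x).1.1 (θ y).1.1 * (c * sgn (θ y).2) := by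
    intro x y
    rw [Matrix.mul_apply]
    have h1 : ∀ l, (Uᵀ * H) x l = (c * sgn (θ x).2) * H (θ x).1.1 l := by
      intro l
      rw [Matrix.mul_apply]
      show ∑ k, (if (θ x).1.1 = k then c * sgn (θ x).2 else 0) * H k l = _
      simp
    simp only [h1]
    show ∑ l, (c * sgn (θ x).2) * H (θ x).1.1 l * (if (θ y).1.1 = l then c * sgn (θ y).2 else 0) = _
    simp
  have hV : ∀ y z, (V * G * Vᵀ) y z = G (θ y).1.2 (θ z).1.2 := by
    intro y z
    rw [Matrix.mul_apply]
    have h1 : ∀ l, (V * G) y l = G (θ y).1.2 l := by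
      intro l
      rw [Matrix.mul_apply]
      show ∑ k, (if (θ y).1.2 = k then 1 else 0) * G k l = _
      simp
    simp only [h1]
    show ∑ l, G (θ y).1.2 l * (if (θ z).1.2 = l then 1 else 0) = _
    simp
  have h1 : G * (Xmat c θ)ᵀ * H * Xmat c θ = (G * Vᵀ) * (Uᵀ * H * U * V) := by
    rw [hX, Matrix.transpose_mul]
    simp only [Matrix.mul_assoc]
  have h2 : (Uᵀ * H * U * V) * (G * Vᵀ) = (Uᵀ * H * U) * (V * G * Vᵀ) := by
    simp only [Matrix.mul_assoc]
  rw [h1, trace_pow_rect, h2, trace_pow_expand]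
  refine Finset.sum_congr rfl fun x _ => ?_
  have h3 : ∀ s, ((Uᵀ * H * U) * (V * G * Vᵀ)) (x s) (x (s + 1)) =
      ∑ y : T, ((c * sgn (θ (x s)).2) * H (θ (x s)).1.1 (θ y).1.1 * (c * sgn (θ y).2)) *
        G (θ y).1.2 (θ (x (s + 1))).1.2 := by
    intro s
    rw [Matrix.mul_apply]
    exact Finset.sum_congr rfl fun y _ => by rw [hU, hV]
  rw [Finset.prod_congr rfl fun s _ => h3 s, Finset.prod_univ_sum, Fintype.piFinset_univ]
  refine Finset.sum_congr rfl fun y _ => ?_
  rw [← Finset.prod_mul_distrib, ← Finset.prod_mul_distrib]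
  refine Finset.prod_congr rfl fun s _ => ?_
  ring

end Pool.Agent.Helper190.SS
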