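import Pool.Agent.Helper190.SS.Defs
import Pool.Agent.Helper190.SS.P_trace_expand

set_option autoImplicit false

open scoped BigOperators Matrix.Norms.L2Operator
open Matrix

namespace Pool.Agent.Helper190.SS



theorem avg_sum' {Ω ι : Type*} [Fintype Ω] [Fintype ι] (f : ι → Ω → ℝ) :
    avg (fun ω => ∑ i, f i ω) = ∑ i, avg (f i) := by
  unfold avg
  rw [Finset.sum_comm, Finset.sum_div]

theorem avg_mul_left' {Ω : Type*} [Fintype Ω] (k : ℝ) (f : Ω → ℝ) :
    avg (fun ω => k * f ω) = k * avg f := by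
  unfold avg
  rw [← Finset.mul_sum, mul_div_assoc]

theorem avg_prod3 {T K N : Type*} [Fintype T] [DecidableEq T] [Fintype K] [Fintype N]
    (A : (T → Bool) → ℝ) (B : (T → K) → ℝ) (C : (T → N) → ℝ) :
    avg (fun θ : T → (K × N) × Bool => A (fun τ => (θ τ).2) * B (fun τ => (θ τ).1.1) *
      C (fun τ => (θ τ).1.2)) = avg A * avg B * avg C := by
  let E : (T → (K × N) × Bool) ≃ ((T → K) × (T → N)) × (T → Bool) :=
    { toFun := fun θ => ((fun τ => (θ τ).1.1, fun τ => (θ τ).1.2), fun τ => (θ τ).2)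
      invFun := fun p τ => ((p.1.1 τ, p.1.2 τ), p.2 τ)
      left_inv := fun _ => rfl
      right_inv := fun _ => rfl }
  have h1 : ∑ θ : T → (K × N) × Bool, (A (fun τ => (θ τ).2) * B (fun τ => (θ τ).1.1) *
      C (fun τ => (θ τ).1.2)) = (∑ e, A e) * (∑ t, B t) * (∑ j, C j) := by
    rw [← Equiv.sum_comp E.symm]
    rw [Fintype.sum_prod_type, Fintype.sum_prod_type]
    have h2 : ∀ (t : T → K) (j : T → N) (e : T → Bool),
        A (fun τ => (E.symm ((t, j), e) τ).2) * B (fun τ => (E.symm ((t, j), e) τ).1.1) *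
          C (fun τ => (E.symm ((t, j), e) τ).1.2) = A e * B t * C j := fun _ _ _ => rfl
    simp only [h2, ← Finset.sum_mul, ← Finset.mul_sum]
  unfold avg
  rw [h1, Fintype.card_congr E, Fintype.card_prod, Fintype.card_prod, div_mul_div_comm,
    div_mul_div_comm]
  push_cast
  congr 1
  ring

theorem sgn_pow_sum (m : ℕ) : ∑ b : Bool, sgn b ^ m = if Even m then 2 else 0 := by
  have h1 : sgn true = 1 := by simp [sgn]
  have h2 : sgn false = -1 := by simp [sgn]
  rw [Fintype.sum_bool, h1, h2, one_pow]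
  split_ifs with h
  · rw [h.neg_one_pow]; norm_num
  · rw [Nat.not_even_iff_odd] at h
    rw [h.neg_one_pow]; norm_num

theorem sgn_avg {T : Type*} [Fintype T] [DecidableEq T] {M : ℕ} (x y : Fin M → T) :
    avg (fun e : T → Bool => ∏ s, (sgn (e (x s)) * sgn (e (y s)))) = ind (EvenDeg x y) := by
  have h1 : ∀ e : T → Bool, ∀ z : Fin M → T, ∏ s, sgn (e (z s)) =
      ∏ w, sgn (e w) ^ (Finset.univ.filter (fun s => z s = w)).card := by
    intro e z
    rw [← Finset.prod_fiberwise Finset.univ z]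
    refine Finset.prod_congr rfl fun w _ => ?_
    rw [← Finset.prod_const]
    refine Finset.prod_congr rfl fun s hs => ?_
    rw [(Finset.mem_filter.1 hs).2]
  have h2 : ∀ e : T → Bool, ∏ s, (sgn (e (x s)) * sgn (e (y s))) =
      ∏ w, sgn (e w) ^ ((Finset.univ.filter (fun s => x s = w)).card +
        (Finset.univ.filter (fun s => y s = w)).card) := by
    intro e
    rw [Finset.prod_mul_distrib, h1, h1, ← Finset.prod_mul_distrib]
    exact Finset.prod_congr rfl fun w _ => (pow_add _ _ _).symm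
  have h3 : ∑ e : T → Bool, ∏ s, (sgn (e (x s)) * sgn (e (y s))) =
      ∏ w, ∑ b : Bool, sgn b ^ ((Finset.univ.filter (fun s => x s = w)).card +
        (Finset.univ.filter (fun s => y s = w)).card) := by
    rw [Finset.prod_univ_sum, Fintype.piFinset_univ]
    exact Finset.sum_congr rfl fun e _ => h2 e
  unfold avg
  rw [h3]
  by_cases h : EvenDeg x y
  · rw [ind_true h, Finset.prod_congr rfl (g := fun _ => (2 : ℝ))]
    · rw [Finset.prod_const, Finset.card_univ, Fintype.card_fun, Fintype.card_bool]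
      push_cast
      exact div_self (by positivity)
    · intro w _
      rw [sgn_pow_sum, if_pos (h w)]
  · rw [ind_false h]
    unfold EvenDeg at h
    push Not at h
    obtain ⟨w, hw⟩ := h
    rw [Finset.prod_eq_zero (Finset.mem_univ w), zero_div]
    rw [sgn_pow_sum, if_neg hw]

theorem avg_expand {T K N : Type*} [Fintype T] [DecidableEq T] [Fintype K] [DecidableEq K]
    [Fintype N] [DecidableEq N] [Nonempty K] [Nonempty N] (M : ℕ) [NeZero M] (c : ℝ)
    (G : Matrix N N ℝ) (H : Matrix K K ℝ) :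
    avg (fun θ : T → (K × N) × Bool =>
        Matrix.trace ((G * (Xmat c θ)ᵀ * H * Xmat c θ) ^ M)) =
      ∑ x : Fin M → T, ∑ y : Fin M → T, c ^ (2 * M) * ind (EvenDeg x y) *
        avg (fun t : T → K => ∏ s, H (t (x s)) (t (y s))) *
        avg (fun j : T → N => ∏ s, G (j (y s)) (j (x (s + 1)))) := by
  have h0 : (fun θ : T → (K × N) × Bool =>
        Matrix.trace ((G * (Xmat c θ)ᵀ * H * Xmat c θ) ^ M)) = fun θ =>
      ∑ x : Fin M → T, ∑ y : Fin M → T,
        (∏ s, ((c * sgn (θ (x s)).2) * (c * sgn (θ (y s)).2))) *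
        (∏ s, H (θ (x s)).1.1 (θ (y s)).1.1) *
        (∏ s, G (θ (y s)).1.2 (θ (x (s + 1))).1.2) := by
    funext θ
    exact trace_expand M c θ G H
  rw [h0, avg_sum' (fun (x : Fin M → T) (θ : T → (K × N) × Bool) => ∑ y : Fin M → T,
        (∏ s, ((c * sgn (θ (x s)).2) * (c * sgn (θ (y s)).2))) *
        (∏ s, H (θ (x s)).1.1 (θ (y s)).1.1) *
        (∏ s, G (θ (y s)).1.2 (θ (x (s + 1))).1.2))]
  refine Finset.sum_congr rfl fun x _ => ?_
  rw [avg_sum' (fun (y : Fin M → T) (θ : T → (K × N) × Bool) =>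
        (∏ s, ((c * sgn (θ (x s)).2) * (c * sgn (θ (y s)).2))) *
        (∏ s, H (θ (x s)).1.1 (θ (y s)).1.1) *
        (∏ s, G (θ (y s)).1.2 (θ (x (s + 1))).1.2))]
  refine Finset.sum_congr rfl fun y _ => ?_
  have h1 := avg_prod3 (K := K) (N := N)
    (fun e : T → Bool => ∏ s, ((c * sgn (e (x s))) * (c * sgn (e (y s)))))
    (fun t : T → K => ∏ s, H (t (x s)) (t (y s)))
    (fun j : T → N => ∏ s, G (j (y s)) (j (x (s + 1))))
  refine h1.trans ?_
  have h2 : (fun e : T → Bool => ∏ s, ((c * sgn (e (x s))) * (c * sgn (e (y s))))) =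
      fun e => c ^ (2 * M) * ∏ s, (sgn (e (x s)) * sgn (e (y s))) := by
    funext e
    have : ∀ s, (c * sgn (e (x s))) * (c * sgn (e (y s))) =
        c ^ 2 * (sgn (e (x s)) * sgn (e (y s))) := by intro s; ring
    rw [Finset.prod_congr rfl fun s _ => this s, Finset.prod_mul_distrib, Finset.prod_const,
      Finset.card_univ, Fintype.card_fin, ← pow_mul]
  rw [h2, avg_mul_left', sgn_avg]

end Pool.Agent.Helper190.SS
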