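import Pool.Agent.Helper190.SS.Defs

set_option autoImplicit false

open scoped BigOperators Matrix.Norms.L2Operator
open Matrix

namespace Pool.Agent.Helper190.SS



theorem class_sum_im {F T : Type*} [Fintype F] [DecidableEq F] [Fintype T] [DecidableEq T] (l : ℕ)
    (hl : 1 ≤ l) (hF : Fintype.card F = 2 * l) (σ : F → T) (h : EvenFib σ) :
    im σ ∈ Finset.Icc 1 l := by
  rw [Finset.mem_Icc]
  have hne : (Finset.univ : Finset F).Nonempty := by
    rw [Finset.univ_nonempty_iff, ← Fintype.card_pos_iff]; omega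
  constructor
  · exact Finset.card_pos.2 (hne.image σ)
  · have h1 := Finset.card_eq_sum_card_image σ (Finset.univ : Finset F)
    rw [Finset.card_univ, hF] at h1
    have h2 : ∑ y ∈ Finset.univ.image σ, 2 ≤
        ∑ y ∈ Finset.univ.image σ, (Finset.univ.filter (fun x => σ x = y)).card := by
      refine Finset.sum_le_sum fun y hy => ?_
      obtain ⟨x, _, hx⟩ := Finset.mem_image.1 hy
      have h3 : 0 < (Finset.univ.filter (fun x => σ x = y)).card :=
        Finset.card_pos.2 ⟨x, by simp [hx]⟩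
      obtain ⟨r, hr⟩ := h y
      omega
    rw [Finset.sum_const, smul_eq_mul] at h2
    unfold im
    omega

theorem class_sum_count {F T : Type*} [Fintype F] [DecidableEq F] [Fintype T] [DecidableEq T]
    (h : ℕ) : (Finset.univ.filter (fun σ : F → T => im σ = h)).card ≤
      Fintype.card T ^ h * h ^ Fintype.card F := by
  classical
  have h1 : Finset.univ.filter (fun σ : F → T => im σ = h) ⊆
      (Finset.univ.powersetCard h : Finset (Finset T)).biUnion
        (fun I => Fintype.piFinset fun _ : F => I) := by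
    intro σ hσ
    rw [Finset.mem_filter] at hσ
    rw [Finset.mem_biUnion]
    refine ⟨Finset.univ.image σ, ?_, ?_⟩
    · rw [Finset.mem_powersetCard]
      exact ⟨Finset.subset_univ _, hσ.2⟩
    · rw [Fintype.mem_piFinset]
      intro x
      exact Finset.mem_image_of_mem σ (Finset.mem_univ x)
  refine (Finset.card_le_card h1).trans (Finset.card_biUnion_le.trans ?_)
  have h2 : ∀ I ∈ (Finset.univ.powersetCard h : Finset (Finset T)),
      (Fintype.piFinset fun _ : F => I).card = h ^ Fintype.card F := by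
    intro I hI
    rw [Fintype.card_piFinset, Finset.prod_const, Finset.card_univ, (Finset.mem_powersetCard.1 hI).2]
  rw [Finset.sum_congr rfl h2, Finset.sum_const, Finset.card_powersetCard, smul_eq_mul,
    Finset.card_univ]
  exact Nat.mul_le_mul_right _ (Nat.choose_le_pow _ _)

theorem class_sum_exp (h : ℕ) (hh : 1 ≤ h) (l M : ℕ) (hlM : l ≤ M) (b : ℝ)
    (hb : Real.exp ((M : ℝ) / 4) ≤ b) : (h : ℝ) ^ (2 * l) ≤ 16 ^ l * b ^ (h - 1) := by
  have hh' : (1:ℝ) ≤ h := by exact_mod_cast hh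
  have hy : 0 ≤ ((h:ℝ) - 1) / 8 := by linarith
  have h1 := Real.quadratic_le_exp_of_nonneg hy
  have h2 : (h:ℝ) ≤ 4 * Real.exp (((h:ℝ) - 1) / 8) := by nlinarith [sq_nonneg (((h:ℝ) - 1) / 8 - 1)]
  have h3 : (h:ℝ) ^ 2 ≤ 16 * Real.exp (((h:ℝ) - 1) / 4) := by
    have h4 : (h:ℝ) ^ 2 ≤ (4 * Real.exp (((h:ℝ) - 1) / 8)) ^ 2 :=
      pow_le_pow_left₀ (by linarith) h2 2
    have h5 : (4 * Real.exp (((h:ℝ) - 1) / 8)) ^ 2 = 16 * Real.exp (((h:ℝ) - 1) / 4) := by
      rw [mul_pow, ← Real.exp_nat_mul]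
      norm_num
      ring_nf
    rwa [h5] at h4
  have h6 : Real.exp (((h:ℝ) - 1) / 4) ^ l ≤ b ^ (h - 1) := by
    have h7 : Real.exp (((h:ℝ) - 1) / 4) ^ l ≤ Real.exp ((M : ℝ) / 4) ^ (h - 1) := by
      rw [← Real.exp_nat_mul, ← Real.exp_nat_mul, Real.exp_le_exp, Nat.cast_sub hh, Nat.cast_one]
      have h8 : (l:ℝ) ≤ M := by exact_mod_cast hlM
      nlinarith
    exact h7.trans (pow_le_pow_left₀ (Real.exp_pos _).le hb _)
  calc (h : ℝ) ^ (2 * l) = ((h:ℝ) ^ 2) ^ l := by rw [pow_mul]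
    _ ≤ (16 * Real.exp (((h:ℝ) - 1) / 4)) ^ l := pow_le_pow_left₀ (by positivity) h3 l
    _ = 16 ^ l * Real.exp (((h:ℝ) - 1) / 4) ^ l := mul_pow _ _ _
    _ ≤ 16 ^ l * b ^ (h - 1) := mul_le_mul_of_nonneg_left h6 (by positivity)

theorem class_sum {F T : Type*} [Fintype F] [DecidableEq F] [Fintype T] [DecidableEq T] (l M : ℕ)
    (hl : 1 ≤ l) (hlM : l ≤ M) (hF : Fintype.card F = 2 * l) (b q : ℝ) (hq : 0 ≤ q)
    (hbq : b * ((Fintype.card T : ℝ) * q) = 1) (hb : Real.exp ((M : ℝ) / 4) ≤ b) :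
    ∑ σ : F → T, ind (EvenFib σ) * q ^ (im σ) ≤ (1 / b) * 32 ^ l := by
  classical
  have hbpos : 0 < b := (Real.exp_pos _).trans_le hb
  have hnq : (Fintype.card T : ℝ) * q = 1 / b := by
    rw [eq_div_iff hbpos.ne', mul_comm]; exact hbq
  have h1 : ∀ σ : F → T, ind (EvenFib σ) * q ^ (im σ) ≤
      ∑ h ∈ Finset.Icc 1 l, if im σ = h then q ^ h else 0 := by
    intro σ
    by_cases he : EvenFib σ
    · rw [ind_true he, one_mul, Finset.sum_ite_eq, if_pos (class_sum_im l hl hF σ he)]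
    · rw [ind_false he, zero_mul]
      refine Finset.sum_nonneg fun h _ => ?_
      split_ifs
      · positivity
      · exact le_rfl
  refine (Finset.sum_le_sum fun σ _ => h1 σ).trans ?_
  rw [Finset.sum_comm]
  have h2 : ∀ h ∈ Finset.Icc 1 l, (∑ σ : F → T, if im σ = h then q ^ h else 0) ≤
      1 / b * 16 ^ l := by
    intro h hh
    rw [Finset.mem_Icc] at hh
    rw [← Finset.sum_filter, Finset.sum_const, nsmul_eq_mul]
    have h3 : (((Finset.univ.filter (fun σ : F → T => im σ = h)).card : ℕ) : ℝ) ≤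
        (Fintype.card T : ℝ) ^ h * (h : ℝ) ^ (2 * l) := by
      have := class_sum_count (F := F) (T := T) h
      rw [hF] at this
      exact_mod_cast this
    have h4 := class_sum_exp h hh.1 l M hlM b hb
    calc (((Finset.univ.filter (fun σ : F → T => im σ = h)).card : ℕ) : ℝ) * q ^ h
        ≤ ((Fintype.card T : ℝ) ^ h * (h : ℝ) ^ (2 * l)) * q ^ h :=
          mul_le_mul_of_nonneg_right h3 (by positivity)
      _ = ((Fintype.card T : ℝ) * q) ^ h * (h : ℝ) ^ (2 * l) := by rw [mul_pow]; ring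
      _ = (1 / b) ^ h * (h : ℝ) ^ (2 * l) := by rw [hnq]
      _ ≤ (1 / b) ^ h * (16 ^ l * b ^ (h - 1)) := mul_le_mul_of_nonneg_left h4 (by positivity)
      _ = 1 / b * 16 ^ l := by
          obtain ⟨k, rfl⟩ : ∃ k, h = k + 1 := ⟨h - 1, by omega⟩
          rw [Nat.add_sub_cancel, one_div, inv_pow, pow_succ]
          field_simp
  refine (Finset.sum_le_sum h2).trans ?_
  rw [Finset.sum_const, Nat.card_Icc, Nat.add_sub_cancel, nsmul_eq_mul]
  have h5 : (l : ℝ) ≤ 2 ^ l := by exact_mod_cast Nat.lt_two_pow_self.le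
  calc (l : ℝ) * (1 / b * 16 ^ l) ≤ 2 ^ l * (1 / b * 16 ^ l) :=
        mul_le_mul_of_nonneg_right h5 (by positivity)
    _ = 1 / b * (2 ^ l * 16 ^ l) := by ring
    _ = 1 / b * 32 ^ l := by rw [← mul_pow]; norm_num

end Pool.Agent.Helper190.SS
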