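import Pool.Agent.Helper190.SS.Defs

set_option autoImplicit false

open scoped BigOperators Matrix.Norms.L2Operator
open Matrix

namespace Pool.Agent.Helper190.SS



theorem ca_prod_ind {M : ℕ} (P : Fin M → Prop) : ∏ e, ind (P e) = ind (∀ e, P e) := by
  by_cases h : ∀ e, P e
  · rw [ind_true h]
    exact Finset.prod_eq_one fun e _ => ind_true (h e)
  · rw [ind_false h]
    rw [not_forall] at h
    obtain ⟨e, he⟩ := h
    exact Finset.prod_eq_zero (Finset.mem_univ e) (ind_false he)

theorem ca_ind_sum {T : Type*} {r M : ℕ} (p q : Fin M → T) (j : T → Fin r) :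
    ind (∀ e, j (p e) = j (q e)) =
      ∑ g : Fin M → Fin r, ind (∀ e, j (p e) = g e ∧ j (q e) = g e) := by
  rw [Finset.sum_eq_single (fun e => j (p e))]
  · by_cases h : ∀ e, j (p e) = j (q e)
    · rw [ind_true h, ind_true]
      intro e
      exact ⟨rfl, (h e).symm⟩
    · rw [ind_false h, ind_false]
      intro h'
      exact h fun e => (h' e).2.symm
  · intro g _ hg
    apply ind_false
    intro h
    apply hg
    funext e
    exact (h e).1.symm
  · intro h
    exact absurd (Finset.mem_univ _) h

theorem ca_count {T : Type*} [Fintype T] [DecidableEq T] (r : ℕ) (hr : 1 ≤ r) {M : ℕ}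
    (p q : Fin M → T) (g : Fin M → Fin r)
    (hg : ∀ s s', (p s = p s' → g s = g s') ∧
          (p s = q s' → g s = g s') ∧ (q s = q s' → g s = g s')) :
    ∑ j : T → Fin r, ind (∀ e, j (p e) = g e ∧ j (q e) = g e) =
      (r : ℝ) ^ (Fintype.card T - (Finset.univ.image p ∪ Finset.univ.image q).card) := by
  classical
  set V : Finset T := Finset.univ.image p ∪ Finset.univ.image q with hV
  let g' : T → Fin r := fun w =>
    if h : ∃ e, p e = w then g (Classical.choose h) else
      if h : ∃ e, q e = w then g (Classical.choose h) else ⟨0, hr⟩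
  have hgp : ∀ e, g' (p e) = g e := by
    intro e
    have h : ∃ e', p e' = p e := ⟨e, rfl⟩
    have h1 : g' (p e) = g (Classical.choose h) := by
      simp only [g']
      rw [dif_pos h]
    rw [h1]
    exact (hg _ _).1 (Classical.choose_spec h)
  have hgq : ∀ e, g' (q e) = g e := by
    intro e
    by_cases h : ∃ e', p e' = q e
    · have h1 : g' (q e) = g (Classical.choose h) := by
        simp only [g']
        rw [dif_pos h]
      rw [h1]
      exact (hg _ _).2.1 (Classical.choose_spec h)
    · have h2 : ∃ e', q e' = q e := ⟨e, rfl⟩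
      have h1 : g' (q e) = g (Classical.choose h2) := by
        simp only [g']
        rw [dif_neg h, dif_pos h2]
      rw [h1]
      exact (hg _ _).2.2 (Classical.choose_spec h2)
  let S : Finset (T → Fin r) := Fintype.piFinset (fun w => if w ∈ V then {g' w} else Finset.univ)
  have hS : ∀ j : T → Fin r, (∀ e, j (p e) = g e ∧ j (q e) = g e) ↔ j ∈ S := by
    intro j
    rw [Fintype.mem_piFinset]
    constructor
    · intro h w
      split_ifs with hw
      · rw [Finset.mem_singleton]
        rw [hV, Finset.mem_union, Finset.mem_image, Finset.mem_image] at hw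
        rcases hw with ⟨e, -, rfl⟩ | ⟨e, -, rfl⟩
        · rw [(h e).1, hgp]
        · rw [(h e).2, hgq]
      · exact Finset.mem_univ _
    · intro h e
      have hp := h (p e)
      have hq := h (q e)
      rw [if_pos (by rw [hV, Finset.mem_union]; exact Or.inl (Finset.mem_image_of_mem _ (Finset.mem_univ _))),
        Finset.mem_singleton] at hp
      rw [if_pos (by rw [hV, Finset.mem_union]; exact Or.inr (Finset.mem_image_of_mem _ (Finset.mem_univ _))),
        Finset.mem_singleton] at hq
      rw [hp, hq, hgp, hgq]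
      exact ⟨rfl, rfl⟩
  have h1 : ∀ j : T → Fin r, ind (∀ e, j (p e) = g e ∧ j (q e) = g e) =
      if j ∈ S then (1 : ℝ) else 0 := by
    intro j
    by_cases h : j ∈ S
    · rw [ind_true ((hS j).2 h), if_pos h]
    · rw [ind_false (fun h' => h ((hS j).1 h')), if_neg h]
  simp_rw [h1]
  rw [Finset.sum_boole, Finset.filter_mem_eq_inter, Finset.univ_inter]
  have h2 : S.card = r ^ (Fintype.card T - V.card) := by
    rw [Fintype.card_piFinset]
    have h3 : ∀ w : T, (if w ∈ V then ({g' w} : Finset (Fin r)) else Finset.univ).card =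
        if w ∈ V then 1 else r := by
      intro w
      split_ifs
      · exact Finset.card_singleton _
      · rw [Finset.card_univ, Fintype.card_fin]
    simp_rw [h3]
    rw [Finset.prod_ite, Finset.prod_const_one, one_mul, Finset.prod_const]
    congr 1
    rw [← Finset.card_compl]
    congr 1
    ext w
    simp
  rw [h2]
  push_cast
  rfl

theorem compat_avg {T : Type*} [Fintype T] [DecidableEq T] (r : ℕ) (hr : 1 ≤ r) {M : ℕ}
    (p q : Fin M → T) :
    avg (fun j : T → Fin r => ∏ e, ind (j (p e) = j (q e))) =
      (1 / (r : ℝ)) ^ (Finset.univ.image p ∪ Finset.univ.image q).card *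
        ∑ g : Fin M → Fin r, ind (∀ s s', (p s = p s' → g s = g s') ∧
          (p s = q s' → g s = g s') ∧ (q s = q s' → g s = g s')) := by
  have hr0 : (r : ℝ) ≠ 0 := by
    have : r ≠ 0 := by omega
    exact_mod_cast this
  unfold avg
  simp_rw [ca_prod_ind]
  simp_rw [ca_ind_sum]
  rw [Finset.sum_comm]
  have h1 : ∀ g : Fin M → Fin r, ∑ j : T → Fin r, ind (∀ e, j (p e) = g e ∧ j (q e) = g e) =
      (r : ℝ) ^ (Fintype.card T - (Finset.univ.image p ∪ Finset.univ.image q).card) *
        ind (∀ s s', (p s = p s' → g s = g s') ∧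
          (p s = q s' → g s = g s') ∧ (q s = q s' → g s = g s')) := by
    intro g
    by_cases h : ∀ s s', (p s = p s' → g s = g s') ∧
          (p s = q s' → g s = g s') ∧ (q s = q s' → g s = g s')
    · rw [ind_true h, mul_one]
      exact ca_count r hr p q g h
    · rw [ind_false h, mul_zero]
      refine Finset.sum_eq_zero fun j _ => ind_false fun hj => h ?_
      intro s s'
      refine ⟨fun e => ?_, fun e => ?_, fun e => ?_⟩
      · rw [← (hj s).1, ← (hj s').1, e]
      · rw [← (hj s).1, ← (hj s').2, e]
      · rw [← (hj s).2, ← (hj s').2, e]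
  simp_rw [h1]
  rw [← Finset.mul_sum]
  have hc : (Fintype.card (T → Fin r) : ℝ) = (r : ℝ) ^ Fintype.card T := by
    rw [Fintype.card_fun, Fintype.card_fin]
    push_cast
    rfl
  rw [hc]
  have hle : (Finset.univ.image p ∪ Finset.univ.image q).card ≤ Fintype.card T :=
    Finset.card_le_univ _
  rw [mul_div_right_comm]
  congr 1
  rw [div_eq_iff (pow_ne_zero _ hr0), one_div, inv_pow, eq_comm, inv_mul_eq_iff_eq_mul₀ (pow_ne_zero _ hr0),
    ← pow_add]
  congr 1
  omega

end Pool.Agent.Helper190.SS
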