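import Pool.Agent.Helper190.SS.Defs

set_option autoImplicit false

open scoped BigOperators Matrix.Norms.L2Operator
open Matrix

namespace Pool.Agent.Helper190.SS



theorem markov_avg {Ω : Type*} [Fintype Ω] [Nonempty Ω] (f : Ω → ℝ) (hf : ∀ ω, 0 ≤ f ω)
    (p : ℕ) (δ : ℝ) (h : (2 : ℝ) ^ p * avg (fun ω => f ω ^ p) ≤ δ) :
    (1 - δ) * (Nat.card Ω : ℝ) ≤ (Nat.card {ω : Ω // f ω ≤ 1 / 2} : ℝ) := by
  classical
  rw [Nat.card_eq_fintype_card, Nat.card_eq_fintype_card, Fintype.card_subtype]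
  have hpos : (0 : ℝ) < (Fintype.card Ω : ℝ) := by
    exact_mod_cast Fintype.card_pos
  have h1 : (2 : ℝ) ^ p * (∑ ω, f ω ^ p) ≤ δ * (Fintype.card Ω : ℝ) := by
    unfold avg at h
    rw [← mul_div_assoc, div_le_iff₀ hpos] at h
    exact h
  have h2 : ((Finset.univ.filter (fun ω => ¬ f ω ≤ 1 / 2)).card : ℝ) ≤
      (2 : ℝ) ^ p * (∑ ω, f ω ^ p) := by
    calc ((Finset.univ.filter (fun ω => ¬ f ω ≤ 1 / 2)).card : ℝ) =
        ∑ ω ∈ Finset.univ.filter (fun ω => ¬ f ω ≤ 1 / 2), (1 : ℝ) := by simp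
      _ ≤ ∑ ω ∈ Finset.univ.filter (fun ω => ¬ f ω ≤ 1 / 2), (2 : ℝ) ^ p * f ω ^ p := by
        apply Finset.sum_le_sum
        intro ω hω
        rw [Finset.mem_filter] at hω
        rw [← mul_pow]
        apply one_le_pow₀
        linarith [not_le.1 hω.2]
      _ ≤ ∑ ω, (2 : ℝ) ^ p * f ω ^ p := by
        apply Finset.sum_le_sum_of_subset_of_nonneg (Finset.filter_subset _ _)
        intro ω _ _
        have := hf ω
        positivity
      _ = _ := by rw [Finset.mul_sum]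
  have h3 := Finset.card_filter_add_card_filter_not (s := (Finset.univ : Finset Ω)) (fun ω => f ω ≤ 1 / 2)
  rw [Finset.card_univ] at h3
  have h4 : ((Finset.univ.filter (fun ω => f ω ≤ 1 / 2)).card : ℝ) +
    ((Finset.univ.filter (fun ω => ¬ f ω ≤ 1 / 2)).card : ℝ) = (Fintype.card Ω : ℝ) := by
    exact_mod_cast h3
  linarith

end Pool.Agent.Helper190.SS
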