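import Pool.Agent.Helper190.SS.Defs
import Pool.Agent.Helper190.SS.P_class_sum

set_option autoImplicit false

open scoped BigOperators Matrix.Norms.L2Operator
open Matrix

namespace Pool.Agent.Helper190.SS



theorem refine_sum_a1 {F T L : Type*} [Fintype F] [DecidableEq F] [DecidableEq T] [DecidableEq L]
    (σ : F → T) (lb : F → L) (h : EvenFib σ) (hr : ∀ u u', σ u = σ u' → lb u = lb u') (e : L) :
    EvenFib (fun u : {u // lb u = e} => σ u.1) := by
  intro v
  by_cases hv : ∃ u, lb u = e ∧ σ u = v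
  · obtain ⟨u0, h1, h2⟩ := hv
    have : (Finset.univ.filter (fun u : {u // lb u = e} => σ u.1 = v)).map
        (Function.Embedding.subtype _) = Finset.univ.filter (fun u => σ u = v) := by
      ext u
      simp only [Finset.mem_map, Finset.mem_filter, Finset.mem_univ, true_and,
        Function.Embedding.subtype_apply]
      constructor
      · rintro ⟨a, ha, rfl⟩
        exact ha
      · intro hu
        have h3 : lb u = e := by rw [← h1]; exact hr _ _ (by rw [hu, h2])
        exact ⟨⟨u, h3⟩, hu, rfl⟩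
    rw [← Finset.card_map (Function.Embedding.subtype _), this]
    exact h v
  · have : (Finset.univ.filter (fun u : {u // lb u = e} => σ u.1 = v)) = ∅ := by
      rw [Finset.filter_eq_empty_iff]
      intro u _ hu
      exact hv ⟨u.1, u.2, hu⟩
    rw [this]
    simp

theorem refine_sum_a2 {F T E : Type*} [Fintype F] [DecidableEq F] [Fintype T] [DecidableEq T]
    [Fintype E] [DecidableEq E]
    (σ : F → T) (f : F → E) (hr : ∀ u u', σ u = σ u' → f u = f u') :
    im σ = ∑ e : E, im (fun u : {u // f u = e} => σ u.1) := by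
  unfold im
  rw [← Finset.card_biUnion]
  · congr 1
    ext v
    simp only [Finset.mem_image, Finset.mem_univ, true_and, Finset.mem_biUnion]
    constructor
    · rintro ⟨u, rfl⟩
      exact ⟨f u, ⟨u, rfl⟩, rfl⟩
    · rintro ⟨e, u, rfl⟩
      exact ⟨u.1, rfl⟩
  · intro e _ e' _ hne
    rw [Function.onFun, Finset.disjoint_left]
    intro v hv hv'
    simp only [Finset.mem_image, Finset.mem_univ, true_and] at hv hv'
    obtain ⟨u, hu⟩ := hv
    obtain ⟨u', hu'⟩ := hv'
    apply hne
    rw [← u.2, ← u'.2]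
    exact hr _ _ (by rw [hu, hu'])

theorem refine_sum_a3 {F T L : Type*} [Fintype F] [DecidableEq F] [Fintype T] [DecidableEq T]
    [DecidableEq L]
    (σ : F → T) (lb : F → L) (h : EvenFib σ) (hr : ∀ u u', σ u = σ u' → lb u = lb u') :
    EvenFib lb := by
  intro e
  have h1 := refine_sum_a1 σ lb h hr e
  have h2 : (Finset.univ.filter (fun u => lb u = e)).card
      = Fintype.card {u // lb u = e} := by
    rw [Fintype.card_subtype]
  rw [h2]
  have h3 : Fintype.card {u // lb u = e} =
      ∑ v : T, (Finset.univ.filter (fun u : {u // lb u = e} => σ u.1 = v)).card := by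
    rw [← Finset.card_univ]
    exact Finset.card_eq_sum_card_fiberwise (fun _ _ => Finset.mem_coe.2 (Finset.mem_univ _))
  rw [h3]
  exact Finset.even_sum _ fun v _ => h1 v

theorem refine_sum_a4 {F T E : Type*} [Fintype F] [DecidableEq F] [Fintype T] [DecidableEq T]
    [Fintype E] [DecidableEq E] (M : ℕ) (hM : Fintype.card F = 2 * M) (b q : ℝ)
    (hq : 0 ≤ q) (hbq : b * ((Fintype.card T : ℝ) * q) = 1) (hb : Real.exp ((M : ℝ) / 4) ≤ b)
    (f : F → E) (hf : Function.Surjective f) (hev : EvenFib f) :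
    ∑ σ : F → T, ind (EvenFib σ ∧ ∀ u u', σ u = σ u' → f u = f u') * q ^ (im σ) ≤
      32 ^ M * (1 / b) ^ (Fintype.card E) := by
  have hb0 : 0 < b := lt_of_lt_of_le (Real.exp_pos _) hb
  have hl : ∀ e : E, ∃ l : ℕ, Fintype.card {u // f u = e} = 2 * l := by
    intro e
    obtain ⟨l, hl⟩ := hev e
    refine ⟨l, ?_⟩
    rw [Fintype.card_subtype, hl]; ring
  choose l hl using hl
  have hsum : ∑ e : E, l e = M := by
    have h1 : Fintype.card F = ∑ e : E, Fintype.card {u // f u = e} := by
      rw [← Fintype.card_sigma]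
      exact Fintype.card_congr (Equiv.sigmaFiberEquiv f).symm
    rw [hM] at h1
    simp only [hl] at h1
    rw [← Finset.mul_sum] at h1
    omega
  have hl1 : ∀ e, 1 ≤ l e := by
    intro e
    obtain ⟨u, hu⟩ := hf e
    have h1 : 0 < Fintype.card {u // f u = e} := Fintype.card_pos_iff.2 ⟨⟨u, hu⟩⟩
    rw [hl] at h1
    omega
  have hlM : ∀ e, l e ≤ M := by
    intro e
    rw [← hsum]
    exact Finset.single_le_sum (f := l) (fun _ _ => Nat.zero_le _) (Finset.mem_univ e)
  let g : (e : E) → ({u // f u = e} → T) → ℝ := fun e τ => ind (EvenFib τ) * q ^ (im τ)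
  have hg0 : ∀ e τ, 0 ≤ g e τ := by
    intro e τ
    refine mul_nonneg ?_ (pow_nonneg hq _)
    unfold ind
    split_ifs <;> norm_num
  have hpt : ∀ σ : F → T, ind (EvenFib σ ∧ ∀ u u', σ u = σ u' → f u = f u') * q ^ (im σ) ≤
      ∏ e : E, g e (fun u => σ u.1) := by
    intro σ
    by_cases h : EvenFib σ ∧ ∀ u u', σ u = σ u' → f u = f u'
    · rw [ind_true h, one_mul, refine_sum_a2 σ f h.2, ← Finset.prod_pow_eq_pow_sum]
      refine le_of_eq (Finset.prod_congr rfl fun e _ => ?_)
      show _ = ind _ * _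
      rw [ind_true (refine_sum_a1 σ f h.1 h.2 e), one_mul]
    · rw [ind_false h, zero_mul]
      exact Finset.prod_nonneg fun e _ => hg0 e _
  let Φ : (F → T) ≃ (∀ e : E, {u // f u = e} → T) :=
    (Equiv.arrowCongr (Equiv.sigmaFiberEquiv f).symm (Equiv.refl T)).trans
      (Equiv.piCurry (fun _ _ => T))
  have hΦ : ∀ σ e u, Φ σ e u = σ u.1 := fun σ e u => rfl
  calc ∑ σ : F → T, ind (EvenFib σ ∧ ∀ u u', σ u = σ u' → f u = f u') * q ^ (im σ)
      ≤ ∑ σ : F → T, ∏ e : E, g e (fun u => σ u.1) := Finset.sum_le_sum fun σ _ => hpt σ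
    _ = ∑ σ : F → T, ∏ e : E, g e (Φ σ e) := rfl
    _ = ∑ x : (∀ e : E, {u // f u = e} → T), ∏ e : E, g e (x e) :=
        Equiv.sum_comp Φ (fun x => ∏ e : E, g e (x e))
    _ = ∏ e : E, ∑ τ : {u // f u = e} → T, g e τ := by
        rw [Finset.prod_univ_sum, Fintype.piFinset_univ]
    _ ≤ ∏ e : E, ((1 / b) * 32 ^ (l e)) := by
        refine Finset.prod_le_prod (fun e _ => Finset.sum_nonneg fun τ _ => hg0 e τ) fun e _ => ?_
        exact class_sum (l e) M (hl1 e) (hlM e) (hl e) b q hq hbq hb
    _ = 32 ^ M * (1 / b) ^ (Fintype.card E) := by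
        rw [Finset.prod_mul_distrib, Finset.prod_const, Finset.prod_pow_eq_pow_sum, hsum,
          Finset.card_univ]
        ring

theorem refine_sum {T L : Type*} [Fintype T] [DecidableEq T] [DecidableEq L] (M : ℕ) (b q : ℝ)
    (hq : 0 ≤ q) (hbq : b * ((Fintype.card T : ℝ) * q) = 1) (hb : Real.exp ((M : ℝ) / 4) ≤ b)
    (lb : Fin M × Bool → L) :
    ∑ σ : Fin M × Bool → T, ind (EvenFib σ ∧ ∀ u u', σ u = σ u' → lb u = lb u') * q ^ (im σ) ≤
      32 ^ M * (1 / b) ^ (im lb) * ind (EvenFib lb) := by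
  by_cases hev : EvenFib lb
  · rw [ind_true hev, mul_one]
    obtain ⟨s, hs⟩ : ∃ s : Finset L, s = Finset.univ.image lb := ⟨_, rfl⟩
    let f : Fin M × Bool → s :=
      fun u => ⟨lb u, by rw [hs]; exact Finset.mem_image_of_mem _ (Finset.mem_univ _)⟩
    have hf : Function.Surjective f := by
      rintro ⟨e, he⟩
      rw [hs] at he
      obtain ⟨u, _, hu⟩ := Finset.mem_image.1 he
      exact ⟨u, Subtype.ext hu⟩
    have hfl : ∀ u u', f u = f u' ↔ lb u = lb u' := fun u u' => Subtype.ext_iff
    have hevf : EvenFib f := by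
      intro e
      have h1 := hev e.1
      have h2 : (Finset.univ.filter (fun u => f u = e)) = (Finset.univ.filter (fun u => lb u = e.1)) := by
        ext u
        simp only [Finset.mem_filter, Finset.mem_univ, true_and]
        exact Subtype.ext_iff
      rw [h2]
      exact h1
    have key := refine_sum_a4 (T := T) M (by simp [mul_comm]) b q hq hbq hb f hf hevf
    have hc : Fintype.card s = im lb := by
      rw [Fintype.card_coe, hs]
      rfl
    rw [hc] at key
    simp only [hfl] at key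
    exact key
  · rw [ind_false hev, mul_zero]
    refine le_of_eq (Finset.sum_eq_zero fun σ _ => ?_)
    rw [ind_false (fun h => hev (refine_sum_a3 σ lb h.1 h.2)), zero_mul]

end Pool.Agent.Helper190.SS
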