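import Pool.Agent.Helper190.SS.Defs

set_option autoImplicit false

open scoped BigOperators Matrix.Norms.L2Operator
open Matrix

namespace Pool.Agent.Helper190.SS



theorem chain_append {W : Type*} (f : W → W → ℝ) (l l' : List W) (a b c : W) :
    chain f a (l ++ b :: l') c = chain f a l b * chain f b l' c := by
  induction l generalizing a with
  | nil => rfl
  | cons x l ih =>
    show f a x * chain f x (l ++ b :: l') c = f a x * chain f x l b * chain f b l' c
    rw [ih, mul_assoc]

theorem chain_reverse {W : Type*} (f : W → W → ℝ) (hf : ∀ a b, f a b = f b a) (l : List W)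
    (b c : W) : chain f c l b = chain f b l.reverse c := by
  induction l generalizing c with
  | nil => exact hf c b
  | cons x l ih =>
    rw [List.reverse_cons, chain_append, ← ih x]
    show f c x * chain f x l b = chain f x l b * f x c
    rw [hf c x, mul_comm]

/-- weight of a path -/
def cw {W : Type*} (f : W → W → ℝ) (u : W × List W × W) : ℝ := chain f u.1 u.2.1 u.2.2

/-- number of times that `w` is an endpoint of the path -/
def endc {W : Type*} [DecidableEq W] (w : W) (u : W × List W × W) : ℕ :=
  (if u.1 = w then 1 else 0) + (if u.2.2 = w then 1 else 0)

/-- membership in a path -/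
def inP {W : Type*} (w : W) (u : W × List W × W) : Prop := w = u.1 ∨ w ∈ u.2.1 ∨ w = u.2.2

theorem euler_paths {T : Type*} [DecidableEq T] (n : ℕ) : ∀ P : List (T × List T × T),
    P.length = n → (∀ w, Even (P.map (endc w)).sum) →
    ∃ L : List (T × List T),
      (∀ f : T → T → ℝ, (∀ a b, f a b = f b a) → (P.map (cw f)).prod = (L.map (wt f)).prod) ∧
      (∀ w : T, (∃ u ∈ L, w ∈ suppW u) ↔ ∃ u ∈ P, inP w u) := by
  induction n with
  | zero =>
    intro P hP _
    rw [List.length_eq_zero_iff] at hP
    subst hP
    exact ⟨[], fun f _ => rfl, fun w => by simp⟩
  | succ n ih =>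
    intro P hP heven
    cases P with
    | nil => simp at hP
    | cons u P =>
      obtain ⟨a, l, b⟩ := u
      rw [List.length_cons, Nat.add_right_cancel_iff] at hP
      by_cases hab : a = b
      · subst hab
        obtain ⟨L, hL1, hL2⟩ := ih P hP (by
          intro w
          have h1 := heven w
          rw [List.map_cons, List.sum_cons] at h1
          have h2 : Even (endc w (a, l, a)) := by
            unfold endc
            exact ⟨_, rfl⟩
          rw [Nat.even_add] at h1
          exact h1.1 h2)
        refine ⟨(a, l) :: L, ?_, ?_⟩
        · intro f hf
          rw [List.map_cons, List.map_cons, List.prod_cons, List.prod_cons, hL1 f hf]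
          rfl
        · intro w
          have h1 : w ∈ suppW (a, l) ↔ inP w (a, l, a) := by
            unfold suppW inP
            simp only [List.toFinset_cons, Finset.mem_insert, List.mem_toFinset]
            tauto
          simp only [List.mem_cons, exists_eq_or_imp, h1, hL2 w]
      · have h1 := heven b
        rw [List.map_cons, List.sum_cons] at h1
        have h2 : endc b (a, l, b) = 1 := by
          unfold endc
          simp [hab]
        rw [h2] at h1
        have h3 : (P.map (endc b)).sum ≠ 0 := by
          intro h0
          rw [h0] at h1
          exact absurd h1 (by decide)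
        obtain ⟨u, huP, hub⟩ : ∃ u ∈ P, endc b u ≠ 0 := by
          by_contra hcon
          push Not at hcon
          apply h3
          rw [List.sum_eq_zero_iff]
          intro x hx
          rw [List.mem_map] at hx
          obtain ⟨u, hu, rfl⟩ := hx
          exact hcon u hu
        obtain ⟨P1, P2, hP12⟩ := List.append_of_mem huP
        obtain ⟨l', c, hcw, hend, hsup⟩ : ∃ (l' : List T) (c : T),
            (∀ f : T → T → ℝ, (∀ a b, f a b = f b a) → cw f u = chain f b l' c) ∧
            (∀ w, endc w u = (if b = w then 1 else 0) + (if c = w then 1 else 0)) ∧
            (∀ w, inP w u ↔ (w = b ∨ w ∈ l' ∨ w = c)) := by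
          obtain ⟨x, l1, y⟩ := u
          by_cases hx : x = b
          · subst hx
            exact ⟨l1, y, fun f _ => rfl, fun w => rfl, fun w => Iff.rfl⟩
          · have hy : y = b := by
              unfold endc at hub
              simp only [hx, if_false, zero_add] at hub
              by_contra hy
              simp only [hy, if_false, ne_eq, not_true_eq_false] at hub
            subst hy
            refine ⟨l1.reverse, x, fun f hf => chain_reverse f hf l1 y x, fun w => ?_, fun w => ?_⟩
            · unfold endc
              exact add_comm _ _
            · unfold inP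
              simp only [List.mem_reverse]
              tauto
        obtain ⟨L, hL1, hL2⟩ := ih ((a, l ++ b :: l', c) :: (P1 ++ P2)) (by
            rw [hP12] at hP
            simp only [List.length_append, List.length_cons] at hP ⊢
            omega) (by
            intro w
            have h4 := heven w
            rw [hP12] at h4
            simp only [List.map_cons, List.map_append, List.sum_cons, List.sum_append, hend] at h4 ⊢
            unfold endc at h4 ⊢
            simp only at h4 ⊢
            generalize (if a = w then 1 else 0) = x1 at h4 ⊢
            generalize (if b = w then 1 else 0) = x2 at h4 ⊢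
            generalize (if c = w then 1 else 0) = x3 at h4 ⊢
            rw [Nat.even_iff] at h4 ⊢
            omega)
        refine ⟨L, ?_, ?_⟩
        · intro f hf
          rw [← hL1 f hf, hP12]
          simp only [List.map_cons, List.map_append, List.prod_cons, List.prod_append, hcw f hf]
          unfold cw
          simp only [chain_append]
          ring
        · intro w
          rw [hL2 w, hP12]
          simp only [List.mem_cons, List.mem_append, exists_eq_or_imp]
          have h5 : inP w (a, l ++ b :: l', c) ↔ inP w (a, l, b) ∨ inP w u := by
            rw [hsup w]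
            unfold inP
            simp only [List.mem_append, List.mem_cons]
            tauto
          constructor
          · rintro (h | ⟨v, hv, hvw⟩)
            · rcases h5.1 h with h | h
              · exact Or.inl h
              · exact Or.inr ⟨u, Or.inr (Or.inl rfl), h⟩
            · refine Or.inr ⟨v, ?_, hvw⟩
              rcases hv with hv | hv
              · exact Or.inl hv
              · exact Or.inr (Or.inr hv)
          · rintro (h | ⟨v, hv, hvw⟩)
            · exact Or.inl (h5.2 (Or.inl h))
            · rcases hv with hv | rfl | hv
              · exact Or.inr ⟨v, Or.inl hv, hvw⟩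
              · exact Or.inl (h5.2 (Or.inr hvw))
              · exact Or.inr ⟨v, Or.inr hv, hvw⟩

theorem euler_words {M : ℕ} {T : Type*} [DecidableEq T] (p q : Fin M → T) (h : EvenDeg p q) :
    ∃ L : List (T × List T),
      (∀ f : T → T → ℝ, (∀ a b, f a b = f b a) →
        ∏ e, f (p e) (q e) = (L.map (wt f)).prod) ∧
      (∀ w : T, (∃ u ∈ L, w ∈ suppW u) ↔ ((∃ e, p e = w) ∨ ∃ e, q e = w)) := by
  obtain ⟨L, hL1, hL2⟩ := euler_paths M (List.ofFn (fun e : Fin M => (p e, ([] : List T), q e)))
    (List.length_ofFn) (by
      intro w
      rw [List.map_ofFn, List.sum_ofFn]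
      have h1 := h w
      have h2 : ∑ e : Fin M, (endc w ∘ fun e : Fin M => (p e, ([] : List T), q e)) e
          = (Finset.univ.filter (fun e => p e = w)).card
            + (Finset.univ.filter (fun e => q e = w)).card := by
        rw [Finset.card_filter, Finset.card_filter, ← Finset.sum_add_distrib]
        rfl
      rw [h2]
      exact h1)
  refine ⟨L, ?_, ?_⟩
  · intro f hf
    rw [← hL1 f hf, List.map_ofFn, List.prod_ofFn]
    rfl
  · intro w
    rw [hL2 w]
    constructor
    · rintro ⟨u, hu, hw⟩
      rw [List.mem_ofFn] at hu
      obtain ⟨e, rfl⟩ := hu
      unfold inP at hw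
      simp only [List.not_mem_nil, false_or] at hw
      rcases hw with hw | hw
      · exact Or.inl ⟨e, hw.symm⟩
      · exact Or.inr ⟨e, hw.symm⟩
    · rintro (⟨e, he⟩ | ⟨e, he⟩)
      · exact ⟨(p e, [], q e), List.mem_ofFn.2 ⟨e, rfl⟩, Or.inl he.symm⟩
      · exact ⟨(p e, [], q e), List.mem_ofFn.2 ⟨e, rfl⟩, Or.inr (Or.inr he.symm)⟩

end Pool.Agent.Helper190.SS
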