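import Pool.Agent.Helper190.SS.Defs

set_option autoImplicit false

open scoped BigOperators Matrix.Norms.L2Operator
open Matrix

namespace Pool.Agent.Helper190.SS



theorem indep_words_avg_mul {T N : Type*} [Fintype T] [DecidableEq T] [Fintype N] [DecidableEq N]
    [Nonempty N] (φ ψ : (T → N) → ℝ) (V : Finset T)
    (hφ : ∀ j j' : T → N, (∀ w ∈ V, j w = j' w) → φ j = φ j')
    (hψ : ∀ j j' : T → N, (∀ w, w ∉ V → j w = j' w) → ψ j = ψ j') :
    avg (fun j => φ j * ψ j) = avg φ * avg ψ := by
  let mix : (T → N) → (T → N) → (T → N) := fun a b w => if w ∈ V then a w else b w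
  have hmix1 : ∀ a b w, w ∈ V → mix a b w = a w := fun a b w hw => if_pos hw
  have hmix2 : ∀ a b w, w ∉ V → mix a b w = b w := fun a b w hw => if_neg hw
  let e : ((T → N) × (T → N)) ≃ ((T → N) × (T → N)) :=
    { toFun := fun p => (mix p.1 p.2, mix p.2 p.1)
      invFun := fun p => (mix p.1 p.2, mix p.2 p.1)
      left_inv := by
        rintro ⟨a, b⟩
        refine Prod.ext (funext fun w => ?_) (funext fun w => ?_)
        · show mix (mix a b) (mix b a) w = a w
          by_cases hw : w ∈ V
          · rw [hmix1 _ _ _ hw, hmix1 _ _ _ hw]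
          · rw [hmix2 _ _ _ hw, hmix2 _ _ _ hw]
        · show mix (mix b a) (mix a b) w = b w
          by_cases hw : w ∈ V
          · rw [hmix1 _ _ _ hw, hmix1 _ _ _ hw]
          · rw [hmix2 _ _ _ hw, hmix2 _ _ _ hw]
      right_inv := by
        rintro ⟨a, b⟩
        refine Prod.ext (funext fun w => ?_) (funext fun w => ?_)
        · show mix (mix a b) (mix b a) w = a w
          by_cases hw : w ∈ V
          · rw [hmix1 _ _ _ hw, hmix1 _ _ _ hw]
          · rw [hmix2 _ _ _ hw, hmix2 _ _ _ hw]
        · show mix (mix b a) (mix a b) w = b w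
          by_cases hw : w ∈ V
          · rw [hmix1 _ _ _ hw, hmix1 _ _ _ hw]
          · rw [hmix2 _ _ _ hw, hmix2 _ _ _ hw] }
  have h1 : (∑ j, φ j) * (∑ j', ψ j') = (Fintype.card (T → N) : ℝ) * ∑ j, φ j * ψ j := by
    rw [Finset.sum_mul_sum, ← Fintype.sum_prod_type' (fun j j' => φ j * ψ j')]
    have h2 : ∀ p : (T → N) × (T → N), φ p.1 * ψ p.2 = (fun q : (T → N) × (T → N) => φ q.1 * ψ q.1) (e p) := by
      rintro ⟨a, b⟩
      show φ a * ψ b = φ (mix a b) * ψ (mix a b)
      rw [hφ a (mix a b) (fun w hw => (hmix1 a b w hw).symm),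
        hψ b (mix a b) (fun w hw => (hmix2 a b w hw).symm)]
    have h3 : ∑ p : (T → N) × (T → N), (fun q : (T → N) × (T → N) => φ q.1 * ψ q.1) (e p) =
        ∑ q : (T → N) × (T → N), φ q.1 * ψ q.1 :=
      Equiv.sum_comp e (fun q : (T → N) × (T → N) => φ q.1 * ψ q.1)
    rw [Finset.sum_congr rfl (fun p _ => h2 p), h3, Fintype.sum_prod_type]
    simp only [Finset.sum_const, Finset.card_univ, nsmul_eq_mul]
    rw [← Finset.mul_sum]
  have hn : (Fintype.card (T → N) : ℝ) ≠ 0 := by
    have : 0 < Fintype.card (T → N) := Fintype.card_pos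
    exact_mod_cast this.ne'
  unfold avg
  rw [div_mul_div_comm, h1]
  field_simp

theorem indep_words_chain {T N : Type*} (f : N → N → ℝ) (j j' : T → N) (l : List T) :
    ∀ (a c : T), j a = j' a → j c = j' c → (∀ w ∈ l, j w = j' w) →
    chain (fun a b => f (j a) (j b)) a l c = chain (fun a b => f (j' a) (j' b)) a l c := by
  induction l with
  | nil =>
    intro a c ha hc _
    simp only [chain, ha, hc]
  | cons b l ih =>
    intro a c ha hc hl
    have hb := hl b List.mem_cons_self
    simp only [chain, ha, hb]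
    rw [ih b c hb hc (fun w hw => hl w (List.mem_cons_of_mem _ hw))]

theorem indep_words_wt {T N : Type*} [DecidableEq T] (f : N → N → ℝ) (j j' : T → N)
    (u : T × List T) (h : ∀ w ∈ suppW u, j w = j' w) :
    wt (fun a b => f (j a) (j b)) u = wt (fun a b => f (j' a) (j' b)) u := by
  have h1 : j u.1 = j' u.1 := h _ (by simp [suppW])
  refine indep_words_chain f j j' u.2 u.1 u.1 h1 h1 (fun w hw => h w ?_)
  simp [suppW, hw]

theorem indep_words {T N : Type*} [Fintype T] [DecidableEq T] [Fintype N] [DecidableEq N]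
    [Nonempty N] (f : N → N → ℝ) (L : List (T × List T))
    (hL : L.Pairwise (fun u v => Disjoint (suppW u) (suppW v))) :
    avg (fun j : T → N => (L.map (wt (fun a b => f (j a) (j b)))).prod) =
      (L.map (fun u => avg (fun j : T → N => wt (fun a b => f (j a) (j b)) u))).prod := by
  induction L with
  | nil =>
    have hn : (Fintype.card (T → N) : ℝ) ≠ 0 := by
      have : 0 < Fintype.card (T → N) := Fintype.card_pos
      exact_mod_cast this.ne'
    simp only [List.map_nil, List.prod_nil, avg, Finset.sum_const, Finset.card_univ, nsmul_eq_mul,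
      mul_one]
    exact div_self hn
  | cons u L ih =>
    rw [List.pairwise_cons] at hL
    simp only [List.map_cons, List.prod_cons]
    rw [← ih hL.2]
    refine indep_words_avg_mul (fun j : T → N => wt (fun a b => f (j a) (j b)) u)
      (fun j : T → N => (L.map (wt (fun a b => f (j a) (j b)))).prod) (suppW u) ?_ ?_
    · intro j j' h
      exact indep_words_wt f j j' u h
    · intro j j' h
      show (L.map (wt (fun a b => f (j a) (j b)))).prod = (L.map (wt (fun a b => f (j' a) (j' b)))).prod
      congr 1
      apply List.map_congr_left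
      intro v hv
      apply indep_words_wt
      intro w hw
      exact h w (fun hwu => Finset.disjoint_left.1 (hL.1 v hv) hwu hw)

end Pool.Agent.Helper190.SS
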