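import Pool.Agent.Helper190.SS.Defs

set_option autoImplicit false

open scoped BigOperators Matrix.Norms.L2Operator
open Matrix

namespace Pool.Agent.Helper190.SS


theorem chain_append_merge_words {W : Type*} (f : W → W → ℝ) (w : W) (l2 : List W) (c : W) :
    ∀ (l : List W) (a : W), chain f a (l ++ w :: l2) c = chain f a l w * chain f w l2 c := by
  intro l
  induction l with
  | nil => intro a; simp [chain]
  | cons b l ih => intro a; simp only [List.cons_append, chain, ih b]; ring

theorem rot_word {T : Type*} [DecidableEq T] (u : T × List T) {w : T} (hw : w ∈ suppW u) :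
    ∃ l : List T, suppW (w, l) = suppW u ∧ ∀ f : T → T → ℝ, wt f (w, l) = wt f u := by
  obtain ⟨x, l⟩ := u
  by_cases h : w = x
  · subst h
    exact ⟨l, rfl, fun f => rfl⟩
  · have hl : w ∈ l := by
      simp only [suppW, List.mem_toFinset, List.mem_cons] at hw
      exact hw.resolve_left h
    obtain ⟨l1, l2, rfl⟩ := List.append_of_mem hl
    refine ⟨l2 ++ x :: l1, ?_, fun f => ?_⟩
    · ext t
      simp only [suppW, List.mem_toFinset, List.mem_cons, List.mem_append]
      tauto
    · simp only [wt]
      rw [chain_append_merge_words, chain_append_merge_words, mul_comm]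

theorem merge_two {T : Type*} [DecidableEq T] (u v : T × List T)
    (h : ¬ Disjoint (suppW u) (suppW v)) :
    ∃ m : T × List T, suppW m = suppW u ∪ suppW v ∧
      ∀ f : T → T → ℝ, wt f m = wt f u * wt f v := by
  rw [Finset.not_disjoint_iff] at h
  obtain ⟨w, hu, hv⟩ := h
  obtain ⟨l, hl1, hl2⟩ := rot_word u hu
  obtain ⟨l', hl'1, hl'2⟩ := rot_word v hv
  refine ⟨(w, l ++ w :: l'), ?_, fun f => ?_⟩
  · rw [← hl1, ← hl'1]
    ext t
    simp only [suppW, List.mem_toFinset, List.mem_cons, List.mem_append, Finset.mem_union]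
    tauto
  · rw [← hl2 f, ← hl'2 f]
    simp only [wt]
    rw [chain_append_merge_words]

theorem absorb {T : Type*} [DecidableEq T] (n : ℕ) :
    ∀ (u : T × List T) (L : List (T × List T)), L.length = n →
      L.Pairwise (fun u v => Disjoint (suppW u) (suppW v)) →
    ∃ L' : List (T × List T),
      (∀ f : T → T → ℝ, wt f u * (L.map (wt f)).prod = (L'.map (wt f)).prod) ∧
      (∀ w : T, (∃ v ∈ L', w ∈ suppW v) ↔ (w ∈ suppW u ∨ ∃ v ∈ L, w ∈ suppW v)) ∧
      L'.Pairwise (fun u v => Disjoint (suppW u) (suppW v)) := by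
  induction n using Nat.strong_induction_on with
  | _ n ih =>
    intro u L hL hp
    by_cases hd : ∀ v ∈ L, Disjoint (suppW u) (suppW v)
    · refine ⟨u :: L, fun f => by simp, fun w => by simp, ?_⟩
      rw [List.pairwise_cons]
      exact ⟨hd, hp⟩
    · push Not at hd
      obtain ⟨v, hv, hnd⟩ := hd
      obtain ⟨A, B, rfl⟩ := List.append_of_mem hv
      obtain ⟨m, hm1, hm2⟩ := merge_two u v hnd
      have hlen : (A ++ B).length < n := by
        rw [← hL]
        simp
      have hp' : (A ++ B).Pairwise (fun u v => Disjoint (suppW u) (suppW v)) := by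
        refine hp.sublist ?_
        exact List.Sublist.append_left (List.sublist_cons_self v B) A
      obtain ⟨L', h1, h2, h3⟩ := ih _ hlen m (A ++ B) rfl hp'
      refine ⟨L', fun f => ?_, fun w => ?_, h3⟩
      · rw [← h1 f, hm2 f]
        simp only [List.map_append, List.map_cons, List.prod_append, List.prod_cons]
        ring
      · rw [h2 w, hm1, Finset.mem_union]
        simp only [List.mem_append, List.mem_cons]
        constructor
        · rintro ((h | h) | ⟨t, ht, hw⟩)
          · exact Or.inl h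
          · exact Or.inr ⟨v, Or.inr (Or.inl rfl), h⟩
          · refine Or.inr ⟨t, ?_, hw⟩
            tauto
        · rintro (h | ⟨t, ht | rfl | ht, hw⟩)
          · exact Or.inl (Or.inl h)
          · exact Or.inr ⟨t, Or.inl ht, hw⟩
          · exact Or.inl (Or.inr hw)
          · exact Or.inr ⟨t, Or.inr ht, hw⟩

theorem merge_words {T : Type*} [DecidableEq T] (L : List (T × List T)) :
    ∃ L' : List (T × List T),
      (∀ f : T → T → ℝ, (∀ a b, f a b = f b a) →
        (L.map (wt f)).prod = (L'.map (wt f)).prod) ∧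
      (∀ w : T, (∃ u ∈ L', w ∈ suppW u) ↔ (∃ u ∈ L, w ∈ suppW u)) ∧
      L'.Pairwise (fun u v => Disjoint (suppW u) (suppW v)) := by
  suffices H : ∃ L' : List (T × List T),
      (∀ f : T → T → ℝ, (L.map (wt f)).prod = (L'.map (wt f)).prod) ∧
      (∀ w : T, (∃ u ∈ L', w ∈ suppW u) ↔ (∃ u ∈ L, w ∈ suppW u)) ∧
      L'.Pairwise (fun u v => Disjoint (suppW u) (suppW v)) by
    obtain ⟨L', h1, h2, h3⟩ := H
    exact ⟨L', fun f _ => h1 f, h2, h3⟩
  induction L with
  | nil => exact ⟨[], fun f => rfl, fun w => Iff.rfl, List.Pairwise.nil⟩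
  | cons u L ih =>
    obtain ⟨L1, h1, h2, h3⟩ := ih
    obtain ⟨L', g1, g2, g3⟩ := absorb L1.length u L1 rfl h3
    refine ⟨L', fun f => ?_, fun w => ?_, g3⟩
    · rw [← g1 f, ← h1 f]
      simp
    · rw [g2 w, h2 w]
      simp

end Pool.Agent.Helper190.SS
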