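import Pool.Agent.Helper190.SS.Defs

set_option autoImplicit false

open scoped BigOperators Matrix.Norms.L2Operator
open Matrix

namespace Pool.Agent.Helper190.SS



theorem avg_pi_aux {L : ℕ} {H : Type*} [Fintype H] (F : Fin L → H → ℝ) :
    avg (fun η : Fin L → H => ∏ t, F t (η t)) = ∏ t, avg (F t) := by
  unfold avg
  rw [Finset.prod_div_distrib, Finset.prod_univ_sum, Fintype.piFinset_univ]
  congr 1
  rw [Fintype.card_fun, Finset.prod_const, Finset.card_univ, Nat.cast_pow]

theorem avg_sgn_mul_aux {N : Type*} [Fintype N] [DecidableEq N] (a b : N) :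
    avg (fun h : N → Bool => sgn (h a) * sgn (h b)) = ind (a = b) := by
  by_cases hab : a = b
  · subst hab
    rw [ind_true rfl]
    have h1 : ∀ h : N → Bool, sgn (h a) * sgn (h a) = 1 := by
      intro h; unfold sgn; split_ifs <;> norm_num
    unfold avg
    simp_rw [h1]
    rw [Finset.sum_const, Finset.card_univ, nsmul_eq_mul, mul_one]
    exact div_self (Nat.cast_ne_zero.mpr Fintype.card_ne_zero)
  · rw [ind_false hab]
    unfold avg
    have hinv : Function.Involutive (fun h : N → Bool => Function.update h a (!h a)) := by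
      intro h; simp
    have hs : ∑ h : N → Bool, sgn (h a) * sgn (h b) = 0 := by
      have h1 := Equiv.sum_comp (Function.Involutive.toPerm _ hinv)
        (fun h : N → Bool => sgn (h a) * sgn (h b))
      have h2 : ∀ h : N → Bool, sgn ((Function.Involutive.toPerm _ hinv) h a) *
          sgn ((Function.Involutive.toPerm _ hinv) h b) = - (sgn (h a) * sgn (h b)) := by
        intro h
        have ha : (Function.Involutive.toPerm _ hinv) h a = !h a := by
          simp [Function.Involutive.toPerm]
        have hb : (Function.Involutive.toPerm _ hinv) h b = h b := by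
          simp [Function.Involutive.toPerm, Function.update_of_ne (Ne.symm hab)]
        rw [ha, hb]
        unfold sgn
        cases h a <;> cases h b <;> norm_num
      rw [Finset.sum_congr rfl (fun h _ => h2 h), Finset.sum_neg_distrib] at h1
      linarith
    rw [hs, zero_div]

theorem sign_ident {L : ℕ} {N V : Type*} [Fintype N] [DecidableEq N] [DecidableEq V]
    (κ : Fin L → V) :
    ∃ ε : (Fin L → N → Bool) → Fin L → N → ℝ,
      (∀ η t a, ε η t a = 1 ∨ ε η t a = -1) ∧
      ∀ i : Fin L → N, avg (fun η => ∏ t, ε η t (i t)) =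
        ind (∀ t t', κ t = κ t' → i t = i t') := by
  have hg : ∀ v : Set.range κ, ∃ s, κ s = v.1 := fun v => v.2
  choose g hg using hg
  obtain ⟨r, hr1, hr2⟩ : ∃ r : Fin L → Fin L, (∀ t, κ (r t) = κ t) ∧
      ∀ t t', κ t = κ t' → r t = r t' :=
    ⟨fun t => g ⟨κ t, t, rfl⟩, fun t => hg _, fun t t' h => congrArg g (Subtype.ext h)⟩
  have hsgn : ∀ e : Bool, sgn e = 1 ∨ sgn e = -1 := by
    intro e; unfold sgn; cases e <;> simp
  have hmul : ∀ x y : ℝ, (x = 1 ∨ x = -1) → (y = 1 ∨ y = -1) → (x * y = 1 ∨ x * y = -1) := by
    rintro x y (rfl | rfl) (rfl | rfl) <;> norm_num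
  refine ⟨fun η t a => (if r t ≠ t then sgn (η t a) else 1) *
    ∏ t', (if r t' ≠ t' ∧ r t' = t then sgn (η t' a) else 1), ?_, ?_⟩
  · intro η t a
    apply hmul
    · split_ifs
      · exact hsgn _
      · exact Or.inl rfl
    · apply Finset.prod_induction _ (fun x : ℝ => x = 1 ∨ x = -1) hmul (Or.inl rfl)
      intro t' _
      split_ifs
      · exact hsgn _
      · exact Or.inl rfl
  · intro i
    have h1 : ∀ η : Fin L → N → Bool, ∏ t, ((if r t ≠ t then sgn (η t (i t)) else 1) *
        ∏ t', (if r t' ≠ t' ∧ r t' = t then sgn (η t' (i t)) else 1)) =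
        ∏ t, (if r t ≠ t then sgn (η t (i t)) * sgn (η t (i (r t))) else 1) := by
      intro η
      rw [Finset.prod_mul_distrib]
      rw [Finset.prod_comm (f := fun t t' => (if r t' ≠ t' ∧ r t' = t then sgn (η t' (i t)) else 1))]
      rw [← Finset.prod_mul_distrib]
      refine Finset.prod_congr rfl fun t _ => ?_
      by_cases h : r t ≠ t
      · have h3 : ∏ y, (if r t ≠ t ∧ r t = y then sgn (η t (i y)) else 1) =
            sgn (η t (i (r t))) := by
          rw [Finset.prod_eq_single (r t)]
          · rw [if_pos ⟨h, rfl⟩]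
          · intro y _ hy
            rw [if_neg (fun hh => hy hh.2.symm)]
          · intro hh
            exact absurd (Finset.mem_univ _) hh
        rw [h3, if_pos h, if_pos h]
      · have h3 : ∏ y, (if r t ≠ t ∧ r t = y then sgn (η t (i y)) else 1) = 1 :=
          Finset.prod_eq_one fun y _ => if_neg (fun hh => h hh.1)
        rw [h3, if_neg h, if_neg h, mul_one]
    have h2 : avg (fun η : Fin L → N → Bool => ∏ t, ((if r t ≠ t then sgn (η t (i t)) else 1) *
        ∏ t', (if r t' ≠ t' ∧ r t' = t then sgn (η t' (i t)) else 1))) =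
        avg (fun η : Fin L → N → Bool => ∏ t,
          (fun (t : Fin L) (h : N → Bool) =>
            if r t ≠ t then sgn (h (i t)) * sgn (h (i (r t))) else 1) t (η t)) := by
      congr 1
      funext η
      exact h1 η
    refine h2.trans ((avg_pi_aux (fun (t : Fin L) (h : N → Bool) =>
            if r t ≠ t then sgn (h (i t)) * sgn (h (i (r t))) else 1)).trans ?_)
    have h3 : ∀ t : Fin L, avg (fun h : N → Bool =>
        if r t ≠ t then sgn (h (i t)) * sgn (h (i (r t))) else 1) =
        if r t ≠ t then ind (i t = i (r t)) else 1 := by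
      intro t
      by_cases h : r t ≠ t
      · simp only [if_pos h]
        exact avg_sgn_mul_aux _ _
      · simp only [if_neg h]
        unfold avg
        rw [Finset.sum_const, Finset.card_univ, nsmul_eq_mul, mul_one]
        exact div_self (Nat.cast_ne_zero.mpr Fintype.card_ne_zero)
    rw [Finset.prod_congr rfl (fun t _ => h3 t)]
    by_cases hP : ∀ t t', κ t = κ t' → i t = i t'
    · rw [ind_true hP]
      apply Finset.prod_eq_one
      intro t _
      split_ifs with h
      · exact ind_true (hP _ _ (hr1 t).symm)
      · rfl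
    · rw [ind_false hP]
      push Not at hP
      obtain ⟨t, t', h4, h5⟩ := hP
      have h6 : ∃ s, i s ≠ i (r s) := by
        by_contra hcon
        push Not at hcon
        apply h5
        rw [hcon t, hcon t', hr2 t t' h4]
      obtain ⟨s, hs⟩ := h6
      apply Finset.prod_eq_zero (Finset.mem_univ s)
      have h7 : r s ≠ s := fun h => hs (by rw [h])
      rw [if_pos h7]
      exact ind_false hs

end Pool.Agent.Helper190.SS
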