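import Pool.Agent.Helper190.SS.Defs
import Pool.Agent.Helper190.SS.P_trace_prod_expand

set_option autoImplicit false

open scoped BigOperators Matrix.Norms.L2Operator
open Matrix

namespace Pool.Agent.Helper190.SS



theorem signed_trace_bound_diag {N : Type*} [Fintype N] [DecidableEq N] (v : N → ℝ)
    (hv : ∀ a, v a = 1 ∨ v a = -1) : ‖(Matrix.diagonal v : Matrix N N ℝ)‖ ≤ 1 := by
  rw [Matrix.l2_opNorm_diagonal, pi_norm_le_iff_of_nonneg zero_le_one]
  intro a
  rcases hv a with h | h <;> simp [h]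

theorem signed_trace_bound_one {N : Type*} [Fintype N] [DecidableEq N] :
    ‖(1 : Matrix N N ℝ)‖ ≤ 1 := by
  rw [← Matrix.diagonal_one]
  exact signed_trace_bound_diag _ (fun _ => Or.inl rfl)

theorem signed_trace_bound_list {N : Type*} [Fintype N] [DecidableEq N]
    (l : List (Matrix N N ℝ)) (hl : ∀ A ∈ l, ‖A‖ ≤ 1) : ‖l.prod‖ ≤ 1 := by
  induction l with
  | nil => rw [List.prod_nil]; exact signed_trace_bound_one
  | cons A l ih =>
    rw [List.prod_cons]
    have h1 := hl A List.mem_cons_self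
    have h2 := ih (fun B hB => hl B (List.mem_cons_of_mem _ hB))
    calc ‖A * l.prod‖ ≤ ‖A‖ * ‖l.prod‖ := Matrix.l2_opNorm_mul _ _
      _ ≤ 1 * 1 := mul_le_mul h1 h2 (norm_nonneg _) zero_le_one
      _ = 1 := one_mul 1

theorem signed_trace_bound {N : Type*} [Fintype N] [DecidableEq N] (r : ℕ) (G : Matrix N N ℝ)
    (hG : Good r G) (L : ℕ) [NeZero L] (ε : Fin L → N → ℝ) (hε : ∀ t a, ε t a = 1 ∨ ε t a = -1) :
    |∑ i : Fin L → N, ∏ t, (ε t (i t) * G (i t) (i (t + 1)))| ≤ r := by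
  obtain ⟨m, rfl⟩ := Nat.exists_eq_succ_of_ne_zero (NeZero.ne L)
  let A : Fin (m + 1) → Matrix N N ℝ := fun t => Matrix.diagonal (ε t) * G
  have hA : ∀ t, ‖A t‖ ≤ 1 := fun t =>
    calc ‖Matrix.diagonal (ε t) * G‖ ≤ ‖(Matrix.diagonal (ε t) : Matrix N N ℝ)‖ * ‖G‖ :=
          Matrix.l2_opNorm_mul _ _
      _ ≤ 1 * 1 := mul_le_mul (signed_trace_bound_diag _ (hε t)) hG.2.1 (norm_nonneg _)
          zero_le_one
      _ = 1 := one_mul 1
  have h1 : ∑ i : Fin (m + 1) → N, ∏ t, (ε t (i t) * G (i t) (i (t + 1))) =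
      Matrix.trace (List.ofFn A).prod := by
    have h2 := trace_prod_expand (m + 1) A
    rw [h2]
    refine Finset.sum_congr rfl fun i _ => Finset.prod_congr rfl fun t _ => ?_
    simp [A, Matrix.diagonal_mul]
  have h3 : (List.ofFn A).prod =
      ((List.ofFn (fun t : Fin m => A t.castSucc)).prod * Matrix.diagonal (ε (Fin.last m))) * G := by
    rw [List.ofFn_succ', List.concat_eq_append, List.prod_append, List.prod_singleton,
      Matrix.mul_assoc]
  have h4 : ‖(List.ofFn (fun t : Fin m => A t.castSucc)).prod *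
      Matrix.diagonal (ε (Fin.last m))‖ ≤ 1 := by
    refine (Matrix.l2_opNorm_mul _ _).trans ?_
    have h5 : ‖(List.ofFn (fun t : Fin m => A t.castSucc)).prod‖ ≤ 1 := by
      apply signed_trace_bound_list
      intro B hB
      obtain ⟨t, rfl⟩ := (List.mem_ofFn' _ _).1 hB
      exact hA _
    calc _ ≤ (1 : ℝ) * 1 := mul_le_mul h5 (signed_trace_bound_diag _ (hε _)) (norm_nonneg _)
          zero_le_one
      _ = 1 := one_mul 1
  show |∑ i : Fin (m + 1) → N, ∏ t, (ε t (i t) * G (i t) (i (t + 1)))| ≤ r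
  rw [h1, h3, Matrix.trace_mul_comm]
  refine (hG.2.2 _).trans ?_
  exact mul_le_of_le_one_right (Nat.cast_nonneg r) h4

end Pool.Agent.Helper190.SS
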