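import Pool.Agent.Helper190.SS.Defs
import Pool.Agent.Helper190.SS.P_sign_ident
import Pool.Agent.Helper190.SS.P_signed_trace_bound

set_option autoImplicit false

open scoped BigOperators Matrix.Norms.L2Operator
open Matrix

namespace Pool.Agent.Helper190.SS



theorem pos_fiber {T N : Type*} [Fintype T] [DecidableEq T] [Fintype N] [DecidableEq N]
    [Nonempty N] (L : ℕ) (κ : Fin L → T) (i : Fin L → N) :
    (((Finset.univ : Finset (T → N)).filter (fun j => (fun t => j (κ t)) = i)).card : ℝ) =
      ind (∀ t t', κ t = κ t' → i t = i t') * (Fintype.card N : ℝ) ^ (Fintype.card T - im κ) := by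
  classical
  by_cases h : ∀ t t', κ t = κ t' → i t = i t'
  · rw [ind_true h, one_mul]
    let V : Finset T := Finset.univ.image κ
    let val : T → N := fun τ => if h : ∃ t, κ t = τ then i h.choose else Classical.arbitrary N
    let S : T → Finset N := fun τ => if τ ∈ V then {val τ} else Finset.univ
    have hval : ∀ t, val (κ t) = i t := by
      intro t
      have hex : ∃ t', κ t' = κ t := ⟨t, rfl⟩
      simp only [val, dif_pos hex]
      exact h _ _ hex.choose_spec
    have e1 : ((Finset.univ : Finset (T → N)).filter (fun j => (fun t => j (κ t)) = i)) =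
        Fintype.piFinset S := by
      ext j
      rw [Finset.mem_filter, Fintype.mem_piFinset]
      constructor
      · rintro ⟨-, hj⟩ τ
        by_cases hτ : τ ∈ V
        · simp only [S, if_pos hτ, Finset.mem_singleton]
          obtain ⟨t, -, rfl⟩ := Finset.mem_image.1 hτ
          rw [hval]
          exact congrFun hj t
        · simp only [S, if_neg hτ, Finset.mem_univ]
      · intro hj
        refine ⟨Finset.mem_univ _, ?_⟩
        funext t
        have h1 := hj (κ t)
        have hτ : κ t ∈ V := Finset.mem_image_of_mem _ (Finset.mem_univ _)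
        simp only [S, if_pos hτ, Finset.mem_singleton] at h1
        rw [h1, hval]
    rw [e1, Fintype.card_piFinset]
    have e2 : ∀ τ, (S τ).card = if τ ∈ V then 1 else Fintype.card N := by
      intro τ
      simp only [S]
      split_ifs
      · simp
      · exact Finset.card_univ
    rw [Finset.prod_congr rfl (fun τ _ => e2 τ), Finset.prod_ite, Finset.prod_const_one, one_mul,
      Finset.prod_const]
    have e3 : (Finset.univ.filter (fun τ => τ ∉ V)).card = Fintype.card T - im κ := by
      have : Finset.univ.filter (fun τ => τ ∉ V) = Vᶜ := by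
        ext τ; simp
      rw [this, Finset.card_compl]
      rfl
    rw [e3]
    push_cast
    rfl
  · rw [ind_false h, zero_mul]
    have e1 : ((Finset.univ : Finset (T → N)).filter (fun j => (fun t => j (κ t)) = i)) = ∅ := by
      rw [Finset.filter_eq_empty_iff]
      intro j _ hj
      apply h
      intro t t' htt
      rw [← hj]
      show j (κ t) = j (κ t')
      rw [htt]
    rw [e1]
    simp

theorem pos_avg {T N : Type*} [Fintype T] [DecidableEq T] [Fintype N] [DecidableEq N]
    [Nonempty N] (L : ℕ) (κ : Fin L → T) (F : (Fin L → N) → ℝ) :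
    avg (fun j : T → N => F (fun t => j (κ t))) =
      (1 / (Fintype.card N : ℝ)) ^ (im κ) * ∑ i, ind (∀ t t', κ t = κ t' → i t = i t') * F i := by
  classical
  have hn : (0 : ℝ) < Fintype.card N := by exact_mod_cast Fintype.card_pos
  have hv : im κ ≤ Fintype.card T := Finset.card_le_univ _
  have e1 : ∑ j : T → N, F (fun t => j (κ t)) = ∑ i : Fin L → N,
      (((Finset.univ : Finset (T → N)).filter (fun j => (fun t => j (κ t)) = i)).card : ℝ) * F i := by
    rw [← Finset.sum_fiberwise Finset.univ (fun j : T → N => (fun t => j (κ t)))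
      (fun j => F (fun t => j (κ t)))]
    apply Finset.sum_congr rfl
    intro i _
    rw [Finset.sum_congr rfl (g := fun _ => F i), Finset.sum_const, nsmul_eq_mul]
    intro j hj
    rw [(Finset.mem_filter.1 hj).2]
  unfold avg
  rw [e1, Fintype.card_fun]
  simp only [pos_fiber]
  rw [Finset.sum_div, Finset.mul_sum]
  apply Finset.sum_congr rfl
  intro i _
  have e2 : ((Fintype.card N : ℝ) ^ (Fintype.card T - im κ)) / ((Fintype.card N ^ Fintype.card T : ℕ) : ℝ) =
      (1 / (Fintype.card N : ℝ)) ^ (im κ) := by
    push_cast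
    rw [div_pow, one_pow, div_eq_div_iff (by positivity) (by positivity), one_mul, ← pow_add,
      Nat.sub_add_cancel hv]
  rw [← e2]
  ring

theorem avg_abs_le {Ω : Type*} [Fintype Ω] (f : Ω → ℝ) (r : ℝ) (hr : 0 ≤ r) (h : ∀ ω, |f ω| ≤ r) :
    |avg f| ≤ r := by
  unfold avg
  rcases Nat.eq_zero_or_pos (Fintype.card Ω) with h0 | h0
  · rw [h0]; simpa using hr
  · have hc : (0 : ℝ) < Fintype.card Ω := by exact_mod_cast h0
    rw [abs_div, abs_of_pos hc, div_le_iff₀ hc]
    refine (Finset.abs_sum_le_sum_abs _ _).trans ?_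
    refine (Finset.sum_le_sum (fun ω _ => h ω)).trans ?_
    rw [Finset.sum_const, nsmul_eq_mul, Finset.card_univ, mul_comm]

theorem pos_bound {T N : Type*} [Fintype T] [DecidableEq T] [Fintype N] [DecidableEq N]
    [Nonempty N] (r : ℕ) (G : Matrix N N ℝ) (hG : Good r G) (L : ℕ) [NeZero L] (κ : Fin L → T) :
    |avg (fun j : T → N => ∏ t, G (j (κ t)) (j (κ (t + 1))))| ≤
      r * (1 / (Fintype.card N : ℝ)) ^ (im κ) := by
  classical
  obtain ⟨ε, hε, hid⟩ := sign_ident (N := N) κ
  rw [pos_avg L κ (fun i => ∏ t, G (i t) (i (t + 1))), abs_mul, mul_comm]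
  have hp : |(1 / (Fintype.card N : ℝ)) ^ (im κ)| = (1 / (Fintype.card N : ℝ)) ^ (im κ) :=
    abs_of_nonneg (by positivity)
  rw [hp]
  apply mul_le_mul_of_nonneg_right _ (by positivity)
  have e1 : ∑ i : Fin L → N, ind (∀ t t', κ t = κ t' → i t = i t') * ∏ t, G (i t) (i (t + 1)) =
      avg (fun η => ∑ i : Fin L → N, ∏ t, (ε η t (i t) * G (i t) (i (t + 1)))) := by
    unfold avg
    rw [Finset.sum_comm, Finset.sum_div]
    apply Finset.sum_congr rfl
    intro i _
    rw [← hid i]
    unfold avg
    rw [div_mul_eq_mul_div, Finset.sum_mul]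
    congr 1
    apply Finset.sum_congr rfl
    intro η _
    rw [Finset.prod_mul_distrib]
  rw [e1]
  exact avg_abs_le _ _ (Nat.cast_nonneg r) (fun η => signed_trace_bound r G hG L (ε η) (hε η))

end Pool.Agent.Helper190.SS
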