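import Pool.Agent.Helper190.SS.Defs
import Pool.Agent.Helper190.SS.P_pos_bound

set_option autoImplicit false

open scoped BigOperators Matrix.Norms.L2Operator
open Matrix

namespace Pool.Agent.Helper190.SS



theorem word_bound_chain {W : Type*} (f : W → W → ℝ) (l : List W) (a c : W) :
    chain f a l c = ∏ i ∈ Finset.range (l.length + 1),
      f ((a :: l).getD i c) ((a :: l).getD (i + 1) c) := by
  induction l generalizing a with
  | nil => simp [chain]
  | cons b l ih =>
    rw [chain, ih b, List.length_cons, Finset.prod_range_succ' _ (l.length + 1)]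
    simp only [List.getD_cons_succ, List.getD_cons_zero]
    rw [mul_comm]

theorem word_bound_cyc {W : Type*} (f : W → W → ℝ) (l : List W) (v : W) :
    chain f v l v = ∏ t : Fin (l.length + 1),
      f ((v :: l).getD t v) ((v :: l).getD ((t + 1 : Fin (l.length + 1)) : ℕ) v) := by
  rw [word_bound_chain, Finset.prod_range]
  refine Finset.prod_congr rfl fun t _ => ?_
  congr 1
  have h1 : ((t + 1 : Fin (l.length + 1)) : ℕ) = ((t : ℕ) + 1) % (l.length + 1) := by
    rw [Fin.val_add]
    simp
  rw [h1]
  rcases Nat.lt_or_ge ((t : ℕ) + 1) (l.length + 1) with h2 | h2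
  · rw [Nat.mod_eq_of_lt h2]
  · have h3 : (t : ℕ) + 1 = l.length + 1 := by
      have := t.2
      omega
    rw [h3, Nat.mod_self, List.getD_cons_zero, List.getD_cons_succ,
      List.getD_eq_default _ _ le_rfl]

theorem word_bound_im {W : Type*} [DecidableEq W] (l : List W) (v : W) :
    im (fun t : Fin (l.length + 1) => (v :: l).getD (t : ℕ) v) = (suppW (v, l)).card := by
  unfold im suppW
  congr 1
  ext x
  rw [Finset.mem_image, List.mem_toFinset, List.mem_iff_getElem]
  constructor
  · rintro ⟨t, _, rfl⟩
    refine ⟨t, t.2, ?_⟩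
    rw [List.getD_eq_getElem]
  · rintro ⟨i, hi, rfl⟩
    refine ⟨⟨i, hi⟩, Finset.mem_univ _, ?_⟩
    exact List.getD_eq_getElem _ _ hi

theorem word_bound {T N : Type*} [Fintype T] [DecidableEq T] [Fintype N] [DecidableEq N]
    [Nonempty N] (r : ℕ) (G : Matrix N N ℝ) (hG : Good r G) (u : T × List T) :
    |avg (fun j : T → N => wt (fun a b => G (j a) (j b)) u)| ≤
      r * (1 / (Fintype.card N : ℝ)) ^ (suppW u).card := by
  obtain ⟨v, l⟩ := u
  have h := pos_bound r G hG (l.length + 1) (fun t => (v :: l).getD (t : ℕ) v)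
  rw [word_bound_im] at h
  refine le_trans (le_of_eq ?_) h
  congr 2
  funext j
  unfold wt
  rw [word_bound_cyc]

end Pool.Agent.Helper190.SS
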