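import Pool.Agent.Helper190.SS.Defs

set_option autoImplicit false

open scoped BigOperators Matrix.Norms.L2Operator
open Matrix

namespace Pool.Agent.Helper190.SS



theorem w1_chain {T : Type*} {r : ℕ} (j : T → Fin r) (l : List T) (a c : T) :
    chain (fun a b => ind (j a = j b)) a l c
      = if (∀ x ∈ l, j x = j a) ∧ j a = j c then 1 else 0 := by
  induction l generalizing a with
  | nil =>
    simp only [chain, List.not_mem_nil, false_imp_iff, implies_true, true_and]
    by_cases h : j a = j c
    · rw [ind_true h, if_pos h]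
    · rw [ind_false h, if_neg h]
  | cons b l ih =>
    simp only [chain, ih]
    by_cases h : j a = j b
    · rw [ind_true h, one_mul]
      congr 1
      simp only [List.mem_cons, forall_eq_or_imp, h, true_and]
    · rw [ind_false h, zero_mul, if_neg]
      rintro ⟨h1, -⟩
      exact h (h1 b (List.mem_cons_self ..)).symm

theorem w1_count {T : Type*} [Fintype T] [DecidableEq T] (r : ℕ) (V : Finset T) (g : Fin r) :
    ∑ j : T → Fin r, (if ∀ x ∈ V, j x = g then (1 : ℝ) else 0)
      = ∏ x : T, (if x ∈ V then (1 : ℝ) else r) := by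
  have h1 : ∀ x : T, (if x ∈ V then (1 : ℝ) else r)
      = ∑ y : Fin r, (if x ∈ V then (if y = g then (1 : ℝ) else 0) else 1) := by
    intro x
    by_cases hx : x ∈ V
    · simp [hx]
    · simp [hx]
  rw [Finset.prod_congr rfl (fun x _ => h1 x), Finset.prod_univ_sum, Fintype.piFinset_univ]
  apply Finset.sum_congr rfl
  intro j _
  by_cases h : ∀ x ∈ V, j x = g
  · rw [if_pos h]
    symm
    apply Finset.prod_eq_one
    intro x _
    by_cases hx : x ∈ V
    · simp [hx, h x hx]
    · simp [hx]
  · rw [if_neg h]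
    push Not at h
    obtain ⟨x, hx, hxg⟩ := h
    symm
    apply Finset.prod_eq_zero (Finset.mem_univ x)
    simp [hx, hxg]

theorem w1_prod {T : Type*} [Fintype T] [DecidableEq T] (r : ℕ) (hr : 1 ≤ r) (V : Finset T) :
    (∏ x : T, (if x ∈ V then (1 : ℝ) else r)) / (r : ℝ) ^ Fintype.card T
      = (1 / (r : ℝ)) ^ V.card := by
  have hr0 : (r : ℝ) ≠ 0 := by positivity
  have h1 : (r : ℝ) ^ Fintype.card T = ∏ x : T, (r : ℝ) := by
    rw [Finset.prod_const, Finset.card_univ]
  rw [h1, ← Finset.prod_div_distrib]
  have h2 : ∀ x : T, (if x ∈ V then (1 : ℝ) else r) / r = if x ∈ V then 1 / (r : ℝ) else 1 := by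
    intro x
    by_cases hx : x ∈ V
    · simp [hx]
    · simp [hx, hr0]
  rw [Finset.prod_congr rfl (fun x _ => h2 x), Finset.prod_ite_mem, Finset.univ_inter,
    Finset.prod_const]

theorem word_one {T : Type*} [Fintype T] [DecidableEq T] (r : ℕ) (hr : 1 ≤ r)
    (u : T × List T) :
    avg (fun j : T → Fin r => wt (fun a b => ind (j a = j b)) u) =
      r * (1 / (r : ℝ)) ^ (suppW u).card := by
  obtain ⟨v, l⟩ := u
  have hwt : ∀ j : T → Fin r, wt (fun a b => ind (j a = j b)) (v, l)
      = ∑ g : Fin r, (if ∀ x ∈ suppW (v, l), j x = g then (1 : ℝ) else 0) := by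
    intro j
    unfold wt
    rw [w1_chain]
    rw [Finset.sum_eq_single (j v)]
    · congr 1
      simp only [and_true, suppW, List.mem_toFinset, List.mem_cons, forall_eq_or_imp, true_and]
    · intro g _ hg
      rw [if_neg]
      intro h
      apply hg
      exact (h v (by simp [suppW])).symm
    · intro h; exact absurd (Finset.mem_univ _) h
  unfold avg
  rw [Finset.sum_congr rfl (fun j _ => hwt j), Finset.sum_comm,
    Finset.sum_congr rfl (fun g _ => w1_count r _ g), Finset.sum_const, Finset.card_univ,
    Fintype.card_fin, nsmul_eq_mul, mul_div_assoc, Fintype.card_fun, Fintype.card_fin,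
    Nat.cast_pow, w1_prod r hr]

end Pool.Agent.Helper190.SS
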