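import Pool.Agent.Helper190.SS.Defs
import Pool.Agent.Helper190.SS.P_euler_words
import Pool.Agent.Helper190.SS.P_merge_words
import Pool.Agent.Helper190.SS.P_word_bound
import Pool.Agent.Helper190.SS.P_word_one
import Pool.Agent.Helper190.SS.P_indep_words

set_option autoImplicit false

open scoped BigOperators Matrix.Norms.L2Operator
open Matrix

namespace Pool.Agent.Helper190.SS



theorem wb_card {T : Type*} [Fintype T] [DecidableEq T] (L : List (T × List T))
    (hL : L.Pairwise (fun u v => Disjoint (suppW u) (suppW v))) (S : Finset T)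
    (hS : ∀ w, w ∈ S ↔ ∃ u ∈ L, w ∈ suppW u) :
    (L.map (fun u => (suppW u).card)).sum = S.card := by
  induction L generalizing S with
  | nil =>
    have h0 : S = ∅ := by
      ext w
      rw [hS]
      simp
    simp [h0]
  | cons u L ih =>
    rw [List.pairwise_cons] at hL
    classical
    let S' : Finset T := Finset.univ.filter (fun w => ∃ v ∈ L, w ∈ suppW v)
    have hS' : ∀ w, w ∈ S' ↔ ∃ v ∈ L, w ∈ suppW v := by
      intro w
      simp [S']
    have hih := ih hL.2 S' hS'
    have hSu : S = suppW u ∪ S' := by
      ext w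
      rw [hS, Finset.mem_union, hS']
      simp
    have hd : Disjoint (suppW u) S' := by
      rw [Finset.disjoint_left]
      intro w hw hw'
      obtain ⟨v, hv, hwv⟩ := (hS' w).1 hw'
      exact Finset.disjoint_left.1 (hL.1 v hv) hw hwv
    rw [List.map_cons, List.sum_cons, hih, hSu, Finset.card_union_of_disjoint hd]

theorem wb_abs {U : Type*} (F B : U → ℝ) (hFB : ∀ u, |F u| ≤ B u) (L : List U) :
    |(L.map F).prod| ≤ (L.map B).prod := by
  induction L with
  | nil => simp
  | cons u L ih =>
    rw [List.map_cons, List.prod_cons, List.map_cons, List.prod_cons, abs_mul]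
    exact mul_le_mul (hFB u) ih (abs_nonneg _) ((abs_nonneg _).trans (hFB u))

theorem wb_prod {T : Type*} [DecidableEq T] (L : List (T × List T)) (r n : ℝ) (hr : r ≠ 0) :
    (L.map (fun u => r * (1 / n) ^ (suppW u).card)).prod =
      (r / n) ^ (L.map (fun u => (suppW u).card)).sum *
        (L.map (fun u => r * (1 / r) ^ (suppW u).card)).prod := by
  induction L with
  | nil => simp
  | cons u L ih =>
    rw [List.map_cons, List.prod_cons, List.map_cons, List.sum_cons, List.map_cons, List.prod_cons,
      ih, pow_add]
    have h1 : (r / n) ^ (suppW u).card * (1 / r) ^ (suppW u).card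
        = (1 / n) ^ (suppW u).card := by
      rw [← mul_pow]
      congr 1
      field_simp
    rw [← h1]
    ring

theorem wbound {T N : Type*} [Fintype T] [DecidableEq T] [Fintype N] [DecidableEq N]
    [Nonempty N] (r : ℕ) (hr : 1 ≤ r) (G : Matrix N N ℝ) (hG : Good r G) {M : ℕ}
    (p q : Fin M → T) (h : EvenDeg p q) :
    |avg (fun j : T → N => ∏ e, G (j (p e)) (j (q e)))| ≤
      ((r : ℝ) / Fintype.card N) ^ (Finset.univ.image p ∪ Finset.univ.image q).card *
        avg (fun j : T → Fin r => ∏ e, ind (j (p e) = j (q e))) := by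
  obtain ⟨L, hL1, hL2⟩ := euler_words p q h
  obtain ⟨L', h1, h2, h3⟩ := merge_words L
  have hr0 : (r : ℝ) ≠ 0 := by
    have : (0:ℝ) < r := by exact_mod_cast hr
    exact this.ne'
  have : Nonempty (Fin r) := ⟨⟨0, hr⟩⟩
  have e1 : avg (fun j : T → N => ∏ e, G (j (p e)) (j (q e)))
      = (L'.map (fun u => avg (fun j : T → N => wt (fun a b => G (j a) (j b)) u))).prod := by
    rw [← indep_words G L' h3]
    congr 1
    funext j
    have hs : ∀ a b : T, G (j a) (j b) = G (j b) (j a) := fun a b => (hG.1.apply _ _)
    rw [← h1 (fun a b => G (j a) (j b)) hs]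
    exact hL1 (fun a b => G (j a) (j b)) hs
  have e2 : avg (fun j : T → Fin r => ∏ e, ind (j (p e) = j (q e)))
      = (L'.map (fun u => avg (fun j : T → Fin r => wt (fun a b => ind (j a = j b)) u))).prod := by
    rw [← indep_words (fun a b : Fin r => ind (a = b)) L' h3]
    congr 1
    funext j
    have hs : ∀ a b : T, ind (j a = j b) = ind (j b = j a) := fun a b => by
      rw [show (j a = j b) = (j b = j a) from propext eq_comm]
    rw [← h1 (fun a b => ind (j a = j b)) hs]
    exact hL1 (fun a b => ind (j a = j b)) hs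
  have e3 : (L'.map (fun u => avg (fun j : T → Fin r => wt (fun a b => ind (j a = j b)) u)))
      = L'.map (fun u => (r : ℝ) * (1 / (r : ℝ)) ^ (suppW u).card) := by
    apply List.map_congr_left
    intro u _
    exact word_one r hr u
  have hcard : (L'.map (fun u => (suppW u).card)).sum
      = (Finset.univ.image p ∪ Finset.univ.image q).card := by
    apply wb_card L' h3
    intro w
    rw [h2 w, hL2 w]
    simp
  rw [e1, e2, e3, ← hcard, ← wb_prod L' (r : ℝ) (Fintype.card N : ℝ) hr0]
  exact wb_abs _ _ (fun u => word_bound r G hG u) L'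

end Pool.Agent.Helper190.SS
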