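import Pool.Agent.Helper190.SS.Defs
import Pool.Agent.Helper190.SS.P_avg_expand
import Pool.Agent.Helper190.SS.P_wbound
import Pool.Agent.Helper190.SS.P_compat_avg

set_option autoImplicit false

open scoped BigOperators Matrix.Norms.L2Operator
open Matrix

namespace Pool.Agent.Helper190.SS



theorem ind_and' {p q : Prop} : ind p * ind q = ind (p ∧ q) := by
  by_cases hp : p <;> by_cases hq : q <;> simp [ind, hp, hq]

theorem ind_congr' {p q : Prop} (h : p ↔ q) : ind p = ind q := by
  by_cases hp : p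
  · rw [ind_true hp, ind_true (h.1 hp)]
  · rw [ind_false hp, ind_false (fun hq => hp (h.2 hq))]

theorem ind_nonneg' (p : Prop) : 0 ≤ ind p := by
  by_cases hp : p
  · rw [ind_true hp]; norm_num
  · rw [ind_false hp]

/-- combine two walks -/
def mkS {M : ℕ} {T : Type*} (x y : Fin M → T) : Fin M × Bool → T :=
  fun u => if u.2 then y u.1 else x u.1

theorem mkS_false {M : ℕ} {T : Type*} (x y : Fin M → T) (s : Fin M) : mkS x y (s, false) = x s := rfl
theorem mkS_true {M : ℕ} {T : Type*} (x y : Fin M → T) (s : Fin M) : mkS x y (s, true) = y s := rfl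

/-- the equivalence between pairs of walks and combined walks -/
def eqS (M : ℕ) (T : Type*) : (Fin M → T) × (Fin M → T) ≃ (Fin M × Bool → T) where
  toFun p := mkS p.1 p.2
  invFun σ := (fun s => σ (s, false), fun s => σ (s, true))
  left_inv p := rfl
  right_inv σ := by
    funext u
    obtain ⟨s, b⟩ := u
    cases b <;> rfl

theorem evenFib_mkS {M : ℕ} {T : Type*} [DecidableEq T] (x y : Fin M → T) :
    EvenFib (mkS x y) ↔ EvenDeg x y := by
  have h : ∀ l : T, (Finset.univ.filter (fun u => mkS x y u = l)).card =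
      (Finset.univ.filter (fun e => x e = l)).card + (Finset.univ.filter (fun e => y e = l)).card := by
    intro l
    rw [Finset.card_filter, Finset.card_filter, Finset.card_filter, Fintype.sum_prod_type,
      ← Finset.sum_add_distrib]
    refine Finset.sum_congr rfl fun s _ => ?_
    rw [Fintype.sum_bool, mkS_false, mkS_true, add_comm]
  unfold EvenFib EvenDeg
  simp only [h]

theorem im_mkS {M : ℕ} {T : Type*} [DecidableEq T] (x y : Fin M → T) :
    im (mkS x y) = (Finset.univ.image x ∪ Finset.univ.image y).card := by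
  unfold im
  congr 1
  ext l
  rw [Finset.mem_union, Finset.mem_image, Finset.mem_image, Finset.mem_image]
  constructor
  · rintro ⟨⟨s, b⟩, -, rfl⟩
    cases b
    · exact Or.inl ⟨s, Finset.mem_univ _, rfl⟩
    · exact Or.inr ⟨s, Finset.mem_univ _, rfl⟩
  · rintro (⟨s, -, rfl⟩ | ⟨s, -, rfl⟩)
    · exact ⟨(s, false), Finset.mem_univ _, rfl⟩
    · exact ⟨(s, true), Finset.mem_univ _, rfl⟩

theorem image_shift {M : ℕ} [NeZero M] {T : Type*} [DecidableEq T] (x : Fin M → T) :
    Finset.univ.image (fun s => x (s + 1)) = Finset.univ.image x := by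
  ext l
  rw [Finset.mem_image, Finset.mem_image]
  constructor
  · rintro ⟨s, -, h⟩
    exact ⟨s + 1, Finset.mem_univ _, h⟩
  · rintro ⟨s, -, h⟩
    exact ⟨s - 1, Finset.mem_univ _, by rw [sub_add_cancel]; exact h⟩

theorem evenDeg_shift {M : ℕ} [NeZero M] {T : Type*} [DecidableEq T] (x y : Fin M → T)
    (h : EvenDeg x y) : EvenDeg y (fun s => x (s + 1)) := by
  intro w
  have h1 : (Finset.univ.filter (fun e => x (e + 1) = w)).card =
      (Finset.univ.filter (fun e => x e = w)).card := by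
    rw [Finset.card_filter, Finset.card_filter]
    exact Equiv.sum_comp (Equiv.addRight (1 : Fin M)) (fun e => if x e = w then 1 else 0)
  rw [h1, add_comm]
  exact h w

theorem cond_iff {M r : ℕ} [NeZero M] {T : Type*} (x y : Fin M → T) (t j : Fin M → Fin r) :
    ((∀ s s', (x s = x s' → t s = t s') ∧ (x s = y s' → t s = t s') ∧ (y s = y s' → t s = t s')) ∧
      (∀ s s', (y s = y s' → j s = j s') ∧ (y s = x (s' + 1) → j s = j s') ∧
        (x (s + 1) = x (s' + 1) → j s = j s'))) ↔
    ∀ u u', mkS x y u = mkS x y u' → lab t j u = lab t j u' := by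
  have hl0 : ∀ s, lab t j (s, false) = (t s, j (s - 1)) := fun s => rfl
  have hl1 : ∀ s, lab t j (s, true) = (t s, j s) := fun s => rfl
  constructor
  · rintro ⟨h1, h2⟩ ⟨s, b⟩ ⟨s', b'⟩ h
    cases b <;> cases b'
    · rw [mkS_false, mkS_false] at h
      rw [hl0, hl0, (h1 s s').1 h]
      have h3 := (h2 (s - 1) (s' - 1)).2.2
      rw [sub_add_cancel, sub_add_cancel] at h3
      rw [h3 h]
    · rw [mkS_false, mkS_true] at h
      rw [hl0, hl1, (h1 s s').2.1 h]
      have h3 := (h2 s' (s - 1)).2.1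
      rw [sub_add_cancel] at h3
      rw [h3 h.symm]
    · rw [mkS_false, mkS_true] at h
      rw [hl0, hl1, ← (h1 s' s).2.1 h.symm]
      have h3 := (h2 s (s' - 1)).2.1
      rw [sub_add_cancel] at h3
      rw [h3 h]
    · rw [mkS_true, mkS_true] at h
      rw [hl1, hl1, (h1 s s').2.2 h, (h2 s s').1 h]
  · intro h
    refine ⟨fun s s' => ⟨fun e => ?_, fun e => ?_, fun e => ?_⟩,
      fun s s' => ⟨fun e => ?_, fun e => ?_, fun e => ?_⟩⟩
    · exact congrArg Prod.fst (h (s, false) (s', false) e)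
    · exact congrArg Prod.fst (h (s, false) (s', true) e)
    · exact congrArg Prod.fst (h (s, true) (s', true) e)
    · exact congrArg Prod.snd (h (s, true) (s', true) e)
    · have h3 := congrArg Prod.snd (h (s, true) (s' + 1, false) e)
      rw [hl1, hl0] at h3
      simp only [add_sub_cancel_right] at h3
      exact h3
    · have h3 := congrArg Prod.snd (h (s + 1, false) (s' + 1, false) e)
      rw [hl0, hl0] at h3
      simp only [add_sub_cancel_right] at h3
      exact h3

theorem regroup {T K N : Type*} [Fintype T] [DecidableEq T] [Fintype K] [DecidableEq K]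
    [Fintype N] [DecidableEq N] [Nonempty K] [Nonempty N] (M : ℕ) [NeZero M] (c : ℝ)
    (r : ℕ) (hr : 1 ≤ r) (G : Matrix N N ℝ) (H : Matrix K K ℝ) (hG : Good r G) (hH : Good r H) :
    avg (fun θ : T → (K × N) × Bool =>
        Matrix.trace ((G * (Xmat c θ)ᵀ * H * Xmat c θ) ^ M)) ≤
      c ^ (2 * M) * ∑ t : Fin M → Fin r, ∑ j : Fin M → Fin r, ∑ σ : Fin M × Bool → T,
        ind (EvenFib σ ∧ ∀ u u', σ u = σ u' → lab t j u = lab t j u') *
          (1 / ((Fintype.card K : ℝ) * Fintype.card N)) ^ (im σ) := by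
  have hc0 : 0 ≤ c ^ (2 * M) := (even_two_mul M).pow_nonneg c
  have hr0 : (0 : ℝ) < r := by exact_mod_cast hr
  have hK0 : (0 : ℝ) < Fintype.card K := by exact_mod_cast Fintype.card_pos
  have hN0 : (0 : ℝ) < Fintype.card N := by exact_mod_cast Fintype.card_pos
  rw [avg_expand]
  have hre : ∀ F : (Fin M → Fin r) → (Fin M → Fin r) → (Fin M × Bool → T) → ℝ,
      ∑ t : Fin M → Fin r, ∑ j : Fin M → Fin r, ∑ σ : Fin M × Bool → T, F t j σ =
        ∑ x : Fin M → T, ∑ y : Fin M → T, ∑ t : Fin M → Fin r, ∑ j : Fin M → Fin r,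
          F t j (mkS x y) := by
    intro F
    have h1 : ∀ f : (Fin M × Bool → T) → ℝ, ∑ σ, f σ =
        ∑ x : Fin M → T, ∑ y : Fin M → T, f (mkS x y) := by
      intro f
      rw [← Equiv.sum_comp (eqS M T) f, Fintype.sum_prod_type]
      rfl
    calc ∑ t : Fin M → Fin r, ∑ j : Fin M → Fin r, ∑ σ : Fin M × Bool → T, F t j σ
        = ∑ t : Fin M → Fin r, ∑ σ : Fin M × Bool → T, ∑ j : Fin M → Fin r, F t j σ :=
          Finset.sum_congr rfl fun t _ => Finset.sum_comm
      _ = ∑ σ : Fin M × Bool → T, ∑ t : Fin M → Fin r, ∑ j : Fin M → Fin r, F t j σ :=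
          Finset.sum_comm
      _ = _ := h1 _
  rw [hre, Finset.mul_sum]
  refine Finset.sum_le_sum fun x _ => ?_
  rw [Finset.mul_sum]
  refine Finset.sum_le_sum fun y _ => ?_
  by_cases hE : EvenDeg x y
  · rw [ind_true hE, mul_one, mul_assoc]
    refine mul_le_mul_of_nonneg_left ?_ hc0
    have b1 := wbound r hr H hH x y hE
    rw [compat_avg r hr x y] at b1
    have b2 := wbound r hr G hG y (fun s => x (s + 1)) (evenDeg_shift x y hE)
    rw [compat_avg r hr y (fun s => x (s + 1)), image_shift,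
      Finset.union_comm (Finset.univ.image y) (Finset.univ.image x)] at b2
    rw [← im_mkS x y] at b1 b2
    obtain ⟨v, hv⟩ : ∃ v, v = im (mkS x y) := ⟨_, rfl⟩
    rw [← hv] at b1 b2 ⊢
    have e1 : ∑ t : Fin M → Fin r, ∑ j : Fin M → Fin r,
        ind (EvenFib (mkS x y) ∧ ∀ u u', mkS x y u = mkS x y u' → lab t j u = lab t j u') *
          (1 / ((Fintype.card K : ℝ) * Fintype.card N)) ^ v =
        (1 / ((Fintype.card K : ℝ) * Fintype.card N)) ^ v *
        ((∑ t : Fin M → Fin r, ind (∀ s s', (x s = x s' → t s = t s') ∧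
          (x s = y s' → t s = t s') ∧ (y s = y s' → t s = t s'))) *
        (∑ j : Fin M → Fin r, ind (∀ s s', (y s = y s' → j s = j s') ∧
          (y s = x (s' + 1) → j s = j s') ∧ (x (s + 1) = x (s' + 1) → j s = j s')))) := by
      rw [Finset.sum_mul_sum, Finset.mul_sum]
      refine Finset.sum_congr rfl fun t _ => ?_
      rw [Finset.mul_sum]
      refine Finset.sum_congr rfl fun j _ => ?_
      rw [mul_comm, ind_and']
      congr 1
      apply ind_congr'
      rw [cond_iff]
      exact ⟨fun h => h.2, fun h => ⟨(evenFib_mkS x y).2 hE, h⟩⟩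
    rw [e1]
    obtain ⟨a1, ha1⟩ : ∃ a1, a1 = ∑ t : Fin M → Fin r, ind (∀ s s', (x s = x s' → t s = t s') ∧
          (x s = y s' → t s = t s') ∧ (y s = y s' → t s = t s')) := ⟨_, rfl⟩
    obtain ⟨a2, ha2⟩ : ∃ a2, a2 = ∑ j : Fin M → Fin r, ind (∀ s s', (y s = y s' → j s = j s') ∧
          (y s = x (s' + 1) → j s = j s') ∧ (x (s + 1) = x (s' + 1) → j s = j s')) := ⟨_, rfl⟩
    rw [← ha1] at b1 ⊢
    rw [← ha2] at b2 ⊢
    have ha10 : 0 ≤ a1 := by rw [ha1]; exact Finset.sum_nonneg fun _ _ => ind_nonneg' _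
    have e2 : (1 / ((Fintype.card K : ℝ) * Fintype.card N)) ^ v * (a1 * a2) =
        (((r : ℝ) / Fintype.card K) ^ v * ((1 / (r : ℝ)) ^ v * a1)) *
          (((r : ℝ) / Fintype.card N) ^ v * ((1 / (r : ℝ)) ^ v * a2)) := by
      have e3 : (1 / ((Fintype.card K : ℝ) * Fintype.card N)) =
          ((r : ℝ) / Fintype.card K) * (1 / (r : ℝ)) * (((r : ℝ) / Fintype.card N) * (1 / (r : ℝ))) := by
        field_simp
      rw [e3, mul_pow, mul_pow, mul_pow]
      ring
    rw [e2]
    refine (le_abs_self _).trans ?_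
    rw [abs_mul]
    refine mul_le_mul b1 b2 (abs_nonneg _) ?_
    positivity
  · rw [ind_false hE, mul_zero, zero_mul, zero_mul]
    apply mul_nonneg hc0
    refine Finset.sum_nonneg fun t _ => Finset.sum_nonneg fun j _ => ?_
    apply mul_nonneg (ind_nonneg' _)
    positivity

end Pool.Agent.Helper190.SS
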