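import Pool.Agent.Helper190.SS.Defs

set_option autoImplicit false

open scoped BigOperators Matrix.Norms.L2Operator
open Matrix

namespace Pool.Agent.Helper190.SS



theorem kerB_iff {M : ℕ} {R R' : Type*} [DecidableEq R] [DecidableEq R'] {t : Fin M → R}
    {t0 : Fin M → R'} (h : kerB t = kerB t0) (s s' : Fin M) : t s = t s' ↔ t0 s = t0 s' := by
  have := congrFun (congrFun h s) s'
  simpa [kerB] using this

theorem im_le_of_ker {M r : ℕ} (hr : 1 ≤ r) {t t0 : Fin M → Fin r} (h : kerB t = kerB t0) :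
    im t ≤ im t0 := by
  have : Nonempty (Fin r) := ⟨⟨0, hr⟩⟩
  have hf : Function.FactorsThrough t t0 := fun a b hab => (kerB_iff h a b).2 hab
  obtain ⟨e, he⟩ := (Function.factorsThrough_iff t).1 hf
  unfold im
  rw [he, ← Finset.image_image]
  exact Finset.card_image_le

theorem im_eq_of_ker {M r : ℕ} (hr : 1 ≤ r) {t t0 : Fin M → Fin r} (h : kerB t = kerB t0) :
    im t = im t0 := le_antisymm (im_le_of_ker hr h) (im_le_of_ker hr h.symm)

theorem card_up {M r : ℕ} (t0 : Fin M → Fin r) :
    (Finset.univ.filter (fun t : Fin M → Fin r => kerB t = kerB t0)).card ≤ r ^ im t0 := by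
  classical
  have hrep : ∀ y : ↥(Finset.univ.image t0), ∃ s, t0 s = y := by
    intro y
    have := y.2
    rw [Finset.mem_image] at this
    obtain ⟨s, -, hs⟩ := this
    exact ⟨s, hs⟩
  choose rep hrep using hrep
  have h1 : r ^ im t0 = (Finset.univ : Finset (↥(Finset.univ.image t0) → Fin r)).card := by
    rw [Finset.card_univ, Fintype.card_fun, Fintype.card_fin, Fintype.card_coe]; rfl
  rw [h1]
  refine Finset.card_le_card_of_injOn (fun t y => t (rep y)) (fun _ _ => Finset.mem_univ _) ?_
  intro t ht t' ht' htt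
  have ht2 : kerB t = kerB t0 := by simpa using ht
  have ht2' : kerB t' = kerB t0 := by simpa using ht'
  funext s
  have hm : t0 s ∈ Finset.univ.image t0 := Finset.mem_image_of_mem _ (Finset.mem_univ _)
  have e1 : t0 (rep ⟨t0 s, hm⟩) = t0 s := hrep _
  have e2 : t (rep ⟨t0 s, hm⟩) = t' (rep ⟨t0 s, hm⟩) := congrFun htt ⟨t0 s, hm⟩
  rw [← (kerB_iff ht2 _ _).2 e1, ← (kerB_iff ht2' _ _).2 e1, e2]

theorem card_low {M r : ℕ} (D : ℕ) (t0 : Fin M → Fin r) (hD : 2 * M ≤ D) :
    M ^ im t0 ≤ (Finset.univ.filter (fun t : Fin M → Fin D => kerB t = kerB t0)).card := by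
  classical
  have hv : im t0 ≤ M := by
    unfold im
    exact Finset.card_image_le.trans (by simp)
  have h0 : M ^ im t0 ≤ D.descFactorial (im t0) :=
    (Nat.pow_le_pow_left (by omega) _).trans (Nat.pow_sub_le_descFactorial D (im t0))
  refine h0.trans ?_
  have h1 : D.descFactorial (im t0) =
      (Finset.univ : Finset (↥(Finset.univ.image t0) ↪ Fin D)).card := by
    rw [Finset.card_univ, Fintype.card_embedding_eq, Fintype.card_fin, Fintype.card_coe]; rfl
  rw [h1]
  refine Finset.card_le_card_of_injOn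
    (fun e s => e ⟨t0 s, Finset.mem_image_of_mem _ (Finset.mem_univ _)⟩) ?_ ?_
  · intro e _
    simp only [Finset.coe_filter, Finset.mem_univ, true_and]
    show kerB _ = kerB _
    funext s s'
    simp [kerB]
  · intro e _ e' _ hee
    ext ⟨y, hy⟩
    obtain ⟨s, -, hs⟩ := Finset.mem_image.1 hy
    subst hs
    have := congrFun hee s
    exact congrArg Fin.val this

theorem kernel_compare {M : ℕ} (r D : ℕ) (hr : 1 ≤ r) (hD : 2 * M ≤ D)
    (f : (Fin M → Fin M → Bool) → ℝ) (hf : ∀ k, 0 ≤ f k) :
    ∑ t : Fin M → Fin r, f (kerB t) * ((M : ℝ) / r) ^ (im t) ≤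
      ∑ t : Fin M → Fin D, f (kerB t) := by
  classical
  rw [← Finset.sum_fiberwise (s := (Finset.univ : Finset (Fin M → Fin r))) (g := fun t => kerB t),
    ← Finset.sum_fiberwise (s := (Finset.univ : Finset (Fin M → Fin D))) (g := fun t => kerB t)]
  refine Finset.sum_le_sum fun k _ => ?_
  have hR : ∑ t ∈ Finset.univ.filter (fun t : Fin M → Fin D => kerB t = k), f (kerB t) =
      (Finset.univ.filter (fun t : Fin M → Fin D => kerB t = k)).card * f k := by
    rw [Finset.sum_congr rfl (g := fun _ => f k)]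
    · rw [Finset.sum_const, nsmul_eq_mul]
    · intro t ht
      rw [(Finset.mem_filter.1 ht).2]
  rw [hR]
  by_cases hex : ∃ t0 : Fin M → Fin r, kerB t0 = k
  · obtain ⟨t0, rfl⟩ := hex
    have hL : ∑ t ∈ Finset.univ.filter (fun t : Fin M → Fin r => kerB t = kerB t0),
        f (kerB t) * ((M : ℝ) / r) ^ (im t) =
        (Finset.univ.filter (fun t : Fin M → Fin r => kerB t = kerB t0)).card *
          (f (kerB t0) * ((M : ℝ) / r) ^ (im t0)) := by
      rw [Finset.sum_congr rfl (g := fun _ => f (kerB t0) * ((M : ℝ) / r) ^ (im t0))]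
      · rw [Finset.sum_const, nsmul_eq_mul]
      · intro t ht
        rw [(Finset.mem_filter.1 ht).2, im_eq_of_ker hr (Finset.mem_filter.1 ht).2]
    rw [hL]
    have hr0 : (0 : ℝ) < r := by exact_mod_cast hr
    have h1 : ((Finset.univ.filter (fun t : Fin M → Fin r => kerB t = kerB t0)).card : ℝ) ≤
        (r : ℝ) ^ im t0 := by exact_mod_cast card_up t0
    have h2 : (M : ℝ) ^ im t0 ≤
        ((Finset.univ.filter (fun t : Fin M → Fin D => kerB t = kerB t0)).card : ℝ) := by
      exact_mod_cast card_low D t0 hD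
    calc _ ≤ (r : ℝ) ^ im t0 * (f (kerB t0) * ((M : ℝ) / r) ^ (im t0)) := by
            refine mul_le_mul_of_nonneg_right h1 ?_
            have := hf (kerB t0)
            positivity
      _ = (M : ℝ) ^ im t0 * f (kerB t0) := by
            rw [div_pow]; field_simp
      _ ≤ _ := mul_le_mul_of_nonneg_right h2 (hf _)
  · have : Finset.univ.filter (fun t : Fin M → Fin r => kerB t = k) = ∅ := by
      rw [Finset.filter_eq_empty_iff]
      intro t _ ht
      exact hex ⟨t, ht⟩
    rw [this, Finset.sum_empty]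
    have := hf k
    positivity

end Pool.Agent.Helper190.SS
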