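import Pool.Agent.Helper190.SS.Defs

set_option autoImplicit false

open scoped BigOperators Matrix.Norms.L2Operator
open Matrix

namespace Pool.Agent.Helper190.SS



theorem wc_aux {R S : Type*} [DecidableEq R] [DecidableEq S] (w : ℕ → R × S)
    (h : ∀ n, (w n).1 = (w (n + 1)).1 ∨ (w n).2 = (w (n + 1)).2) (n : ℕ) :
    ((Finset.range (n + 1)).image (fun i => (w i).1)).card +
      ((Finset.range (n + 1)).image (fun i => (w i).2)).card ≤
      ((Finset.range (n + 1)).image w).card + 1 := by
  induction n with
  | zero => simp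
  | succ n ih =>
    have m1 : (w n).1 ∈ (Finset.range (n + 1)).image (fun i => (w i).1) :=
      Finset.mem_image.2 ⟨n, Finset.mem_range.2 (Nat.lt_succ_self n), rfl⟩
    have m2 : (w n).2 ∈ (Finset.range (n + 1)).image (fun i => (w i).2) :=
      Finset.mem_image.2 ⟨n, Finset.mem_range.2 (Nat.lt_succ_self n), rfl⟩
    rw [Finset.range_add_one, Finset.image_insert, Finset.image_insert, Finset.image_insert]
    by_cases hm : w (n + 1) ∈ (Finset.range (n + 1)).image w
    · have h1 : (w (n + 1)).1 ∈ (Finset.range (n + 1)).image (fun i => (w i).1) := by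
        obtain ⟨i, hi, he⟩ := Finset.mem_image.1 hm
        exact Finset.mem_image.2 ⟨i, hi, by rw [he]⟩
      have h2 : (w (n + 1)).2 ∈ (Finset.range (n + 1)).image (fun i => (w i).2) := by
        obtain ⟨i, hi, he⟩ := Finset.mem_image.1 hm
        exact Finset.mem_image.2 ⟨i, hi, by rw [he]⟩
      rw [Finset.insert_eq_of_mem hm, Finset.insert_eq_of_mem h1, Finset.insert_eq_of_mem h2]
      exact ih
    · rw [Finset.card_insert_of_notMem hm]
      rcases h n with h0 | h0
      · rw [h0] at m1
        rw [Finset.insert_eq_of_mem m1]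
        have := Finset.card_insert_le (w (n + 1)).2
          ((Finset.range (n + 1)).image (fun i => (w i).2))
        omega
      · rw [h0] at m2
        rw [Finset.insert_eq_of_mem m2]
        have := Finset.card_insert_le (w (n + 1)).1
          ((Finset.range (n + 1)).image (fun i => (w i).1))
        omega

theorem walk_connected {M : ℕ} [NeZero M] {R S : Type*} [DecidableEq R] [DecidableEq S]
    (t : Fin M → R) (j : Fin M → S) : im t + im j ≤ im (lab t j) + 1 := by
  have hM : 0 < M := Nat.pos_of_ne_zero (NeZero.ne M)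
  let w : ℕ → R × S := fun n => (t (Fin.ofNat M ((n + 1) / 2)), j (Fin.ofNat M (n / 2)))
  have hw : ∀ n, (w n).1 = (w (n + 1)).1 ∨ (w n).2 = (w (n + 1)).2 := by
    intro n
    rcases Nat.even_or_odd n with hn | hn
    · right
      change j (Fin.ofNat M (n / 2)) = j (Fin.ofNat M ((n + 1) / 2))
      obtain ⟨k, hk⟩ := hn
      have : n / 2 = (n + 1) / 2 := by omega
      rw [this]
    · left
      change t (Fin.ofNat M ((n + 1) / 2)) = t (Fin.ofNat M ((n + 1 + 1) / 2))
      obtain ⟨k, hk⟩ := hn
      have : (n + 1) / 2 = (n + 1 + 1) / 2 := by omega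
      rw [this]
  have hs : ∀ s : Fin M, Fin.ofNat M (s : ℕ) = s := by
    intro s
    apply Fin.ext
    change (s : ℕ) % M = s
    exact Nat.mod_eq_of_lt s.2
  have hlab : ∀ n, w n ∈ Finset.univ.image (lab t j) := by
    intro n
    rcases Nat.even_or_odd n with hn | hn
    · obtain ⟨k, hk⟩ := hn
      refine Finset.mem_image.2 ⟨(Fin.ofNat M k, true), Finset.mem_univ _, ?_⟩
      change (t (Fin.ofNat M k), j (Fin.ofNat M k)) =
        (t (Fin.ofNat M ((n + 1) / 2)), j (Fin.ofNat M (n / 2)))
      have e1 : (n + 1) / 2 = k := by omega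
      have e2 : n / 2 = k := by omega
      rw [e1, e2]
    · obtain ⟨k, hk⟩ := hn
      refine Finset.mem_image.2 ⟨(Fin.ofNat M (k + 1), false), Finset.mem_univ _, ?_⟩
      change (t (Fin.ofNat M (k + 1)), j (Fin.ofNat M (k + 1) - 1)) =
        (t (Fin.ofNat M ((n + 1) / 2)), j (Fin.ofNat M (n / 2)))
      have e1 : (n + 1) / 2 = k + 1 := by omega
      have e2 : n / 2 = k := by omega
      have e3 : Fin.ofNat M (k + 1) = Fin.ofNat M k + 1 := by
        apply Fin.ext
        rw [Fin.val_add]
        change (k + 1) % M = (k % M + (1 : Fin M).val) % M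
        rw [Fin.val_one', Nat.add_mod]
      rw [e1, e2, e3, add_sub_cancel_right]
  have key := wc_aux w hw (2 * M)
  have k1 : im t ≤ ((Finset.range (2 * M + 1)).image (fun i => (w i).1)).card := by
    refine Finset.card_le_card ?_
    intro r hr
    obtain ⟨s, -, rfl⟩ := Finset.mem_image.1 hr
    refine Finset.mem_image.2 ⟨2 * s, Finset.mem_range.2 (by have := s.2; omega), ?_⟩
    change t (Fin.ofNat M ((2 * (s : ℕ) + 1) / 2)) = t s
    have : (2 * (s : ℕ) + 1) / 2 = s := by omega
    rw [this, hs]
  have k2 : im j ≤ ((Finset.range (2 * M + 1)).image (fun i => (w i).2)).card := by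
    refine Finset.card_le_card ?_
    intro r hr
    obtain ⟨s, -, rfl⟩ := Finset.mem_image.1 hr
    refine Finset.mem_image.2 ⟨2 * s, Finset.mem_range.2 (by have := s.2; omega), ?_⟩
    change j (Fin.ofNat M ((2 * (s : ℕ)) / 2)) = j s
    have : (2 * (s : ℕ)) / 2 = s := by omega
    rw [this, hs]
  have k3 : ((Finset.range (2 * M + 1)).image w).card ≤ im (lab t j) := by
    refine Finset.card_le_card ?_
    intro r hr
    obtain ⟨s, -, rfl⟩ := Finset.mem_image.1 hr
    exact hlab s
  omega

end Pool.Agent.Helper190.SS
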