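import Pool.Agent.Helper190.SS.Defs
import Pool.Agent.Helper190.SS.P_kernel_compare
import Pool.Agent.Helper190.SS.P_walk_connected

set_option autoImplicit false

open scoped BigOperators Matrix.Norms.L2Operator
open Matrix

namespace Pool.Agent.Helper190.SS



/-- index of the `j`-entry of a slot -/
def wcIdx {M : ℕ} [NeZero M] (u : Fin M × Bool) : Fin M := if u.2 then u.1 else u.1 - 1

/-- evenness in terms of the kernels -/
def wcE {M : ℕ} [NeZero M] (k l : Fin M → Fin M → Bool) : Prop :=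
  ∀ u : Fin M × Bool, Even (Finset.univ.filter (fun u' : Fin M × Bool =>
    k u.1 u'.1 = true ∧ l (wcIdx u) (wcIdx u') = true)).card

theorem wc_lab {M : ℕ} [NeZero M] {R S : Type*} (t : Fin M → R) (j : Fin M → S)
    (u : Fin M × Bool) : lab t j u = (t u.1, j (wcIdx u)) := by
  unfold lab wcIdx
  split_ifs <;> rfl

theorem wc_iff {M : ℕ} [NeZero M] {R S : Type*} [DecidableEq R] [DecidableEq S] (t : Fin M → R)
    (j : Fin M → S) : EvenFib (lab t j) ↔ wcE (kerB t) (kerB j) := by
  have key : ∀ u : Fin M × Bool,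
      Finset.univ.filter (fun u' : Fin M × Bool => lab t j u' = lab t j u) =
      Finset.univ.filter (fun u' : Fin M × Bool =>
        kerB t u.1 u'.1 = true ∧ kerB j (wcIdx u) (wcIdx u') = true) := by
    intro u
    ext u'
    simp only [Finset.mem_filter, Finset.mem_univ, true_and, wc_lab, Prod.mk.injEq, kerB,
      decide_eq_true_eq]
    constructor
    · rintro ⟨h1, h2⟩
      exact ⟨h1.symm, h2.symm⟩
    · rintro ⟨h1, h2⟩
      exact ⟨h1.symm, h2.symm⟩
  constructor
  · intro h u
    rw [← key u]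
    exact h _
  · intro h x
    by_cases hx : ∃ u, lab t j u = x
    · obtain ⟨u, rfl⟩ := hx
      rw [key u]
      exact h u
    · have : Finset.univ.filter (fun u' : Fin M × Bool => lab t j u' = x) = ∅ := by
        rw [Finset.filter_eq_empty_iff]
        intro u _ hu
        exact hx ⟨u, hu⟩
      rw [this]
      simp

theorem wc_nonneg (p : Prop) : 0 ≤ ind p := by
  by_cases h : p
  · rw [ind_true h]; norm_num
  · rw [ind_false h]

theorem walks_compare (M : ℕ) [NeZero M] (r : ℕ) (hr : 1 ≤ r) (b : ℝ) (hb1 : 1 ≤ b)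
    (hb : (r : ℝ) / M ≤ b) :
    ∑ t : Fin M → Fin r, ∑ j : Fin M → Fin r,
        (1 / b) ^ (im (lab t j)) * ind (EvenFib (lab t j)) ≤
      ((r : ℝ) / M) * ∑ t : Fin M → Fin (2 * M), ∑ j : Fin M → Fin (2 * M),
        ind (EvenFib (lab t j)) := by
  have hM : (0 : ℝ) < M := by
    have : 0 < M := Nat.pos_of_ne_zero (NeZero.ne M)
    exact_mod_cast this
  have hr0 : (0 : ℝ) < r := by exact_mod_cast hr
  have hb0 : 0 < b := by linarith
  have hx : 1 / b ≤ (M : ℝ) / r := by
    rw [div_le_div_iff₀ hb0 hr0]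
    rw [div_le_iff₀ hM] at hb
    linarith
  have hx1 : 1 / b ≤ 1 := by
    rw [div_le_one hb0]; exact hb1
  have hx0 : 0 < 1 / b := by positivity
  have him : ∀ t : Fin M → Fin r, 1 ≤ im t := by
    intro t
    unfold im
    rw [Nat.one_le_iff_ne_zero, ← Nat.pos_iff_ne_zero, Finset.card_pos]
    exact ⟨t 0, Finset.mem_image_of_mem _ (Finset.mem_univ _)⟩
  -- step 1
  have step1 : ∀ (t j : Fin M → Fin r), (1 / b) ^ (im (lab t j)) ≤
      ((r : ℝ) / M) * (((M : ℝ) / r) ^ (im t) * ((M : ℝ) / r) ^ (im j)) := by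
    intro t j
    have hw := walk_connected t j
    have ht := him t
    have hj := him j
    have e1 : (1 / b) ^ (im (lab t j)) ≤ (1 / b) ^ (im t + im j - 1) :=
      pow_le_pow_of_le_one hx0.le hx1 (by omega)
    have e2 : (1 / b) ^ (im t + im j - 1) ≤ ((M : ℝ) / r) ^ (im t + im j - 1) :=
      pow_le_pow_left₀ hx0.le hx _
    have e3 : ((r : ℝ) / M) * (((M : ℝ) / r) ^ (im t) * ((M : ℝ) / r) ^ (im j)) =
        ((M : ℝ) / r) ^ (im t + im j - 1) := by
      rw [← pow_add]
      obtain ⟨n, hn⟩ : ∃ n, im t + im j = n + 1 := ⟨im t + im j - 1, by omega⟩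
      rw [hn, Nat.add_sub_cancel, pow_succ]
      field_simp
    rw [e3]
    exact e1.trans e2
  have step2 : ∑ t : Fin M → Fin r, ∑ j : Fin M → Fin r,
        (1 / b) ^ (im (lab t j)) * ind (EvenFib (lab t j)) ≤
      ((r : ℝ) / M) * ∑ t : Fin M → Fin r, (∑ j : Fin M → Fin r,
        ind (wcE (kerB t) (kerB j)) * ((M : ℝ) / r) ^ (im j)) * ((M : ℝ) / r) ^ (im t) := by
    rw [Finset.mul_sum]
    apply Finset.sum_le_sum
    intro t _
    rw [Finset.sum_mul, Finset.mul_sum]
    apply Finset.sum_le_sum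
    intro j _
    have h1 := mul_le_mul_of_nonneg_right (step1 t j) (wc_nonneg (EvenFib (lab t j)))
    refine h1.trans (le_of_eq ?_)
    have h2 : ind (EvenFib (lab t j)) = ind (wcE (kerB t) (kerB j)) := by
      congr 1
      exact propext (wc_iff t j)
    rw [h2]
    ring
  have step3 : ∑ t : Fin M → Fin r, (∑ j : Fin M → Fin r,
        ind (wcE (kerB t) (kerB j)) * ((M : ℝ) / r) ^ (im j)) * ((M : ℝ) / r) ^ (im t) ≤
      ∑ t : Fin M → Fin r, (∑ j : Fin M → Fin (2 * M),
        ind (wcE (kerB t) (kerB j))) * ((M : ℝ) / r) ^ (im t) := by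
    apply Finset.sum_le_sum
    intro t _
    apply mul_le_mul_of_nonneg_right _ (by positivity)
    exact kernel_compare r (2 * M) hr le_rfl (fun k => ind (wcE (kerB t) k))
      (fun k => wc_nonneg _)
  have step4 : ∑ t : Fin M → Fin r, (∑ j : Fin M → Fin (2 * M),
        ind (wcE (kerB t) (kerB j))) * ((M : ℝ) / r) ^ (im t) ≤
      ∑ t : Fin M → Fin (2 * M), ∑ j : Fin M → Fin (2 * M), ind (wcE (kerB t) (kerB j)) :=
    kernel_compare r (2 * M) hr le_rfl
      (fun k => ∑ j : Fin M → Fin (2 * M), ind (wcE k (kerB j)))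
      (fun k => Finset.sum_nonneg (fun j _ => wc_nonneg _))
  have step5 : ∑ t : Fin M → Fin (2 * M), ∑ j : Fin M → Fin (2 * M),
      ind (wcE (kerB t) (kerB j)) =
      ∑ t : Fin M → Fin (2 * M), ∑ j : Fin M → Fin (2 * M), ind (EvenFib (lab t j)) := by
    apply Finset.sum_congr rfl
    intro t _
    apply Finset.sum_congr rfl
    intro j _
    congr 1
    exact propext (wc_iff t j).symm
  rw [← step5]
  exact step2.trans (mul_le_mul_of_nonneg_left (step3.trans step4) (by positivity))

end Pool.Agent.Helper190.SS
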