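import Pool.Agent.Helper190.SS.Defs
import Pool.Agent.Helper190.SS.P_trace_pow_expand

set_option autoImplicit false

open scoped BigOperators Matrix.Norms.L2Operator
open Matrix

namespace Pool.Agent.Helper190.SS



theorem rademacher_expand_prod {F L : Type} [Fintype F] [Fintype L] [DecidableEq L] (σ : F → L)
    (r : L → Bool) : ∏ u, sgn (r (σ u)) =
      ∏ l : L, sgn (r l) ^ (Finset.univ.filter (fun u => σ u = l)).card := by
  rw [← Finset.prod_fiberwise Finset.univ σ (fun u => sgn (r (σ u)))]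
  refine Finset.prod_congr rfl fun l _ => ?_
  rw [← Finset.prod_const]
  refine Finset.prod_congr rfl fun u hu => ?_
  rw [Finset.mem_filter] at hu
  rw [hu.2]

theorem rademacher_expand_sum {F L : Type} [Fintype F] [Fintype L] [DecidableEq L] (σ : F → L) :
    ∑ r : L → Bool, ∏ u, sgn (r (σ u)) = (2 : ℝ) ^ (Fintype.card L) * ind (EvenFib σ) := by
  classical
  have h1 : ∑ r : L → Bool, ∏ u, sgn (r (σ u)) =
      ∏ l : L, ∑ b : Bool, sgn b ^ (Finset.univ.filter (fun u => σ u = l)).card := by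
    rw [Finset.prod_univ_sum, Fintype.piFinset_univ]
    exact Finset.sum_congr rfl fun r _ => rademacher_expand_prod σ r
  rw [h1]
  have h2 : ∀ l : L, ∑ b : Bool, sgn b ^ (Finset.univ.filter (fun u => σ u = l)).card =
      if Even (Finset.univ.filter (fun u => σ u = l)).card then 2 else 0 := by
    intro l
    have ht : sgn true = 1 := by simp [sgn]
    have hf : sgn false = -1 := by simp [sgn]
    rw [Fintype.sum_bool, ht, hf]
    generalize (Finset.univ.filter (fun u => σ u = l)).card = m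
    by_cases h : Even m
    · rw [if_pos h, h.neg_one_pow, one_pow]
      norm_num
    · rw [if_neg h, (Nat.not_even_iff_odd.1 h).neg_one_pow, one_pow]
      norm_num
  simp_rw [h2]
  by_cases hE : EvenFib σ
  · rw [ind_true hE, mul_one]
    have h3 : ∀ l ∈ (Finset.univ : Finset L),
        (if Even (Finset.univ.filter (fun u => σ u = l)).card then (2:ℝ) else 0) = 2 :=
      fun l _ => if_pos (hE l)
    rw [Finset.prod_congr rfl h3, Finset.prod_const, Finset.card_univ]
  · rw [ind_false hE, mul_zero]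
    unfold EvenFib at hE
    push Not at hE
    obtain ⟨l, hl⟩ := hE
    exact Finset.prod_eq_zero (Finset.mem_univ l) (if_neg hl)

theorem rademacher_expand_avg {F : Type} [Fintype F] (D : ℕ) (σ : F → Fin D × Fin D) :
    ∑ R : Fin D → Fin D → Bool, ∏ u, sgn (R (σ u).1 (σ u).2) =
      (Fintype.card (Fin D → Fin D → Bool) : ℝ) * ind (EvenFib σ) := by
  rw [← Equiv.sum_comp (Equiv.curry (Fin D) (Fin D) Bool)]
  have h1 : ∀ r : Fin D × Fin D → Bool,
      ∏ u, sgn ((Equiv.curry (Fin D) (Fin D) Bool) r (σ u).1 (σ u).2) = ∏ u, sgn (r (σ u)) :=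
    fun r => rfl
  simp_rw [h1]
  rw [rademacher_expand_sum]
  congr 1
  rw [← Fintype.card_congr (Equiv.curry (Fin D) (Fin D) Bool)]
  simp

theorem rademacher_expand_trace (M : ℕ) [NeZero M] (D : ℕ) (R : Fin D → Fin D → Bool) :
    Matrix.trace (((Rmat R)ᵀ * Rmat R) ^ M) =
      ∑ t : Fin M → Fin D, ∑ j : Fin M → Fin D,
        ∏ u : Fin M × Bool, sgn (R (lab t j u).1 (lab t j u).2) := by
  rw [trace_pow_expand]
  have h1 : ∀ i : Fin M → Fin D, ∏ s : Fin M, ((Rmat R)ᵀ * Rmat R) (i s) (i (s + 1)) =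
      ∑ t : Fin M → Fin D, ∏ s : Fin M, (sgn (R (t s) (i s)) * sgn (R (t s) (i (s + 1)))) := by
    intro i
    simp only [Matrix.mul_apply, Matrix.transpose_apply, Rmat]
    rw [Finset.prod_univ_sum, Fintype.piFinset_univ]
  simp_rw [h1]
  rw [Finset.sum_comm]
  refine Finset.sum_congr rfl fun t _ => ?_
  rw [← Equiv.sum_comp ((Equiv.addRight (1 : Fin M)).arrowCongr (Equiv.refl (Fin D)))]
  refine Finset.sum_congr rfl fun j _ => ?_
  rw [Fintype.prod_prod_type]
  refine Finset.prod_congr rfl fun s _ => ?_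
  rw [Fintype.prod_bool]
  have h2 : ∀ s, ((Equiv.addRight (1 : Fin M)).arrowCongr (Equiv.refl (Fin D))) j s = j (s - 1) := by
    intro s
    change j ((Equiv.addRight (1 : Fin M)).symm s) = j (s - 1)
    congr 1
    rw [Equiv.symm_apply_eq]
    exact (sub_add_cancel s 1).symm
  rw [h2, h2, add_sub_cancel_right, mul_comm]
  rfl

theorem rademacher_expand (M : ℕ) [NeZero M] (D : ℕ) :
    avg (fun R : Fin D → Fin D → Bool => Matrix.trace (((Rmat R)ᵀ * Rmat R) ^ M)) =
      ∑ t : Fin M → Fin D, ∑ j : Fin M → Fin D, ind (EvenFib (lab t j)) := by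
  unfold avg
  simp_rw [rademacher_expand_trace]
  rw [Finset.sum_comm, Finset.sum_div]
  refine Finset.sum_congr rfl fun t _ => ?_
  rw [Finset.sum_comm, Finset.sum_div]
  refine Finset.sum_congr rfl fun j _ => ?_
  rw [rademacher_expand_avg, mul_div_cancel_left₀]
  exact_mod_cast Fintype.card_ne_zero

end Pool.Agent.Helper190.SS
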