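import Pool.Agent.Helper190.SS.Defs

set_option autoImplicit false

open scoped BigOperators Matrix.Norms.L2Operator
open Matrix

namespace Pool.Agent.Helper190.SS



theorem kh_pow_le_cosh (x : ℝ) (M : ℕ) : x ^ (2 * M) ≤ ((2 * M).factorial : ℝ) * Real.cosh x := by
  have h1 := Real.hasSum_cosh x
  have h2 : x ^ (2 * M) / ((2 * M).factorial : ℝ) ≤ Real.cosh x :=
    le_hasSum h1 M (fun n _ => by
      have : 0 ≤ x ^ (2 * n) := by
        rw [pow_mul]
        positivity
      positivity)
  have h3 : (0:ℝ) < ((2 * M).factorial : ℝ) := by positivity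
  rw [div_le_iff₀ h3] at h2
  linarith

theorem kh_avg_exp {F : Type*} [Fintype F] [DecidableEq F] (a : F → ℝ) :
    avg (fun e : F → Bool => Real.exp (∑ u, a u * sgn (e u))) = ∏ u, Real.cosh (a u) := by
  unfold avg
  have h1 : ∑ e : F → Bool, Real.exp (∑ u, a u * sgn (e u)) =
      ∏ u, ∑ b : Bool, Real.exp (a u * sgn b) := by
    rw [Finset.prod_univ_sum, Fintype.piFinset_univ]
    refine Finset.sum_congr rfl fun e _ => ?_
    rw [Real.exp_sum]
  have h2 : (Fintype.card (F → Bool) : ℝ) = ∏ _u : F, (2:ℝ) := by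
    simp
  rw [h1, h2, ← Finset.prod_div_distrib]
  refine Finset.prod_congr rfl fun u _ => ?_
  rw [Real.cosh_eq]
  simp [sgn]

theorem kh_avg_cosh {F : Type*} [Fintype F] [DecidableEq F] (a : F → ℝ) :
    avg (fun e : F → Bool => Real.cosh (∑ u, a u * sgn (e u))) ≤ Real.exp ((∑ u, a u ^ 2) / 2) := by
  have h1 : avg (fun e : F → Bool => Real.cosh (∑ u, a u * sgn (e u))) =
      (avg (fun e : F → Bool => Real.exp (∑ u, a u * sgn (e u)))
        + avg (fun e : F → Bool => Real.exp (∑ u, (-a u) * sgn (e u)))) / 2 := by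
    have h0 : ∑ e : F → Bool, Real.cosh (∑ u, a u * sgn (e u)) =
        (∑ e : F → Bool, Real.exp (∑ u, a u * sgn (e u))
          + ∑ e : F → Bool, Real.exp (∑ u, (-a u) * sgn (e u))) / 2 := by
      rw [← Finset.sum_add_distrib, Finset.sum_div]
      refine Finset.sum_congr rfl fun e _ => ?_
      rw [Real.cosh_eq]
      simp only [neg_mul, Finset.sum_neg_distrib]
    unfold avg
    rw [h0]
    ring
  have h2 : ∏ u, Real.cosh (a u) ≤ Real.exp ((∑ u, a u ^ 2) / 2) := by
    rw [Finset.sum_div, Real.exp_sum]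
    exact Finset.prod_le_prod (fun u _ => (Real.cosh_pos _).le) (fun u _ => Real.cosh_le_exp_half_sq _)
  rw [h1, kh_avg_exp, kh_avg_exp]
  simp only [Real.cosh_neg]
  linarith

theorem khintchine {F : Type*} [Fintype F] [DecidableEq F] (a : F → ℝ) (M : ℕ) (hM : 1 ≤ M) :
    avg (fun e : F → Bool => (∑ u, a u * sgn (e u)) ^ (2 * M)) ≤ (6 * M : ℝ) ^ M * (∑ u, a u ^ 2) ^ M := by
  set s := ∑ u, a u ^ 2 with hs
  have hs0 : 0 ≤ s := Finset.sum_nonneg fun u _ => sq_nonneg _
  rcases hs0.eq_or_lt with h0 | hpos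
  · have ha : ∀ u, a u = 0 := by
      intro u
      have h1 := (Finset.sum_eq_zero_iff_of_nonneg (fun u _ => sq_nonneg (a u))).1 h0.symm u
        (Finset.mem_univ u)
      exact pow_eq_zero_iff (two_ne_zero) |>.1 h1
    have h2 : avg (fun e : F → Bool => (∑ u, a u * sgn (e u)) ^ (2 * M)) = 0 := by
      unfold avg
      simp only [ha, zero_mul, Finset.sum_const_zero]
      rw [zero_pow (by omega)]
      simp
    rw [h2]
    positivity
  · have hMpos : (0:ℝ) < M := by
      have : 0 < M := by omega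
      exact_mod_cast this
    set θ : ℝ := √(2 * M / s) with hθ
    have hθ2 : θ ^ 2 = 2 * M / s := Real.sq_sqrt (by positivity)
    have hcard : (0:ℝ) < (Fintype.card (F → Bool) : ℝ) := by
      have : 0 < Fintype.card (F → Bool) := Fintype.card_pos
      exact_mod_cast this
    have h1 : θ ^ (2 * M) * avg (fun e : F → Bool => (∑ u, a u * sgn (e u)) ^ (2 * M)) ≤
        ((2 * M).factorial : ℝ) *
          avg (fun e : F → Bool => Real.cosh (∑ u, (θ * a u) * sgn (e u))) := by
      unfold avg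
      rw [← mul_div_assoc, ← mul_div_assoc]
      refine div_le_div_of_nonneg_right ?_ hcard.le
      rw [Finset.mul_sum, Finset.mul_sum]
      refine Finset.sum_le_sum fun e _ => ?_
      have h2 := kh_pow_le_cosh (θ * ∑ u, a u * sgn (e u)) M
      rw [mul_pow] at h2
      have h3 : θ * ∑ u, a u * sgn (e u) = ∑ u, (θ * a u) * sgn (e u) := by
        rw [Finset.mul_sum]
        refine Finset.sum_congr rfl fun u _ => ?_
        ring
      rw [h3] at h2
      exact h2
    have h2 := kh_avg_cosh (fun u => θ * a u)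
    have h3 : (∑ u, (θ * a u) ^ 2) / 2 = M := by
      have : ∑ u, (θ * a u) ^ 2 = θ ^ 2 * s := by
        rw [hs, Finset.mul_sum]
        refine Finset.sum_congr rfl fun u _ => ?_
        ring
      rw [this, hθ2]
      field_simp
    rw [h3] at h2
    have h4 : θ ^ (2 * M) = (2 * M / s) ^ M := by
      rw [pow_mul, hθ2]
    have h5 : Real.exp M ≤ 3 ^ M := by
      have h6 : Real.exp (M : ℝ) = Real.exp 1 ^ M := by
        rw [← Real.exp_nat_mul, mul_one]
      rw [h6]
      apply pow_le_pow_left₀ (Real.exp_pos _).le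
      have := Real.exp_one_lt_d9
      linarith
    have h6 : ((2 * M).factorial : ℝ) ≤ (2 * M : ℝ) ^ (2 * M) := by
      have := Nat.factorial_le_pow (2 * M)
      exact_mod_cast this
    have h7 : (2 * M / s : ℝ) ^ M * avg (fun e : F → Bool => (∑ u, a u * sgn (e u)) ^ (2 * M)) ≤
        (2 * M : ℝ) ^ (2 * M) * 3 ^ M := by
      rw [h4] at h1
      refine h1.trans ?_
      calc _ ≤ ((2 * M).factorial : ℝ) * Real.exp M :=
            mul_le_mul_of_nonneg_left h2 (by positivity)
        _ ≤ _ := mul_le_mul h6 h5 (Real.exp_pos _).le (by positivity)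
    have h8 : (2 * M : ℝ) ^ (2 * M) * 3 ^ M = (2 * M / s : ℝ) ^ M * ((6 * M : ℝ) ^ M * s ^ M) := by
      rw [← mul_pow, ← mul_pow, pow_mul, ← mul_pow]
      congr 1
      field_simp
      ring
    rw [h8] at h7
    exact le_of_mul_le_mul_left h7 (by positivity)

end Pool.Agent.Helper190.SS
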