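import Pool.Agent.Helper190.SS.Defs

set_option autoImplicit false

open scoped BigOperators Matrix.Norms.L2Operator
open Matrix

namespace Pool.Agent.Helper190.SS



/-- euclidean norm of a function -/
noncomputable def en {D : ℕ} (x : Fin D → ℝ) : ℝ :=
  ‖(WithLp.toLp 2 x : EuclideanSpace ℝ (Fin D))‖

theorem en_nonneg {D : ℕ} (x : Fin D → ℝ) : 0 ≤ en x := norm_nonneg _

theorem en_sq {D : ℕ} (x : Fin D → ℝ) : en x ^ 2 = ∑ i, x i ^ 2 :=
  EuclideanSpace.real_norm_sq_eq _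

theorem bil_le {D : ℕ} (A : Matrix (Fin D) (Fin D) ℝ) (x y : Fin D → ℝ) :
    |y ⬝ᵥ A.mulVec x| ≤ ‖A‖ * en x * en y := by
  have h1 : inner ℝ (WithLp.toLp 2 y : EuclideanSpace ℝ (Fin D))
      (WithLp.toLp 2 (A.mulVec x) : EuclideanSpace ℝ (Fin D)) = y ⬝ᵥ A.mulVec x := by
    rw [EuclideanSpace.inner_toLp_toLp, dotProduct_comm]
    simp
  have h2 := abs_real_inner_le_norm (WithLp.toLp 2 y : EuclideanSpace ℝ (Fin D))
      (WithLp.toLp 2 (A.mulVec x) : EuclideanSpace ℝ (Fin D))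
  have h3 : ‖(WithLp.toLp 2 (A.mulVec x) : EuclideanSpace ℝ (Fin D))‖ ≤ ‖A‖ * en x :=
    A.l2_opNorm_mulVec (WithLp.toLp 2 x)
  rw [h1] at h2
  calc _ ≤ en y * ‖(WithLp.toLp 2 (A.mulVec x) : EuclideanSpace ℝ (Fin D))‖ := h2
    _ ≤ en y * (‖A‖ * en x) := mul_le_mul_of_nonneg_left h3 (en_nonneg y)
    _ = _ := by ring

theorem norm_le_of_bil {D : ℕ} (A : Matrix (Fin D) (Fin D) ℝ) (C : ℝ) (hC : 0 ≤ C)
    (h : ∀ x y : Fin D → ℝ, en x ≤ 1 → en y ≤ 1 → |y ⬝ᵥ A.mulVec x| ≤ C) : ‖A‖ ≤ C := by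
  rw [Matrix.cstar_norm_def]
  refine ContinuousLinearMap.opNorm_le_of_unit_norm hC fun x hx => ?_
  have hw : Matrix.toEuclideanCLM (n := Fin D) (𝕜 := ℝ) A x =
      WithLp.toLp 2 (A.mulVec (WithLp.ofLp x)) := rfl
  rw [hw]
  set v : Fin D → ℝ := A.mulVec (WithLp.ofLp x) with hv
  show en v ≤ C
  by_cases h0 : en v = 0
  · rw [h0]; exact hC
  have hpos : 0 < en v := lt_of_le_of_ne (en_nonneg v) (Ne.symm h0)
  have h1 := h (WithLp.ofLp x) ((en v)⁻¹ • v) (le_of_eq hx) (by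
    have : en ((en v)⁻¹ • v) = (en v)⁻¹ * en v := by
      unfold en
      rw [WithLp.toLp_smul, norm_smul, Real.norm_eq_abs, abs_of_nonneg (inv_nonneg.2 (norm_nonneg _))]
    rw [this, inv_mul_cancel₀ h0])
  rw [← hv, smul_dotProduct] at h1
  have h2 : v ⬝ᵥ v = en v ^ 2 := by
    rw [en_sq, dotProduct]
    refine Finset.sum_congr rfl fun i _ => ?_
    ring
  rw [h2, smul_eq_mul] at h1
  have h3 : (en v)⁻¹ * en v ^ 2 = en v := by
    field_simp
  rw [h3] at h1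
  exact (le_abs_self _).trans h1

theorem grid_sum (K : ℕ) : ∑ k ∈ Finset.Icc (-(K : ℤ)) K, (1 / 2 : ℝ) ^ (k.natAbs ^ 2) ≤
    3 - 2 * (1 / 2 : ℝ) ^ K := by
  induction K with
  | zero => norm_num
  | succ K ih =>
    have e : Finset.Icc (-((K + 1 : ℕ) : ℤ)) ((K + 1 : ℕ) : ℤ) =
        insert (-((K + 1 : ℕ) : ℤ)) (insert ((K + 1 : ℕ) : ℤ) (Finset.Icc (-(K : ℤ)) K)) := by
      ext a
      simp only [Finset.mem_insert, Finset.mem_Icc]
      push_cast
      constructor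
      · intro h; omega
      · intro h; omega
    have h1 : ((K + 1 : ℕ) : ℤ) ∉ Finset.Icc (-(K : ℤ)) K := by
      rw [Finset.mem_Icc]; push_cast; omega
    have h2 : (-((K + 1 : ℕ) : ℤ)) ∉ insert ((K + 1 : ℕ) : ℤ) (Finset.Icc (-(K : ℤ)) K) := by
      rw [Finset.mem_insert, Finset.mem_Icc]; push_cast; omega
    rw [e, Finset.sum_insert h2, Finset.sum_insert h1]
    have h3 : (-((K + 1 : ℕ) : ℤ)).natAbs = K + 1 := by rw [Int.natAbs_neg, Int.natAbs_natCast]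
    have h4 : ((K + 1 : ℕ) : ℤ).natAbs = K + 1 := Int.natAbs_natCast _
    rw [h3, h4]
    have h5 : (1 / 2 : ℝ) ^ ((K + 1) ^ 2) ≤ (1 / 2 : ℝ) ^ (K + 1) := by
      apply pow_le_pow_of_le_one (by norm_num) (by norm_num)
      nlinarith
    have h6 : (1 / 2 : ℝ) ^ (K + 1) = (1 / 2 : ℝ) ^ K * (1 / 2) := pow_succ _ _
    linarith

/-- the integer points of the net -/
noncomputable def gridT (D : ℕ) : Finset (Fin D → ℤ) :=
  (Fintype.piFinset fun _ : Fin D => Finset.Icc (-((3 * D : ℕ) : ℤ)) ((3 * D : ℕ) : ℤ)).filter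
    fun z => ∑ i, (z i) ^ 2 ≤ 7 * (D : ℤ)

theorem gridT_card (D : ℕ) : ((gridT D).card : ℝ) ≤ 10000 ^ D := by
  have h1 : ((gridT D).card : ℝ) ≤ ∑ z ∈ gridT D, (2 : ℝ) ^ (7 * D) *
      ∏ i, (1 / 2 : ℝ) ^ ((z i).natAbs ^ 2) := by
    rw [Finset.card_eq_sum_ones]
    push_cast
    refine Finset.sum_le_sum fun z hz => ?_
    have hz2 := (Finset.mem_filter.1 hz).2
    rw [Finset.prod_pow_eq_pow_sum]
    have h2 : ∑ i, (z i).natAbs ^ 2 ≤ 7 * D := by
      zify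
      simpa [sq_abs] using hz2
    have h3 : (1 / 2 : ℝ) ^ (7 * D) ≤ (1 / 2 : ℝ) ^ (∑ i, (z i).natAbs ^ 2) :=
      pow_le_pow_of_le_one (by norm_num) (by norm_num) h2
    calc (1 : ℝ) = (2 : ℝ) ^ (7 * D) * (1 / 2 : ℝ) ^ (7 * D) := by
          rw [← mul_pow]; norm_num
      _ ≤ _ := mul_le_mul_of_nonneg_left h3 (by positivity)
  have h2 : ∑ z ∈ gridT D, (2 : ℝ) ^ (7 * D) * ∏ i, (1 / 2 : ℝ) ^ ((z i).natAbs ^ 2) ≤
      ∑ z ∈ (Fintype.piFinset fun _ : Fin D =>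
        Finset.Icc (-((3 * D : ℕ) : ℤ)) ((3 * D : ℕ) : ℤ)),
        (2 : ℝ) ^ (7 * D) * ∏ i, (1 / 2 : ℝ) ^ ((z i).natAbs ^ 2) := by
    apply Finset.sum_le_sum_of_subset_of_nonneg (Finset.filter_subset _ _)
    intro z _ _
    positivity
  have h3 : ∑ z ∈ (Fintype.piFinset fun _ : Fin D =>
        Finset.Icc (-((3 * D : ℕ) : ℤ)) ((3 * D : ℕ) : ℤ)),
        (2 : ℝ) ^ (7 * D) * ∏ i, (1 / 2 : ℝ) ^ ((z i).natAbs ^ 2) =
      (2 : ℝ) ^ (7 * D) * (∑ k ∈ Finset.Icc (-((3 * D : ℕ) : ℤ)) ((3 * D : ℕ) : ℤ),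
        (1 / 2 : ℝ) ^ (k.natAbs ^ 2)) ^ D := by
    rw [← Finset.mul_sum]
    congr 1
    have := Finset.prod_univ_sum (fun _ : Fin D =>
      Finset.Icc (-((3 * D : ℕ) : ℤ)) ((3 * D : ℕ) : ℤ))
      (fun _ k => (1 / 2 : ℝ) ^ (k.natAbs ^ 2))
    rw [← this, Finset.prod_const, Finset.card_univ, Fintype.card_fin]
  have h4 := grid_sum (3 * D)
  have h5 : (0 : ℝ) < (1 / 2 : ℝ) ^ (3 * D) := by positivity
  have h6 : (∑ k ∈ Finset.Icc (-((3 * D : ℕ) : ℤ)) ((3 * D : ℕ) : ℤ),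
        (1 / 2 : ℝ) ^ (k.natAbs ^ 2)) ^ D ≤ 3 ^ D := by
    apply pow_le_pow_left₀
    · exact Finset.sum_nonneg fun k _ => by positivity
    · linarith
  rw [h3] at h2
  refine h1.trans (h2.trans ?_)
  calc (2 : ℝ) ^ (7 * D) * _ ≤ (2 : ℝ) ^ (7 * D) * 3 ^ D :=
        mul_le_mul_of_nonneg_left h6 (by positivity)
    _ = (384 : ℝ) ^ D := by rw [pow_mul, ← mul_pow]; norm_num
    _ ≤ 10000 ^ D := pow_le_pow_left₀ (by norm_num) (by norm_num) D

/-- scaling of an integer point -/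
noncomputable def scl {D : ℕ} (z : Fin D → ℤ) : Fin D → ℝ := fun i => (z i : ℝ) / (2 * √D)

theorem en_scl {D : ℕ} (hD : 0 < D) (z : Fin D → ℤ) :
    en (scl z) ^ 2 = (∑ i, (z i : ℝ) ^ 2) / (4 * D) := by
  rw [en_sq, Finset.sum_div]
  refine Finset.sum_congr rfl fun i _ => ?_
  have hD' : (0 : ℝ) < D := by exact_mod_cast hD
  have hs : √(D : ℝ) ^ 2 = D := Real.sq_sqrt hD'.le
  unfold scl
  rw [div_pow, mul_pow, hs]
  norm_num

theorem exists_near {D : ℕ} (hD : 0 < D) (u : Fin D → ℝ) (hu : en u ≤ 1) :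
    ∃ z ∈ gridT D, en (u - scl z) ≤ 1 / 4 ∧ en (scl z) ≤ 5 / 4 := by
  have hD' : (0 : ℝ) < D := by exact_mod_cast hD
  have hs0 : 0 < √(D : ℝ) := Real.sqrt_pos.2 hD'
  have hs : √(D : ℝ) ^ 2 = D := Real.sq_sqrt hD'.le
  set z : Fin D → ℤ := fun i => round (2 * √D * u i) with hz
  have h1 : en (u - scl z) ≤ 1 / 4 := by
    have h2 : en (u - scl z) ^ 2 ≤ (1 / 4) ^ 2 := by
      rw [en_sq]
      have h3 : ∀ i, (u - scl z) i ^ 2 ≤ 1 / (16 * D) := by
        intro i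
        have h4 : |2 * √D * u i - round (2 * √D * u i)| ≤ 1 / 2 := abs_sub_round _
        have h5 : (u - scl z) i = (2 * √D * u i - round (2 * √D * u i)) / (2 * √D) := by
          show u i - (round (2 * √D * u i) : ℝ) / (2 * √D) = _
          field_simp
        rw [h5, div_pow, mul_pow, hs]
        have h6 : (2 * √D * u i - round (2 * √D * u i)) ^ 2 ≤ 1 / 4 := by
          have := sq_abs (2 * √D * u i - round (2 * √D * u i))
          have h7 := abs_nonneg (2 * √D * u i - round (2 * √D * u i))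
          nlinarith
        calc (2 * √D * u i - round (2 * √D * u i)) ^ 2 / (2 ^ 2 * (D : ℝ)) ≤
            (1 / 4) / (2 ^ 2 * (D : ℝ)) := by gcongr
          _ = _ := by field_simp; norm_num
      calc ∑ i, (u - scl z) i ^ 2 ≤ ∑ i : Fin D, 1 / (16 * (D : ℝ)) :=
            Finset.sum_le_sum fun i _ => h3 i
        _ = (1 / 4) ^ 2 := by
            rw [Finset.sum_const, Finset.card_univ, Fintype.card_fin, nsmul_eq_mul]
            field_simp
            norm_num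
    exact (pow_le_pow_iff_left₀ (en_nonneg _) (by norm_num) two_ne_zero).1 h2
  have h2 : en (scl z) ≤ 5 / 4 := by
    have h3 : en (scl z) ≤ en u + en (u - scl z) := by
      unfold en
      have h4 : (WithLp.toLp 2 (scl z) : EuclideanSpace ℝ (Fin D)) =
          WithLp.toLp 2 u - WithLp.toLp 2 (u - scl z) := by
        rw [WithLp.toLp_sub]
        abel
      rw [h4]
      exact norm_sub_le _ _
    linarith
  have h3 : (∑ i, (z i : ℝ) ^ 2) ≤ 7 * D := by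
    have h4 := en_scl hD z
    have h5 : en (scl z) ^ 2 ≤ (5 / 4) ^ 2 := pow_le_pow_left₀ (en_nonneg _) h2 2
    rw [h4, div_le_iff₀ (by positivity)] at h5
    nlinarith
  have h3' : (∑ i, (z i) ^ 2) ≤ 7 * (D : ℤ) := by exact_mod_cast h3
  refine ⟨z, ?_, h1, h2⟩
  rw [gridT, Finset.mem_filter]
  refine ⟨?_, h3'⟩
  rw [Fintype.mem_piFinset]
  intro i
  have h4 : (z i) ^ 2 ≤ 7 * (D : ℤ) := (Finset.single_le_sum (f := fun i => (z i) ^ 2)
    (fun i _ => sq_nonneg _) (Finset.mem_univ i)).trans h3'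
  have hD1 : (1 : ℤ) ≤ D := by exact_mod_cast hD
  rw [Finset.mem_Icc]
  push_cast
  constructor
  · nlinarith
  · nlinarith

theorem net_exists (D : ℕ) : ∃ S : Finset (Fin D → ℝ), S.card ≤ 10000 ^ D ∧
    (∀ x ∈ S, ∑ i, x i ^ 2 ≤ 4) ∧
    ∀ A : Matrix (Fin D) (Fin D) ℝ, ∃ x ∈ S, ∃ y ∈ S, ‖A‖ ≤ 4 * |y ⬝ᵥ A.mulVec x| := by
  classical
  rcases Nat.eq_zero_or_pos D with hD | hD
  · subst hD
    refine ⟨{0}, by simp, ?_, ?_⟩
    · intro x _
      simp
    · intro A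
      refine ⟨0, by simp, 0, by simp, ?_⟩
      have : A = 0 := Subsingleton.elim _ _
      rw [this]
      simp
  · refine ⟨(gridT D).image scl, ?_, ?_, ?_⟩
    · have h1 : (((gridT D).image scl).card : ℝ) ≤ 10000 ^ D :=
        (Nat.cast_le.2 Finset.card_image_le).trans (gridT_card D)
      exact_mod_cast h1
    · intro x hx
      obtain ⟨z, hz, rfl⟩ := Finset.mem_image.1 hx
      rw [← en_sq, en_scl hD]
      have hD' : (0 : ℝ) < D := by exact_mod_cast hD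
      have h2 := (Finset.mem_filter.1 hz).2
      have h3 : (∑ i, (z i : ℝ) ^ 2) ≤ 7 * D := by exact_mod_cast h2
      rw [div_le_iff₀ (by positivity)]
      nlinarith
    · intro A
      obtain ⟨z0, hz0, -⟩ := exists_near hD (0 : Fin D → ℝ) (by
        have : en (0 : Fin D → ℝ) = 0 := by unfold en; simp
        rw [this]; norm_num)
      have hne : ((gridT D) ×ˢ (gridT D)).Nonempty := ⟨(z0, z0), Finset.mem_product.2 ⟨hz0, hz0⟩⟩
      obtain ⟨q, hq, hmax⟩ := Finset.exists_max_image ((gridT D) ×ˢ (gridT D))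
        (fun q => |scl q.2 ⬝ᵥ A.mulVec (scl q.1)|) hne
      obtain ⟨hq1, hq2⟩ := Finset.mem_product.1 hq
      refine ⟨scl q.1, Finset.mem_image_of_mem _ hq1, scl q.2, Finset.mem_image_of_mem _ hq2, ?_⟩
      set m := |scl q.2 ⬝ᵥ A.mulVec (scl q.1)| with hm
      have hm0 : 0 ≤ m := abs_nonneg _
      have hA0 : 0 ≤ ‖A‖ := norm_nonneg _
      have key : ‖A‖ ≤ m + 9 / 16 * ‖A‖ := by
        refine norm_le_of_bil A _ (by positivity) fun x y hx hy => ?_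
        obtain ⟨z, hz, hz1, hz2⟩ := exists_near hD x hx
        obtain ⟨z', hz', hz1', hz2'⟩ := exists_near hD y hy
        have e1 : y ⬝ᵥ A.mulVec x = scl z' ⬝ᵥ A.mulVec (scl z) +
            ((y - scl z') ⬝ᵥ A.mulVec (scl z) + y ⬝ᵥ A.mulVec (x - scl z)) := by
          rw [Matrix.mulVec_sub, sub_dotProduct, dotProduct_sub]
          ring
        rw [e1]
        have h1 := abs_add_le (scl z' ⬝ᵥ A.mulVec (scl z))
          ((y - scl z') ⬝ᵥ A.mulVec (scl z) + y ⬝ᵥ A.mulVec (x - scl z))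
        have h2 := abs_add_le ((y - scl z') ⬝ᵥ A.mulVec (scl z)) (y ⬝ᵥ A.mulVec (x - scl z))
        have h3 : |scl z' ⬝ᵥ A.mulVec (scl z)| ≤ m :=
          hmax (z, z') (Finset.mem_product.2 ⟨hz, hz'⟩)
        have h4 := bil_le A (scl z) (y - scl z')
        have h5 := bil_le A (x - scl z) y
        have h6 : ‖A‖ * en (scl z) * en (y - scl z') ≤ ‖A‖ * (5 / 4) * (1 / 4) := by
          have := en_nonneg (scl z)
          have := en_nonneg (y - scl z')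
          gcongr
        have h7 : ‖A‖ * en (x - scl z) * en y ≤ ‖A‖ * (1 / 4) * 1 := by
          have := en_nonneg (x - scl z)
          have := en_nonneg y
          gcongr
        linarith
      linarith

end Pool.Agent.Helper190.SS
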