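import Pool.Agent.Helper190.SS.Defs
import Pool.Agent.Helper190.SS.P_net_exists
import Pool.Agent.Helper190.SS.P_khintchine

set_option autoImplicit false

open scoped BigOperators Matrix.Norms.L2Operator
open Matrix

namespace Pool.Agent.Helper190.SS



theorem avg_mono' {Ω : Type*} [Fintype Ω] {f g : Ω → ℝ} (h : ∀ ω, f ω ≤ g ω) : avg f ≤ avg g := by
  unfold avg
  exact div_le_div_of_nonneg_right (Finset.sum_le_sum fun ω _ => h ω) (Nat.cast_nonneg _)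

theorem avg_sum'_rademacher_norm {Ω α : Type*} [Fintype Ω] (s : Finset α) (F : α → Ω → ℝ) :
    avg (fun ω => ∑ x ∈ s, F x ω) = ∑ x ∈ s, avg (F x) := by
  unfold avg
  rw [Finset.sum_comm, Finset.sum_div]

theorem avg_mul' {Ω : Type*} [Fintype Ω] (c : ℝ) (f : Ω → ℝ) :
    avg (fun ω => c * f ω) = c * avg f := by
  unfold avg
  rw [← Finset.mul_sum, mul_div_assoc]

theorem avg_equiv' {Ω Ω' : Type*} [Fintype Ω] [Fintype Ω'] (e : Ω ≃ Ω') (f : Ω' → ℝ) :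
    avg f = avg (fun ω => f (e ω)) := by
  unfold avg
  rw [Equiv.sum_comp e f, Fintype.card_congr e]

theorem dot_Rmat {D : ℕ} (x y : Fin D → ℝ) (R : Fin D × Fin D → Bool) :
    y ⬝ᵥ (Rmat (fun i j => R (i, j))).mulVec x = ∑ u : Fin D × Fin D, (y u.1 * x u.2) * sgn (R u) := by
  rw [Fintype.sum_prod_type]
  unfold dotProduct Matrix.mulVec dotProduct Rmat
  refine Finset.sum_congr rfl fun i _ => ?_
  rw [Finset.mul_sum]
  refine Finset.sum_congr rfl fun j _ => ?_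
  ring

theorem avg_dot {D : ℕ} (x y : Fin D → ℝ) (hx : ∑ i, x i ^ 2 ≤ 4) (hy : ∑ i, y i ^ 2 ≤ 4) (M : ℕ)
    (hM : 1 ≤ M) :
    avg (fun R : Fin D → Fin D → Bool => (y ⬝ᵥ (Rmat R).mulVec x) ^ (2 * M)) ≤
      (6 * M : ℝ) ^ M * 16 ^ M := by
  rw [avg_equiv' (Equiv.curry (Fin D) (Fin D) Bool)]
  have h1 : (fun e : Fin D × Fin D → Bool =>
      (y ⬝ᵥ (Rmat ((Equiv.curry (Fin D) (Fin D) Bool) e)).mulVec x) ^ (2 * M)) =
      fun e => (∑ u : Fin D × Fin D, (y u.1 * x u.2) * sgn (e u)) ^ (2 * M) := by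
    funext e
    rw [← dot_Rmat]
    rfl
  rw [h1]
  refine (khintchine (fun u : Fin D × Fin D => y u.1 * x u.2) M hM).trans ?_
  apply mul_le_mul_of_nonneg_left _ (by positivity)
  have h2 : ∑ u : Fin D × Fin D, (y u.1 * x u.2) ^ 2 = (∑ i, y i ^ 2) * ∑ j, x j ^ 2 := by
    rw [Fintype.sum_prod_type, Finset.sum_mul]
    refine Finset.sum_congr rfl fun i _ => ?_
    rw [Finset.mul_sum]
    refine Finset.sum_congr rfl fun j _ => ?_
    ring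
  rw [h2]
  apply pow_le_pow_left₀
  · exact mul_nonneg (Finset.sum_nonneg fun _ _ => sq_nonneg _)
      (Finset.sum_nonneg fun _ _ => sq_nonneg _)
  · calc (∑ i, y i ^ 2) * ∑ j, x j ^ 2 ≤ 4 * 4 :=
        mul_le_mul hy hx (Finset.sum_nonneg fun _ _ => sq_nonneg _) (by norm_num)
      _ = 16 := by norm_num

theorem rademacher_norm : ∃ C : ℝ, 1 ≤ C ∧ ∀ M : ℕ, 1 ≤ M →
    avg (fun R : Fin (2 * M) → Fin (2 * M) → Bool => ‖Rmat R‖ ^ (2 * M)) ≤ (C * M) ^ M := by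
  refine ⟨16 * (10000 ^ 2 * 10000 ^ 2) * 6 * 16, by norm_num, fun M hM => ?_⟩
  obtain ⟨S, hScard, hS4, hnet⟩ := net_exists (2 * M)
  have hpt : ∀ R : Fin (2 * M) → Fin (2 * M) → Bool, ‖Rmat R‖ ^ (2 * M) ≤
      16 ^ M * ∑ x ∈ S, ∑ y ∈ S, (y ⬝ᵥ (Rmat R).mulVec x) ^ (2 * M) := by
    intro R
    obtain ⟨x, hx, y, hy, h⟩ := hnet (Rmat R)
    have hev : ∀ t : ℝ, 0 ≤ t ^ (2 * M) := fun t => by rw [pow_mul]; positivity
    calc ‖Rmat R‖ ^ (2 * M) ≤ (4 * |y ⬝ᵥ (Rmat R).mulVec x|) ^ (2 * M) :=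
          pow_le_pow_left₀ (norm_nonneg _) h _
      _ = 16 ^ M * (y ⬝ᵥ (Rmat R).mulVec x) ^ (2 * M) := by
          have h16 : (4 : ℝ) ^ (2 * M) = 16 ^ M := by rw [pow_mul]; norm_num
          rw [mul_pow, h16, pow_mul |_| 2 M, sq_abs, ← pow_mul]
      _ ≤ 16 ^ M * ∑ x ∈ S, ∑ y ∈ S, (y ⬝ᵥ (Rmat R).mulVec x) ^ (2 * M) := by
          apply mul_le_mul_of_nonneg_left _ (by positivity)
          calc (y ⬝ᵥ (Rmat R).mulVec x) ^ (2 * M)
              ≤ ∑ y ∈ S, (y ⬝ᵥ (Rmat R).mulVec x) ^ (2 * M) :=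
                Finset.single_le_sum (f := fun y => (y ⬝ᵥ (Rmat R).mulVec x) ^ (2 * M))
                  (fun _ _ => hev _) hy
            _ ≤ ∑ x ∈ S, ∑ y ∈ S, (y ⬝ᵥ (Rmat R).mulVec x) ^ (2 * M) :=
                Finset.single_le_sum
                  (f := fun x => ∑ y ∈ S, (y ⬝ᵥ (Rmat R).mulVec x) ^ (2 * M))
                  (fun _ _ => Finset.sum_nonneg fun _ _ => hev _) hx
  refine (avg_mono' hpt).trans ?_
  rw [avg_mul', avg_sum'_rademacher_norm]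
  have h1 : ∑ x ∈ S, avg (fun R : Fin (2 * M) → Fin (2 * M) → Bool =>
      ∑ y ∈ S, (y ⬝ᵥ (Rmat R).mulVec x) ^ (2 * M)) ≤
      ∑ x ∈ S, ∑ y ∈ S, ((6 * M : ℝ) ^ M * 16 ^ M) := by
    refine Finset.sum_le_sum fun x hx => ?_
    rw [avg_sum'_rademacher_norm]
    exact Finset.sum_le_sum fun y hy => avg_dot x y (hS4 x hx) (hS4 y hy) M hM
  rw [Finset.sum_const, Finset.sum_const, nsmul_eq_mul, nsmul_eq_mul] at h1
  have hc : (S.card : ℝ) ≤ 10000 ^ (2 * M) := by exact_mod_cast hScard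
  have h0 : (0 : ℝ) ≤ S.card := Nat.cast_nonneg _
  have hQ : (0 : ℝ) ≤ (6 * M : ℝ) ^ M * 16 ^ M := by positivity
  calc 16 ^ M * ∑ x ∈ S, avg (fun R : Fin (2 * M) → Fin (2 * M) → Bool =>
      ∑ y ∈ S, (y ⬝ᵥ (Rmat R).mulVec x) ^ (2 * M))
      ≤ 16 ^ M * ((S.card : ℝ) * ((S.card : ℝ) * ((6 * M : ℝ) ^ M * 16 ^ M))) :=
        mul_le_mul_of_nonneg_left h1 (by positivity)
    _ ≤ 16 ^ M * ((10000 : ℝ) ^ (2 * M) * ((10000 : ℝ) ^ (2 * M) * ((6 * M : ℝ) ^ M * 16 ^ M))) := by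
        apply mul_le_mul_of_nonneg_left _ (by positivity)
        exact mul_le_mul hc (mul_le_mul_of_nonneg_right hc hQ) (mul_nonneg h0 hQ) (by positivity)
    _ = (16 * (10000 ^ 2 * 10000 ^ 2) * 6 * 16 * M) ^ M := by
        rw [pow_mul]
        simp only [mul_pow]
        ring

end Pool.Agent.Helper190.SS
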