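import Pool.Agent.Helper190.SS.Defs

set_option autoImplicit false

open scoped BigOperators Matrix.Norms.L2Operator
open Matrix

namespace Pool.Agent.Helper190.SS



theorem trace_le_norm_entry {D : ℕ} (B : Matrix (Fin D) (Fin D) ℝ) (i : Fin D) :
    B i i ≤ ‖B‖ := by
  have h1 := Matrix.l2_opNorm_mulVec B (EuclideanSpace.single i (1 : ℝ))
  rw [EuclideanSpace.norm_single, norm_one, mul_one] at h1
  refine le_trans ?_ h1
  have h2 := PiLp.norm_apply_le (WithLp.toLp 2 (B *ᵥ (EuclideanSpace.single i (1 : ℝ)).ofLp)) i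
  refine le_trans ?_ h2
  have h3 : (WithLp.toLp 2 (B *ᵥ (EuclideanSpace.single i (1 : ℝ)).ofLp)).ofLp i = B i i := by
    simp
  rw [h3]
  exact le_abs_self _

theorem trace_le_norm_one (D : ℕ) : ‖(1 : Matrix (Fin D) (Fin D) ℝ)‖ ≤ 1 := by
  rw [← Matrix.diagonal_one, Matrix.l2_opNorm_diagonal]
  refine (pi_norm_le_iff_of_nonneg zero_le_one).2 fun i => ?_
  simp

theorem trace_le_norm_pow {D : ℕ} (Y : Matrix (Fin D) (Fin D) ℝ) (M : ℕ) :
    ‖(Yᵀ * Y) ^ M‖ ≤ ‖Y‖ ^ (2 * M) := by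
  induction M with
  | zero =>
    rw [pow_zero, mul_zero, pow_zero]
    exact trace_le_norm_one D
  | succ M ih =>
    rw [pow_succ]
    refine (norm_mul_le _ _).trans ?_
    have h1 : ‖Yᵀ * Y‖ = ‖Y‖ * ‖Y‖ := by
      rw [← Matrix.conjTranspose_eq_transpose_of_trivial, Matrix.l2_opNorm_conjTranspose_mul_self]
    rw [h1]
    calc ‖(Yᵀ * Y) ^ M‖ * (‖Y‖ * ‖Y‖) ≤ ‖Y‖ ^ (2 * M) * (‖Y‖ * ‖Y‖) :=
          mul_le_mul_of_nonneg_right ih (by positivity)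
      _ = ‖Y‖ ^ (2 * (M + 1)) := by rw [mul_add, pow_add]; ring

theorem trace_le_norm {D : ℕ} (Y : Matrix (Fin D) (Fin D) ℝ) (M : ℕ) :
    Matrix.trace ((Yᵀ * Y) ^ M) ≤ D * ‖Y‖ ^ (2 * M) := by
  unfold Matrix.trace
  have h1 : ∀ i ∈ (Finset.univ : Finset (Fin D)), Matrix.diag ((Yᵀ * Y) ^ M) i ≤
      ‖Y‖ ^ (2 * M) := fun i _ =>
    (trace_le_norm_entry _ i).trans (trace_le_norm_pow Y M)
  refine (Finset.sum_le_card_nsmul _ _ _ h1).trans (le_of_eq ?_)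
  rw [Finset.card_univ, Fintype.card_fin, nsmul_eq_mul]

end Pool.Agent.Helper190.SS
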