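import Pool.Agent.Helper190.SS.Defs
import Pool.Agent.Helper190.SS.P_rademacher_expand
import Pool.Agent.Helper190.SS.P_trace_le_norm
import Pool.Agent.Helper190.SS.P_rademacher_norm

set_option autoImplicit false

open scoped BigOperators Matrix.Norms.L2Operator
open Matrix

namespace Pool.Agent.Helper190.SS



theorem walks_count : ∃ C : ℝ, 1 ≤ C ∧ ∀ (M : ℕ) [NeZero M],
    ∑ t : Fin M → Fin (2 * M), ∑ j : Fin M → Fin (2 * M), ind (EvenFib (lab t j)) ≤
      2 * M * (C * M) ^ M := by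
  obtain ⟨C, hC1, hC⟩ := rademacher_norm
  refine ⟨C, hC1, fun M hM => ?_⟩
  have hM1 : 1 ≤ M := Nat.one_le_iff_ne_zero.2 (NeZero.ne M)
  rw [← rademacher_expand M (2 * M)]
  have h1 := hC M hM1
  unfold avg at h1 ⊢
  have hcard : (0 : ℝ) ≤ (Fintype.card (Fin (2 * M) → Fin (2 * M) → Bool) : ℝ) := Nat.cast_nonneg _
  have h2 : ∑ R : Fin (2 * M) → Fin (2 * M) → Bool, Matrix.trace (((Rmat R)ᵀ * Rmat R) ^ M) ≤
      2 * M * ∑ R : Fin (2 * M) → Fin (2 * M) → Bool, ‖Rmat R‖ ^ (2 * M) := by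
    rw [Finset.mul_sum]
    refine Finset.sum_le_sum fun R _ => ?_
    have := trace_le_norm (Rmat R) M
    push_cast at this
    exact this
  calc _ ≤ (2 * M * ∑ R : Fin (2 * M) → Fin (2 * M) → Bool, ‖Rmat R‖ ^ (2 * M)) /
        (Fintype.card (Fin (2 * M) → Fin (2 * M) → Bool) : ℝ) :=
        div_le_div_of_nonneg_right h2 hcard
    _ = 2 * M * ((∑ R : Fin (2 * M) → Fin (2 * M) → Bool, ‖Rmat R‖ ^ (2 * M)) /
        (Fintype.card (Fin (2 * M) → Fin (2 * M) → Bool) : ℝ)) := by rw [mul_div_assoc]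
    _ ≤ 2 * M * (C * M) ^ M := mul_le_mul_of_nonneg_left h1 (by positivity)

end Pool.Agent.Helper190.SS
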