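import Pool.Agent.Helper190.SS.Defs
import Pool.Agent.Helper190.SS.P_regroup
import Pool.Agent.Helper190.SS.P_refine_sum
import Pool.Agent.Helper190.SS.P_walks_compare
import Pool.Agent.Helper190.SS.P_walks_count

set_option autoImplicit false

open scoped BigOperators Matrix.Norms.L2Operator
open Matrix

namespace Pool.Agent.Helper190.SS



theorem moment_bound : ∃ C : ℝ, 1 ≤ C ∧ ∀ {T K N : Type} [Fintype T] [DecidableEq T] [Fintype K]
    [DecidableEq K] [Fintype N] [DecidableEq N] [Nonempty K] [Nonempty N] (M : ℕ) (_ : 1 ≤ M)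
    (c b : ℝ) (r : ℕ) (_ : 1 ≤ r)
    (_ : b * (Fintype.card T : ℝ) = (Fintype.card K : ℝ) * Fintype.card N)
    (_ : Real.exp ((M : ℝ) / 4) ≤ b) (_ : (r : ℝ) / M ≤ b)
    (G : Matrix N N ℝ) (H : Matrix K K ℝ) (_ : Good r G) (_ : Good r H),
    avg (fun θ : T → (K × N) × Bool =>
        Matrix.trace ((G * (Xmat c θ)ᵀ * H * Xmat c θ) ^ M)) ≤
      c ^ (2 * M) * (2 * r * (C * M) ^ M) := by
  obtain ⟨C0, hC0, hwc⟩ := walks_count
  refine ⟨32 * C0, by linarith, ?_⟩
  intro T K N _ _ _ _ _ _ _ _ M hM c b r hr hbT hexp hrb G H hG hH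
  haveI : NeZero M := ⟨by omega⟩
  have hM0 : (0 : ℝ) < M := by exact_mod_cast hM
  have hK : (0 : ℝ) < (Fintype.card K : ℝ) := by exact_mod_cast Fintype.card_pos
  have hN : (0 : ℝ) < (Fintype.card N : ℝ) := by exact_mod_cast Fintype.card_pos
  have hb1 : (1 : ℝ) ≤ b := le_trans (Real.one_le_exp (by positivity)) hexp
  have hb0 : (0 : ℝ) < b := by linarith
  have hc : (0 : ℝ) ≤ c ^ (2 * M) := by
    rw [pow_mul]; positivity
  refine (regroup M c r hr G H hG hH).trans ?_
  refine mul_le_mul_of_nonneg_left ?_ hc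
  have hq : (0 : ℝ) ≤ 1 / ((Fintype.card K : ℝ) * Fintype.card N) := by positivity
  have hbq : b * ((Fintype.card T : ℝ) * (1 / ((Fintype.card K : ℝ) * Fintype.card N))) = 1 := by
    rw [← mul_assoc, hbT]
    field_simp
  calc ∑ t : Fin M → Fin r, ∑ j : Fin M → Fin r, ∑ σ : Fin M × Bool → T,
        ind (EvenFib σ ∧ ∀ u u', σ u = σ u' → lab t j u = lab t j u') *
          (1 / ((Fintype.card K : ℝ) * Fintype.card N)) ^ (im σ)
      ≤ ∑ t : Fin M → Fin r, ∑ j : Fin M → Fin r,
          32 ^ M * (1 / b) ^ (im (lab t j)) * ind (EvenFib (lab t j)) :=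
        Finset.sum_le_sum fun t _ => Finset.sum_le_sum fun j _ =>
          refine_sum M b _ hq hbq hexp (lab t j)
    _ = 32 ^ M * ∑ t : Fin M → Fin r, ∑ j : Fin M → Fin r,
          (1 / b) ^ (im (lab t j)) * ind (EvenFib (lab t j)) := by
        rw [Finset.mul_sum]
        refine Finset.sum_congr rfl fun t _ => ?_
        rw [Finset.mul_sum]
        refine Finset.sum_congr rfl fun j _ => ?_
        ring
    _ ≤ 32 ^ M * (((r : ℝ) / M) * (2 * M * (C0 * M) ^ M)) := by
        refine mul_le_mul_of_nonneg_left ?_ (by positivity)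
        refine (walks_compare M r hr b hb1 hrb).trans ?_
        exact mul_le_mul_of_nonneg_left (hwc M) (by positivity)
    _ = 2 * r * (32 * C0 * M) ^ M := by
        rw [mul_assoc (32 : ℝ) C0, mul_pow (32 : ℝ) (C0 * (M : ℝ)) M]
        field_simp

end Pool.Agent.Helper190.SS
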