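import Pool.Agent.Helper190.SS.Defs

set_option autoImplicit false

open scoped BigOperators Matrix.Norms.L2Operator
open Matrix

namespace Pool.Agent.Helper190.SS



theorem params (Z0 : ℕ) (hZ0 : 1 ≤ Z0) : ∃ C : ℝ, 0 < C ∧ ∀ r : ℕ, 2 ≤ r → ∃ l ζ b : ℕ,
    Real.log r + 5 ≤ (2 ^ l : ℕ) ∧ ζ = Z0 * 2 ^ l ∧ 1 ≤ b ∧
    Real.exp (((2 ^ l : ℕ) : ℝ) / 4) ≤ b ∧ (r : ℝ) / ((2 ^ l : ℕ) : ℝ) ≤ b ∧
    (ζ : ℝ) ≤ C * Real.log r ∧ ((b * ζ : ℕ) : ℝ) ≤ C * r := by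
  have hZ : (1 : ℝ) ≤ Z0 := by exact_mod_cast hZ0
  have hZpos : (0 : ℝ) < Z0 := by linarith
  refine ⟨1000 * Z0, by positivity, ?_⟩
  intro r hr
  have hr2 : (2 : ℝ) ≤ r := by exact_mod_cast hr
  have hrpos : (0 : ℝ) < r := by linarith
  obtain ⟨L, hL⟩ : ∃ L, L = Real.log r := ⟨_, rfl⟩
  have hL1 : 0.69 ≤ L := by
    rw [hL]
    have h1 := Real.log_two_gt_d9
    have h2 := Real.log_le_log (by norm_num) hr2
    linarith
  obtain ⟨s, hs⟩ : ∃ s, s = Real.sqrt r := ⟨_, rfl⟩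
  have hs1 : 1 ≤ s := by
    rw [hs, Real.one_le_sqrt]
    linarith
  have hss : s ^ 2 = r := by rw [hs, Real.sq_sqrt hrpos.le]
  have hLs : L ≤ 2 * s := by
    have h1 := Real.log_le_sub_one_of_pos (show (0 : ℝ) < s by linarith)
    have h2 : L = 2 * Real.log s := by rw [hL, ← hss, Real.log_pow]; norm_num
    linarith
  have hexL : Real.exp (L / 2) = s := by
    have h2 : L = 2 * Real.log s := by rw [hL, ← hss, Real.log_pow]; norm_num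
    rw [h2, mul_div_cancel_left₀ _ two_ne_zero, Real.exp_log (by linarith)]
  have hex5 : Real.exp (5 / 2) ≤ 13 := by
    have h1 : Real.exp (5 / 2) ^ 2 = Real.exp 1 ^ 5 := by
      rw [← Real.exp_nat_mul, ← Real.exp_nat_mul]
      norm_num
    have h2 : Real.exp 1 ^ 5 ≤ 2.7183 ^ 5 := by
      apply pow_le_pow_left₀ (Real.exp_pos 1).le
      have := Real.exp_one_lt_d9
      linarith
    have h3 : (2.7183 : ℝ) ^ 5 ≤ 13 ^ 2 := by norm_num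
    have h4 : Real.exp (5 / 2) ^ 2 ≤ 13 ^ 2 := by rw [h1]; exact h2.trans h3
    exact le_of_sq_le_sq h4 (by norm_num)
  have hex : ∃ l : ℕ, L + 5 ≤ ((2 ^ l : ℕ) : ℝ) := by
    obtain ⟨n, hn⟩ := pow_unbounded_of_one_lt (L + 5) (by norm_num : (1 : ℝ) < 2)
    refine ⟨n, ?_⟩
    push_cast
    exact hn.le
  obtain ⟨l, hl, hlmin⟩ : ∃ l : ℕ, L + 5 ≤ ((2 ^ l : ℕ) : ℝ) ∧
      ∀ m < l, ¬ (L + 5 ≤ ((2 ^ m : ℕ) : ℝ)) :=
    ⟨Nat.find hex, Nat.find_spec hex, fun m hm => Nat.find_min hex hm⟩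
  have hl1 : l ≠ 0 := by
    rintro rfl
    norm_num at hl
    linarith
  have hMup : ((2 ^ l : ℕ) : ℝ) ≤ 2 * L + 10 := by
    have h1 := hlmin (l - 1) (by omega)
    push Not at h1
    have h2 : ((2 ^ l : ℕ) : ℝ) = 2 * ((2 ^ (l - 1) : ℕ) : ℝ) := by
      have : l = (l - 1) + 1 := by omega
      conv_lhs => rw [this, pow_succ]
      push_cast
      ring
    rw [h2]
    linarith
  obtain ⟨M, hM⟩ : ∃ M : ℝ, M = ((2 ^ l : ℕ) : ℝ) := ⟨_, rfl⟩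
  rw [← hM] at hMup
  have hMpos : 0 < M := by rw [hM]; positivity
  have hexM : Real.exp (M / 4) ≤ 13 * s := by
    have h1 : Real.exp (M / 4) ≤ Real.exp (5 / 2 + L / 2) := by
      apply Real.exp_le_exp.2
      linarith
    rw [Real.exp_add, hexL] at h1
    refine h1.trans ?_
    apply mul_le_mul_of_nonneg_right hex5
    linarith
  refine ⟨l, Z0 * 2 ^ l, ⌈(r : ℝ) / M⌉₊ + ⌈Real.exp (M / 4)⌉₊, ?_, rfl, ?_, ?_, ?_, ?_, ?_⟩
  · rw [← hL]; exact hl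
  · have : 0 < ⌈(r : ℝ) / M⌉₊ := Nat.ceil_pos.2 (by positivity)
    omega
  · rw [← hM]
    push_cast
    have h1 := Nat.le_ceil (Real.exp (M / 4))
    have h2 : (0 : ℝ) ≤ (⌈(r : ℝ) / M⌉₊ : ℝ) := by positivity
    linarith
  · rw [← hM]
    push_cast
    have h1 := Nat.le_ceil ((r : ℝ) / M)
    have h2 : (0 : ℝ) ≤ (⌈Real.exp (M / 4)⌉₊ : ℝ) := by positivity
    linarith
  · rw [← hL]
    have h1 : ((Z0 * 2 ^ l : ℕ) : ℝ) = Z0 * M := by rw [hM]; push_cast; ring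
    rw [h1]
    have h2 : M ≤ 1000 * L := by linarith
    calc (Z0 : ℝ) * M ≤ Z0 * (1000 * L) := by gcongr
      _ = 1000 * Z0 * L := by ring
  · have h1 : (((⌈(r : ℝ) / M⌉₊ + ⌈Real.exp (M / 4)⌉₊) * (Z0 * 2 ^ l) : ℕ) : ℝ)
        = ((⌈(r : ℝ) / M⌉₊ : ℝ) + (⌈Real.exp (M / 4)⌉₊ : ℝ)) * (Z0 * M) := by
      rw [hM]; push_cast; ring
    rw [h1]
    have h2 : (⌈(r : ℝ) / M⌉₊ : ℝ) ≤ r / M + 1 := (Nat.ceil_lt_add_one (by positivity)).le
    have h3 : (⌈Real.exp (M / 4)⌉₊ : ℝ) ≤ 13 * s + 1 :=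
      (Nat.ceil_lt_add_one (Real.exp_pos _).le).le.trans (by linarith)
    have h4 : ((⌈(r : ℝ) / M⌉₊ : ℝ) + (⌈Real.exp (M / 4)⌉₊ : ℝ)) * (Z0 * M)
        ≤ (r / M + 1 + (13 * s + 1)) * (Z0 * M) := by
      apply mul_le_mul_of_nonneg_right (by linarith) (by positivity)
    refine h4.trans ?_
    have h5 : (r / M + 1 + (13 * s + 1)) * (Z0 * M) = Z0 * (r + (13 * s + 2) * M) := by
      field_simp
      ring
    rw [h5]
    have h6 : r + (13 * s + 2) * M ≤ 1000 * r := by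
      have h7 : M ≤ 14 * s := by linarith
      have h8 : (13 * s + 2) * M ≤ (15 * s) * (14 * s) := by
        apply mul_le_mul _ h7 hMpos.le (by linarith)
        linarith
      nlinarith
    calc (Z0 : ℝ) * (r + (13 * s + 2) * M) ≤ Z0 * (1000 * r) := by gcongr
      _ = 1000 * Z0 * r := by ring

end Pool.Agent.Helper190.SS
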