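import Pool.Agent.Helper190.SS.Defs

set_option autoImplicit false

open scoped BigOperators Matrix.Norms.L2Operator
open Matrix

namespace Pool.Agent.Helper190.SS



theorem self_bound (m B : ℝ) (hm : 0 ≤ m) (hB : 0 ≤ B) (hB1 : B ≤ 1)
    (h : m ≤ B * (1 + Real.sqrt m)) : m ≤ 3 * B := by
  have hy0 := Real.sqrt_nonneg m
  have hs0 := Real.sqrt_nonneg B
  have hy := Real.sq_sqrt hm
  have hs := Real.sq_sqrt hB
  set y := Real.sqrt m
  set s := Real.sqrt B
  have hs1 : s ≤ 1 := by
    by_contra hc
    push Not at hc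
    nlinarith
  have key : y ≤ 2 * s := by
    by_contra hc
    push Not at hc
    rw [← hy, ← hs] at h
    by_cases h0 : s = 0
    · rw [h0] at h hc
      have : y ^ 2 ≤ 0 := by simpa using h
      nlinarith
    · have hspos : 0 < s := lt_of_le_of_ne hs0 (Ne.symm h0)
      have h1 : 2 * s * y < s ^ 2 + s * y := by
        have e1 : 2 * s * y < y ^ 2 := by nlinarith
        have e2 : s ^ 2 * y ≤ s * y := by
          have : s ^ 2 ≤ s := by nlinarith
          exact mul_le_mul_of_nonneg_right this hy0
        linarith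
      nlinarith
  have h2 : B * (1 + y) ≤ B * 3 := mul_le_mul_of_nonneg_left (by linarith) hB
  linarith

end Pool.Agent.Helper190.SS
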