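import Pool.Agent.Helper190.SS.Defs

set_option autoImplicit false

open scoped BigOperators Matrix.Norms.L2Operator
open Matrix

namespace Pool.Agent.Helper190.SS



/-- flip the value at `j` -/
def flipAt {N : Type*} [DecidableEq N] (j : N) : (N → Bool) ≃ (N → Bool) where
  toFun I := fun k => if k = j then !(I k) else I k
  invFun I := fun k => if k = j then !(I k) else I k
  left_inv I := by
    funext k
    by_cases h : k = j <;> simp [h]
  right_inv I := by
    funext k
    by_cases h : k = j <;> simp [h]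

theorem sum_flip_zero {N : Type*} [Fintype N] [DecidableEq N] (j : N) (h : (N → Bool) → ℝ)
    (hh : ∀ I, h (flipAt j I) = h I) :
    ∑ I : N → Bool, sgn (I j) * h I = 0 := by
  have h1 : ∑ I : N → Bool, sgn (I j) * h I = ∑ I : N → Bool, -(sgn (I j) * h I) := by
    refine Fintype.sum_equiv (flipAt j) _ _ ?_
    intro I
    rw [hh I]
    have : (flipAt j I) j = !(I j) := by simp [flipAt]
    rw [this]
    cases I j <;> simp [sgn]
  rw [Finset.sum_neg_distrib] at h1
  linarith

theorem sum_pair {N : Type*} [Fintype N] [DecidableEq N] (j j' : N) (hj : j ≠ j') :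
    ∑ I : N → Bool, (if I j then (1 : ℝ) else 0) * (if !(I j') then (1 : ℝ) else 0)
      = (Fintype.card (N → Bool) : ℝ) / 4 := by
  have h0 : ∀ I : N → Bool, (if I j then (1 : ℝ) else 0) * (if !(I j') then (1 : ℝ) else 0)
      = (1 / 4) * (1 + sgn (I j) * 1 - sgn (I j') * 1 - sgn (I j) * sgn (I j')) := by
    intro I
    cases I j <;> cases I j' <;> simp [sgn] <;> norm_num
  rw [Finset.sum_congr rfl (fun I _ => h0 I), ← Finset.mul_sum, Finset.sum_sub_distrib,
    Finset.sum_sub_distrib, Finset.sum_add_distrib,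
    sum_flip_zero j (fun _ => 1) (fun _ => rfl), sum_flip_zero j' (fun _ => 1) (fun _ => rfl),
    sum_flip_zero j (fun I => sgn (I j')) ?_]
  · simp
    ring
  · intro I
    have : (flipAt j I) j' = I j' := by simp [flipAt, hj.symm]
    rw [this]

theorem sum_dI {K N : Type*} [Fintype K] [DecidableEq K] [Fintype N] [DecidableEq N]
    (S : Matrix K N ℝ) (hS : ∀ j, (Sᵀ * S) j j = 1) :
    ∑ I : N → Bool, dI I * (Sᵀ * S) * dI (fun j => !(I j))
      = ((Fintype.card (N → Bool) : ℝ) / 4) • (Sᵀ * S - 1) := by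
  ext j j'
  rw [Matrix.sum_apply]
  have h1 : ∀ I : N → Bool, (dI I * (Sᵀ * S) * dI (fun j => !(I j))) j j'
      = (Sᵀ * S) j j' * ((if I j then (1 : ℝ) else 0) * (if !(I j') then (1 : ℝ) else 0)) := by
    intro I
    unfold dI
    rw [Matrix.mul_diagonal, Matrix.diagonal_mul]
    ring
  rw [Finset.sum_congr rfl (fun I _ => h1 I), ← Finset.mul_sum]
  by_cases hj : j = j'
  · subst hj
    have : ∀ I : N → Bool, (if I j then (1 : ℝ) else 0) * (if !(I j) then (1 : ℝ) else 0) = 0 := by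
      intro I
      cases I j <;> simp
    rw [Finset.sum_congr rfl (fun I _ => this I)]
    simp only [Finset.sum_const_zero, mul_zero, Matrix.smul_apply, Matrix.sub_apply, hS j,
      Matrix.one_apply_eq, sub_self, smul_eq_mul]
  · rw [sum_pair j j' hj, Matrix.smul_apply, Matrix.sub_apply, Matrix.one_apply_ne hj]
    simp only [smul_eq_mul, sub_zero]
    ring

theorem decouple_norm {K N : Type*} [Fintype K] [DecidableEq K] [Fintype N] [DecidableEq N]
    (P : Matrix N N ℝ) (S : Matrix K N ℝ) (hS : ∀ j, (Sᵀ * S) j j = 1) (p : ℕ) :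
    ‖P * (Sᵀ * S - 1) * P‖ ^ p ≤
      4 ^ p * avg (fun I : N → Bool => ‖P * dI I * Sᵀ * (S * dI (fun j => !(I j)) * P)‖ ^ p) := by
  have hc : (0 : ℝ) < (Fintype.card (N → Bool) : ℝ) := by
    exact_mod_cast Fintype.card_pos
  set c : ℝ := (Fintype.card (N → Bool) : ℝ) with hcdef
  let Y : (N → Bool) → Matrix N N ℝ := fun I => P * dI I * Sᵀ * (S * dI (fun j => !(I j)) * P)
  have hY : ∀ I, Y I = P * (dI I * (Sᵀ * S) * dI (fun j => !(I j))) * P := by
    intro I
    simp only [Y, Matrix.mul_assoc]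
  have h1 : P * (Sᵀ * S - 1) * P = (4 / c) • ∑ I : N → Bool, Y I := by
    have h2 := sum_dI S hS
    have h3 : Sᵀ * S - 1 = (4 / c) • ∑ I : N → Bool, dI I * (Sᵀ * S) * dI (fun j => !(I j)) := by
      rw [h2, smul_smul]
      have : 4 / c * (c / 4) = 1 := by field_simp
      rw [this, one_smul]
    rw [h3]
    simp only [Matrix.mul_smul, Matrix.smul_mul, Matrix.mul_sum, Matrix.sum_mul]
    congr 1
    exact Finset.sum_congr rfl (fun I _ => (hY I).symm)
  have h4 : ‖P * (Sᵀ * S - 1) * P‖ ≤ 4 * ∑ I : N → Bool, (1 / c) * ‖Y I‖ := by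
    rw [h1, norm_smul]
    have h5 : ‖(4 / c : ℝ)‖ = 4 / c := by
      rw [Real.norm_eq_abs, abs_of_pos (by positivity)]
    rw [h5, ← Finset.mul_sum]
    have h6 := norm_sum_le (Finset.univ : Finset (N → Bool)) Y
    calc 4 / c * ‖∑ I : N → Bool, Y I‖ ≤ 4 / c * ∑ I : N → Bool, ‖Y I‖ := by
          apply mul_le_mul_of_nonneg_left h6 (by positivity)
      _ = 4 * (1 / c * ∑ I : N → Bool, ‖Y I‖) := by ring
  have h7 : (∑ I : N → Bool, (1 / c) * ‖Y I‖) ^ p ≤ ∑ I : N → Bool, (1 / c) * ‖Y I‖ ^ p := by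
    apply Real.pow_arith_mean_le_arith_mean_pow
    · intro i _; positivity
    · rw [Finset.sum_const, Finset.card_univ, nsmul_eq_mul]
      field_simp
      exact hcdef.symm
    · intro i _; exact norm_nonneg _
  calc ‖P * (Sᵀ * S - 1) * P‖ ^ p ≤ (4 * ∑ I : N → Bool, (1 / c) * ‖Y I‖) ^ p :=
        pow_le_pow_left₀ (norm_nonneg _) h4 p
    _ = 4 ^ p * (∑ I : N → Bool, (1 / c) * ‖Y I‖) ^ p := by rw [mul_pow]
    _ ≤ 4 ^ p * ∑ I : N → Bool, (1 / c) * ‖Y I‖ ^ p := by
        apply mul_le_mul_of_nonneg_left h7 (by positivity)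
    _ = 4 ^ p * avg (fun I : N → Bool => ‖P * dI I * Sᵀ * (S * dI (fun j => !(I j)) * P)‖ ^ p) := by
        unfold avg
        rw [← Finset.mul_sum]
        congr 1
        rw [one_div, div_eq_inv_mul]

end Pool.Agent.Helper190.SS
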