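import Pool.Agent.Helper190.SS.Defs

set_option autoImplicit false

open scoped BigOperators Matrix.Norms.L2Operator
open Matrix

namespace Pool.Agent.Helper190.SS



theorem drop_units_update_sum {ι A : Type*} [Fintype ι] [DecidableEq ι] [Fintype A]
    (F : (ι → A) → ℝ) (τ0 : ι) :
    ∑ a : ι → A, ∑ b : A, F (Function.update a τ0 b) = (Fintype.card A : ℝ) * ∑ a, F a := by
  have h1 : ∑ a : ι → A, ∑ b : A, F (Function.update a τ0 b) =
      ∑ x : (ι → A) × A, F (Function.update x.1 τ0 x.2) := by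
    rw [Fintype.sum_prod_type]
  have h2 : ∑ x : (ι → A) × A, F (Function.update x.1 τ0 x.2) =
      ∑ x : (ι → A) × A, F x.1 := by
    refine Finset.sum_nbij' (fun x => (Function.update x.1 τ0 x.2, x.1 τ0))
      (fun x => (Function.update x.1 τ0 x.2, x.1 τ0)) ?_ ?_ ?_ ?_ ?_
    · intro x _; exact Finset.mem_univ _
    · intro x _; exact Finset.mem_univ _
    · intro x _; simp
    · intro x _; simp
    · intro x _; rfl
  rw [h1, h2, Fintype.sum_prod_type]
  simp [Finset.mul_sum]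

theorem drop_units_jensen {E A : Type*} [NormedAddCommGroup E] [NormedSpace ℝ E]
    [Fintype A] [Nonempty A] (η : A → E) (hη : ∑ a, η a = 0) (x : E) (p : ℕ) :
    (Fintype.card A : ℝ) * ‖x‖ ^ p ≤ ∑ b : A, ‖η b + x‖ ^ p := by
  have hc : (0 : ℝ) < (Fintype.card A : ℝ) := by exact_mod_cast Fintype.card_pos
  have h1 : (Fintype.card A : ℝ) * ‖x‖ ≤ ∑ b : A, ‖η b + x‖ := by
    have h : ∑ b : A, (η b + x) = (Fintype.card A : ℝ) • x := by
      rw [Finset.sum_add_distrib, hη, zero_add]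
      simp [Nat.cast_smul_eq_nsmul]
    calc (Fintype.card A : ℝ) * ‖x‖ = ‖(Fintype.card A : ℝ) • x‖ := by
          rw [norm_smul, Real.norm_of_nonneg hc.le]
      _ = ‖∑ b : A, (η b + x)‖ := by rw [h]
      _ ≤ _ := norm_sum_le _ _
  have h2 := Real.pow_arith_mean_le_arith_mean_pow (Finset.univ : Finset A)
    (fun _ => (Fintype.card A : ℝ)⁻¹) (fun b => ‖η b + x‖) (fun _ _ => by positivity)
    (by simp [hc.ne']) (fun _ _ => norm_nonneg _) p
  rw [← Finset.mul_sum, ← Finset.mul_sum] at h2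
  have h3 : ‖x‖ ≤ (Fintype.card A : ℝ)⁻¹ * ∑ b : A, ‖η b + x‖ := by
    rw [← div_eq_inv_mul, le_div_iff₀ hc]
    linarith
  have h4 : ‖x‖ ^ p ≤ (Fintype.card A : ℝ)⁻¹ * ∑ b : A, ‖η b + x‖ ^ p :=
    (pow_le_pow_left₀ (norm_nonneg _) h3 p).trans h2
  rw [← div_eq_inv_mul, le_div_iff₀ hc] at h4
  linarith

theorem drop_units_step {E ι A : Type*} [NormedAddCommGroup E] [NormedSpace ℝ E] [Fintype ι]
    [DecidableEq ι] [Fintype A] [Nonempty A] (η : ι → A → E) (hη : ∀ τ, ∑ a, η τ a = 0)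
    (R : Finset ι) (p : ℕ) (τ0 : ι) (h0 : τ0 ∉ R) :
    ∑ a : ι → A, ‖∑ τ ∈ R, η τ (a τ)‖ ^ p ≤
      ∑ a : ι → A, ‖∑ τ ∈ insert τ0 R, η τ (a τ)‖ ^ p := by
  have hc : (0 : ℝ) < (Fintype.card A : ℝ) := by exact_mod_cast Fintype.card_pos
  have h := drop_units_update_sum (fun a : ι → A => ‖∑ τ ∈ insert τ0 R, η τ (a τ)‖ ^ p) τ0
  have h2 : (Fintype.card A : ℝ) * ∑ a : ι → A, ‖∑ τ ∈ R, η τ (a τ)‖ ^ p ≤
      ∑ a : ι → A, ∑ b : A, ‖∑ τ ∈ insert τ0 R, η τ ((Function.update a τ0 b) τ)‖ ^ p := by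
    rw [Finset.mul_sum]
    refine Finset.sum_le_sum fun a _ => ?_
    have h3 : ∀ b : A, ∑ τ ∈ insert τ0 R, η τ ((Function.update a τ0 b) τ) =
        η τ0 b + ∑ τ ∈ R, η τ (a τ) := by
      intro b
      rw [Finset.sum_insert h0, Function.update_self]
      congr 1
      refine Finset.sum_congr rfl fun τ hτ => ?_
      rw [Function.update_of_ne]
      rintro rfl
      exact h0 hτ
    simp only [h3]
    exact drop_units_jensen (η τ0) (hη τ0) _ p
  rw [h] at h2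
  exact le_of_mul_le_mul_left h2 hc

theorem drop_units {E ι A : Type*} [NormedAddCommGroup E] [NormedSpace ℝ E] [Fintype ι]
    [DecidableEq ι] [Fintype A] [Nonempty A] (η : ι → A → E) (hη : ∀ τ, ∑ a, η τ a = 0)
    (R : Finset ι) (p : ℕ) :
    avg (fun a : ι → A => ‖∑ τ ∈ R, η τ (a τ)‖ ^ p) ≤
      avg (fun a : ι → A => ‖∑ τ, η τ (a τ)‖ ^ p) := by
  have key : ∀ C : Finset ι, ∑ a : ι → A, ‖∑ τ ∈ R, η τ (a τ)‖ ^ p ≤
      ∑ a : ι → A, ‖∑ τ ∈ R ∪ C, η τ (a τ)‖ ^ p := by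
    intro C
    induction C using Finset.induction_on with
    | empty => simp
    | insert τ0 C _ ih =>
      refine ih.trans ?_
      rw [Finset.union_insert]
      by_cases h : τ0 ∈ R ∪ C
      · rw [Finset.insert_eq_of_mem h]
      · exact drop_units_step η hη (R ∪ C) p τ0 h
  have h := key Finset.univ
  rw [Finset.union_eq_right.2 (Finset.subset_univ R)] at h
  unfold avg
  exact div_le_div_of_nonneg_right h (by positivity)

end Pool.Agent.Helper190.SS
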