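import Pool.Agent.Helper190.SS.Defs
import Pool.Agent.Helper190.SS.P_drop_units

set_option autoImplicit false

open scoped BigOperators Matrix.Norms.L2Operator
open Matrix

namespace Pool.Agent.Helper190.SS



theorem single_mul_dI {N R : Type*} [Fintype N] [DecidableEq N] [DecidableEq R]
    (r : R) (j : N) (x : ℝ) (I : N → Bool) :
    Matrix.single r j x * dI I = if I j = true then Matrix.single r j x else 0 := by
  unfold dI
  ext s k
  rw [Matrix.mul_diagonal]
  by_cases hI : I j = true
  · rw [if_pos hI, Matrix.single_apply]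
    by_cases h : r = s ∧ j = k
    · obtain ⟨h1, h2⟩ := h
      subst h1; subst h2
      simp [hI]
    · rw [if_neg h, zero_mul]
  · rw [if_neg hI, Matrix.single_apply, Matrix.zero_apply]
    by_cases h : r = s ∧ j = k
    · obtain ⟨h1, h2⟩ := h
      subst h1; subst h2
      simp [hI]
    · rw [if_neg h, zero_mul]

theorem half_drop {N Z B : Type*} [Fintype N] [Fintype Z] [Fintype B] [DecidableEq N]
    [DecidableEq Z] [DecidableEq B] [Nonempty B] (c : ℝ)
    (P : Matrix N N ℝ) (I : N → Bool) (p : ℕ) :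
    avg (fun a : N × Z → Bool × B => ‖Smat c a * dI I * P‖ ^ p) ≤
      avg (fun a : N × Z → Bool × B => ‖Smat c a * P‖ ^ p) := by
  have hη : ∀ w : N × Z, ∑ q : Bool × B,
      (Matrix.single (w.2, q.2) w.1 (c * sgn q.1) : Matrix (Z × B) N ℝ) * P = 0 := by
    intro w
    rw [Fintype.sum_prod_type, Fintype.sum_bool, ← Finset.sum_add_distrib]
    apply Finset.sum_eq_zero
    intro b _
    rw [← Matrix.add_mul, ← Matrix.single_add]
    simp [sgn]
  have key := drop_units (E := Matrix (Z × B) N ℝ) (ι := N × Z) (A := Bool × B)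
    (fun w q => (Matrix.single (w.2, q.2) w.1 (c * sgn q.1) : Matrix (Z × B) N ℝ) * P) hη
    (Finset.univ.filter (fun w => I w.1 = true)) p
  have h1 : ∀ a : N × Z → Bool × B, Smat c a * dI I * P =
      ∑ τ ∈ Finset.univ.filter (fun w : N × Z => I w.1 = true),
        (Matrix.single (τ.2, (a τ).2) τ.1 (c * sgn (a τ).1) : Matrix (Z × B) N ℝ) * P := by
    intro a
    rw [← Matrix.sum_mul]
    congr 1
    unfold Smat
    rw [Matrix.sum_mul, Finset.sum_filter]
    refine Finset.sum_congr rfl (fun w _ => ?_)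
    rw [single_mul_dI]
  have h2 : ∀ a : N × Z → Bool × B, Smat c a * P =
      ∑ τ, (Matrix.single (τ.2, (a τ).2) τ.1 (c * sgn (a τ).1) : Matrix (Z × B) N ℝ) * P := by
    intro a
    rw [← Matrix.sum_mul]
    rfl
  simp only [h1, h2]
  exact key

end Pool.Agent.Helper190.SS
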