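import Pool.Agent.Helper190.SS.Defs

set_option autoImplicit false

open scoped BigOperators Matrix.Norms.L2Operator
open Matrix

namespace Pool.Agent.Helper190.SS



theorem norm_S_le {K N : Type*} [Fintype K] [DecidableEq K] [Fintype N] [DecidableEq N]
    (P : Matrix N N ℝ) (hs : Pᵀ = P) (hp : P * P = P) (S : Matrix K N ℝ) (M : ℕ) :
    ‖S * P‖ ^ (2 * M) ≤ 2 ^ M * (1 + ‖P * (Sᵀ * S - 1) * P‖ ^ M) := by
  classical
  have hPH : Pᴴ = P := by rw [Matrix.conjTranspose_eq_transpose_of_trivial, hs]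
  have hP1 : ‖P‖ ≤ 1 := by
    have h := Matrix.l2_opNorm_conjTranspose_mul_self P
    rw [hPH, hp] at h
    by_contra hc
    push Not at hc
    nlinarith [norm_nonneg P]
  set Z : ℝ := ‖P * (Sᵀ * S - 1) * P‖ with hZ
  have hZ0 : 0 ≤ Z := norm_nonneg _
  have h1 : ‖S * P‖ ^ 2 ≤ 1 + Z := by
    have h := Matrix.l2_opNorm_conjTranspose_mul_self (S * P)
    rw [Matrix.conjTranspose_mul, hPH, Matrix.conjTranspose_eq_transpose_of_trivial] at h
    have e : P * Sᵀ * (S * P) = P * (Sᵀ * S - 1) * P + P := by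
      rw [Matrix.mul_sub, Matrix.sub_mul, Matrix.mul_one, hp]
      simp only [Matrix.mul_assoc]
      abel
    rw [e] at h
    calc ‖S * P‖ ^ 2 = ‖S * P‖ * ‖S * P‖ := by ring
      _ = ‖P * (Sᵀ * S - 1) * P + P‖ := h.symm
      _ ≤ ‖P * (Sᵀ * S - 1) * P‖ + ‖P‖ := norm_add_le _ _
      _ ≤ 1 + Z := by rw [hZ]; linarith
  calc ‖S * P‖ ^ (2 * M) = (‖S * P‖ ^ 2) ^ M := by rw [pow_mul]
    _ ≤ (1 + Z) ^ M := pow_le_pow_left₀ (by positivity) h1 M
    _ ≤ (2 * max 1 Z) ^ M := by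
        apply pow_le_pow_left₀ (by linarith)
        have := le_max_left (1 : ℝ) Z
        have := le_max_right (1 : ℝ) Z
        linarith
    _ = 2 ^ M * (max 1 Z) ^ M := by rw [mul_pow]
    _ ≤ 2 ^ M * (1 + Z ^ M) := by
        apply mul_le_mul_of_nonneg_left _ (by positivity)
        rcases le_total 1 Z with h | h
        · rw [max_eq_right h]; linarith
        · rw [max_eq_left h, one_pow]
          have : 0 ≤ Z ^ M := pow_nonneg hZ0 M
          linarith

end Pool.Agent.Helper190.SS
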