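import Pool.Agent.Helper190.SS.Defs

set_option autoImplicit false

open scoped BigOperators Matrix.Norms.L2Operator
open Matrix

namespace Pool.Agent.Helper190.SS



lemma smat_entry542 {N Z B : Type*} [Fintype N] [Fintype Z] [DecidableEq N]
    [DecidableEq Z] [DecidableEq B] (c : ℝ) (a : N × Z → Bool × B) (j : N) (z : Z) (p : B) :
    Smat c a (z, p) j = if (a (j, z)).2 = p then c * sgn (a (j, z)).1 else 0 := by
  unfold Smat
  rw [Matrix.sum_apply, Finset.sum_eq_single (j, z)]
  · rw [Matrix.single_apply]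
    by_cases h : (a (j, z)).2 = p
    · rw [if_pos h, if_pos ⟨by rw [h], rfl⟩]
    · rw [if_neg h, if_neg]
      rintro ⟨h1, _⟩
      exact h (Prod.ext_iff.1 h1).2
  · intro w _ hw
    rw [Matrix.single_apply, if_neg]
    rintro ⟨h1, h2⟩
    exact hw (Prod.ext h2 (Prod.ext_iff.1 h1).1)
  · intro h
    exact absurd (Finset.mem_univ _) h

theorem smat_diag {N Z B : Type*} [Fintype N] [Fintype Z] [Fintype B] [DecidableEq N]
    [DecidableEq Z] [DecidableEq B] (c : ℝ) (hc : c ^ 2 * (Fintype.card Z : ℝ) = 1)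
    (a : N × Z → Bool × B) (j : N) : ((Smat c a)ᵀ * Smat c a) j j = 1 := by
  rw [Matrix.mul_apply, Fintype.sum_prod_type]
  have h1 : ∀ z : Z, ∑ p : B, (Smat c a)ᵀ j (z, p) * Smat c a (z, p) j = c ^ 2 := by
    intro z
    have h2 : ∀ p : B, (Smat c a)ᵀ j (z, p) * Smat c a (z, p) j =
        if (a (j, z)).2 = p then c ^ 2 else 0 := by
      intro p
      rw [Matrix.transpose_apply, smat_entry542]
      split_ifs
      · have h3 : sgn (a (j, z)).1 * sgn (a (j, z)).1 = 1 := by
          unfold sgn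
          split_ifs <;> norm_num
        calc c * sgn (a (j, z)).1 * (c * sgn (a (j, z)).1) =
              c ^ 2 * (sgn (a (j, z)).1 * sgn (a (j, z)).1) := by ring
          _ = c ^ 2 := by rw [h3, mul_one]
      · ring
    simp only [h2]
    rw [Finset.sum_ite_eq]
    simp
  simp only [h1]
  rw [Finset.sum_const, Finset.card_univ, nsmul_eq_mul, mul_comm]
  exact hc

end Pool.Agent.Helper190.SS
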