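import Pool.Agent.Helper190.SS.Defs

set_option autoImplicit false

open scoped BigOperators Matrix.Norms.L2Operator
open Matrix

namespace Pool.Agent.Helper190.SS



theorem smat_local {N Z B : Type*} [Fintype N] [Fintype Z] [Fintype B] [DecidableEq N]
    [DecidableEq Z] [DecidableEq B] (c : ℝ) (I : N → Bool) (a a' : N × Z → Bool × B)
    (h : ∀ w : N × Z, I w.1 = true → a w = a' w) : Smat c a * dI I = Smat c a' * dI I := by
  unfold Smat
  rw [Matrix.sum_mul, Matrix.sum_mul]
  apply Finset.sum_congr rfl
  intro w _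
  by_cases hw : I w.1 = true
  · rw [h w hw]
  · ext k j
    unfold dI
    rw [Matrix.mul_diagonal, Matrix.mul_diagonal, Matrix.single_apply, Matrix.single_apply]
    by_cases hj : w.1 = j
    · rw [← hj, if_neg hw, mul_zero, mul_zero]
    · have h1 : ∀ q : Z × B, ¬ (q = k ∧ w.1 = j) := fun q h2 => hj h2.2
      rw [if_neg (h1 _), if_neg (h1 _)]

end Pool.Agent.Helper190.SS
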