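import Pool.Agent.Helper190.SS.Defs

set_option autoImplicit false

open scoped BigOperators Matrix.Norms.L2Operator
open Matrix

namespace Pool.Agent.Helper190.SS



theorem split_indep {W A : Type*} [Fintype W] [DecidableEq W] [Fintype A] [Nonempty A]
    (J : W → Bool) (F : (W → A) → (W → A) → ℝ)
    (h1 : ∀ a a' c, (∀ w, J w = true → a w = a' w) → F a c = F a' c)
    (h2 : ∀ a c c', (∀ w, J w = false → c w = c' w) → F a c = F a c') :
    avg (fun a => F a a) = avg (fun c => avg (fun a => F a c)) := by
  classical
  let m : (W → A) → (W → A) → (W → A) := fun a c w => if J w then a w else c w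
  have hF : ∀ a c, F a c = F (m a c) (m a c) := by
    intro a c
    rw [h1 a (m a c) c (by intro w hw; simp [m, hw])]
    rw [h2 (m a c) c (m a c) (by intro w hw; simp [m, hw])]
  let Φ : (W → A) × (W → A) ≃ (W → A) × (W → A) :=
    { toFun := fun p => (m p.1 p.2, m p.2 p.1)
      invFun := fun p => (m p.1 p.2, m p.2 p.1)
      left_inv := by
        rintro ⟨a, c⟩
        ext w <;> by_cases h : J w <;> simp [m, h]
      right_inv := by
        rintro ⟨a, c⟩
        ext w <;> by_cases h : J w <;> simp [m, h] }
  have hs : ∑ c : W → A, ∑ a : W → A, F a c =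
      (Fintype.card (W → A) : ℝ) * ∑ b : W → A, F b b := by
    rw [Finset.sum_comm]
    calc ∑ a : W → A, ∑ c : W → A, F a c
        = ∑ p : (W → A) × (W → A), F p.1 p.2 := by rw [Fintype.sum_prod_type]
      _ = ∑ p : (W → A) × (W → A), F (Φ p).1 (Φ p).1 := by
          refine Finset.sum_congr rfl fun p _ => ?_
          exact hF p.1 p.2
      _ = ∑ p : (W → A) × (W → A), F p.1 p.1 :=
          Equiv.sum_comp Φ (fun p => F p.1 p.1)
      _ = ∑ a : W → A, ∑ _c : W → A, F a a := by rw [Fintype.sum_prod_type]
      _ = _ := by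
          rw [Finset.mul_sum]
          refine Finset.sum_congr rfl fun a _ => ?_
          simp
  have hn : (Fintype.card (W → A) : ℝ) ≠ 0 := by
    have : 0 < Fintype.card (W → A) := Fintype.card_pos
    exact_mod_cast this.ne'
  unfold avg
  rw [← Finset.sum_div, hs]
  field_simp

end Pool.Agent.Helper190.SS
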