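import Pool.Agent.Helper190.SS.Defs

set_option autoImplicit false

open scoped BigOperators Matrix.Norms.L2Operator
open Matrix

namespace Pool.Agent.Helper190.SS



theorem poissonize_avg_count {W : Type*} [Fintype W] [DecidableEq W] (v : W) :
    (Finset.univ.filter (fun w : W → W => ¬ v ∈ Finset.univ.image w)).card =
      (Fintype.card W - 1) ^ (Fintype.card W) := by
  have e : Finset.univ.filter (fun w : W → W => ¬ v ∈ Finset.univ.image w) =
      Fintype.piFinset (fun _ : W => Finset.univ.erase v) := by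
    ext w
    simp only [Finset.mem_filter, Finset.mem_univ, true_and, Finset.mem_image, not_exists,
      Fintype.mem_piFinset, Finset.mem_erase, and_true, ne_eq]
  rw [e, Fintype.card_piFinset]
  simp [Finset.card_erase_of_mem]

theorem poissonize_avg_half (T : ℕ) (hT : 1 ≤ T) :
    2 * ((T - 1 : ℕ) : ℝ) ^ T ≤ (T : ℝ) ^ T := by
  obtain ⟨n, rfl⟩ := Nat.exists_eq_add_of_le hT
  rw [Nat.add_sub_cancel_left]
  rcases Nat.eq_zero_or_pos n with rfl | hn
  · simp
  · have hn' : (0:ℝ) < n := by exact_mod_cast hn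
    have h1 : (-2:ℝ) ≤ 1 / n := by
      have : (0:ℝ) < 1 / n := by positivity
      linarith
    have h2 := one_add_mul_le_pow h1 (1 + n)
    have h3 : (2:ℝ) ≤ 1 + ((1 + n : ℕ) : ℝ) * (1 / n) := by
      push_cast
      have : (1 + (n:ℝ)) * (1 / n) = 1 / n + 1 := by field_simp
      rw [this]
      have : (0:ℝ) < 1 / n := by positivity
      linarith
    have h4 : ((1 + n : ℕ) : ℝ) ^ (1 + n) = (n:ℝ) ^ (1 + n) * (1 + 1 / (n:ℝ)) ^ (1 + n) := by
      rw [← mul_pow]
      congr 1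
      push_cast
      field_simp
      ring
    rw [h4, mul_comm]
    exact mul_le_mul_of_nonneg_left (h3.trans h2) (by positivity)

theorem poissonize_avg {E W : Type*} [NormedAddCommGroup E] [NormedSpace ℝ E] [Fintype W]
    [DecidableEq W] [Nonempty W] (x : W → E) (p : ℕ) :
    ‖∑ v, x v‖ ^ p ≤ 2 ^ p * avg (fun w : W → W => ‖∑ v ∈ Finset.univ.image w, x v‖ ^ p) := by
  classical
  set T : ℕ := Fintype.card W with hT
  have hT1 : 1 ≤ T := Fintype.card_pos
  set S : E := ∑ v, x v with hS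
  have hN : Fintype.card (W → W) = T ^ T := by rw [Fintype.card_fun]
  have hcard : ∀ v : W, ((Finset.univ.filter (fun w : W → W => v ∈ Finset.univ.image w)).card : ℝ) =
      (T:ℝ) ^ T - ((T - 1 : ℕ) : ℝ) ^ T := by
    intro v
    have h1 := Finset.card_filter_add_card_filter_not (s := (Finset.univ : Finset (W → W)))
      (fun w : W → W => v ∈ Finset.univ.image w)
    rw [poissonize_avg_count v, Finset.card_univ, hN] at h1
    have h2 : ((Finset.univ.filter (fun w : W → W => v ∈ Finset.univ.image w)).card : ℝ) +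
      ((T - 1 : ℕ) : ℝ) ^ T = (T:ℝ) ^ T := by exact_mod_cast h1
    linarith
  have hsum : ∑ w : W → W, ∑ v ∈ Finset.univ.image w, x v =
      ((T:ℝ) ^ T - ((T - 1 : ℕ) : ℝ) ^ T) • S := by
    have h1 : ∀ w : W → W, ∑ v ∈ Finset.univ.image w, x v =
        ∑ v, if v ∈ Finset.univ.image w then x v else 0 := by
      intro w
      rw [← Finset.sum_filter]
      congr 1
      ext v
      simp
    simp only [h1]
    rw [Finset.sum_comm, hS, Finset.smul_sum]
    apply Finset.sum_congr rfl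
    intro v _
    rw [← Finset.sum_filter, Finset.sum_const, ← hcard v, Nat.cast_smul_eq_nsmul]
  have hNpos : (0:ℝ) < (T:ℝ) ^ T := by positivity
  have hhalf := poissonize_avg_half T hT1
  have hSn : ‖S‖ ≤ 2 * ∑ w : W → W, (1 / (T:ℝ) ^ T) * ‖∑ v ∈ Finset.univ.image w, x v‖ := by
    have h1 : ((T:ℝ) ^ T - ((T - 1 : ℕ) : ℝ) ^ T) * ‖S‖ ≤
        ∑ w : W → W, ‖∑ v ∈ Finset.univ.image w, x v‖ := by
      have h2 : 0 ≤ (T:ℝ) ^ T - ((T - 1 : ℕ) : ℝ) ^ T := by
        have : (0:ℝ) ≤ ((T - 1 : ℕ) : ℝ) ^ T := by positivity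
        linarith
      calc ((T:ℝ) ^ T - ((T - 1 : ℕ) : ℝ) ^ T) * ‖S‖ =
            ‖((T:ℝ) ^ T - ((T - 1 : ℕ) : ℝ) ^ T) • S‖ := by
            rw [norm_smul, Real.norm_eq_abs, abs_of_nonneg h2]
        _ = ‖∑ w : W → W, ∑ v ∈ Finset.univ.image w, x v‖ := by rw [hsum]
        _ ≤ _ := norm_sum_le _ _
    have h2 : (T:ℝ) ^ T / 2 * ‖S‖ ≤ ∑ w : W → W, ‖∑ v ∈ Finset.univ.image w, x v‖ := by
      refine le_trans (mul_le_mul_of_nonneg_right ?_ (norm_nonneg _)) h1
      linarith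
    rw [← Finset.mul_sum]
    have h3 : ‖S‖ = 2 * (1 / (T:ℝ) ^ T * ((T:ℝ) ^ T / 2 * ‖S‖)) := by
      field_simp
    rw [h3]
    apply mul_le_mul_of_nonneg_left _ (by norm_num)
    exact mul_le_mul_of_nonneg_left h2 (by positivity)
  have hmean := Real.pow_arith_mean_le_arith_mean_pow (Finset.univ : Finset (W → W))
    (fun _ => 1 / (T:ℝ) ^ T) (fun w => ‖∑ v ∈ Finset.univ.image w, x v‖)
    (fun _ _ => by positivity) (by
      rw [Finset.sum_const, Finset.card_univ, hN, nsmul_eq_mul]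
      push_cast
      field_simp) (fun _ _ => norm_nonneg _) p
  calc ‖S‖ ^ p ≤ (2 * ∑ w : W → W, (1 / (T:ℝ) ^ T) * ‖∑ v ∈ Finset.univ.image w, x v‖) ^ p :=
        pow_le_pow_left₀ (norm_nonneg _) hSn p
    _ = 2 ^ p * (∑ w : W → W, (1 / (T:ℝ) ^ T) * ‖∑ v ∈ Finset.univ.image w, x v‖) ^ p := by
        rw [mul_pow]
    _ ≤ 2 ^ p * ∑ w : W → W, (1 / (T:ℝ) ^ T) * ‖∑ v ∈ Finset.univ.image w, x v‖ ^ p :=
        mul_le_mul_of_nonneg_left hmean (by positivity)
    _ = 2 ^ p * avg (fun w : W → W => ‖∑ v ∈ Finset.univ.image w, x v‖ ^ p) := by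
        rw [avg, hN, ← Finset.mul_sum]
        push_cast
        ring

end Pool.Agent.Helper190.SS
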