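import Pool.Agent.Helper190.SS.Defs
import Pool.Agent.Helper190.SS.P_drop_units

set_option autoImplicit false

open scoped BigOperators Matrix.Norms.L2Operator
open Matrix

namespace Pool.Agent.Helper190.SS



theorem poissonize_fix {E W A : Type*} [NormedAddCommGroup E] [NormedSpace ℝ E] [Fintype W]
    [DecidableEq W] [Fintype A] [Nonempty A] (ξ : W → A → E) (hξ : ∀ w, ∑ a, ξ w a = 0)
    (w : W → W) (p : ℕ) :
    avg (fun a : W → A => ‖∑ v ∈ Finset.univ.image w, ξ v (a v)‖ ^ p) ≤
      avg (fun a : W → A => ‖∑ τ, ξ (w τ) (a τ)‖ ^ p) := by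
  classical
  have hsec : ∀ v : W, ∃ u : W, v ∈ Finset.univ.image w → w u = v := by
    intro v
    by_cases hv : v ∈ Finset.univ.image w
    · obtain ⟨u, _, hu⟩ := Finset.mem_image.1 hv
      exact ⟨u, fun _ => hu⟩
    · exact ⟨v, fun h => absurd h hv⟩
  choose f hf using hsec
  have hinj : Set.InjOn f (Finset.univ.image w : Finset W) := by
    intro v hv v' hv' h
    rw [← hf v hv, ← hf v' hv', h]
  obtain ⟨g, hg⟩ := Finset.exists_equiv_extend_of_card_eq (α := W) (β := W)
    (t := Finset.univ) (by rw [Finset.card_univ]) (s := Finset.univ.image w) (f := f)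
    (Finset.subset_univ _) hinj
  let e : W ≃ W := g.trans ((Equiv.subtypeUnivEquiv (fun x => Finset.mem_univ x)))
  have he : ∀ v ∈ Finset.univ.image w, e v = f v := fun v hv => hg v hv
  have h1 := drop_units (fun τ => ξ (w τ)) (fun τ => hξ (w τ)) ((Finset.univ.image w).image f) p
  refine le_trans (le_of_eq ?_) h1
  have h2 : ∀ a : W → A, ∑ τ ∈ (Finset.univ.image w).image f, ξ (w τ) (a τ) =
      ∑ v ∈ Finset.univ.image w, ξ v ((a ∘ e) v) := by
    intro a
    rw [Finset.sum_image hinj]
    apply Finset.sum_congr rfl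
    intro v hv
    rw [hf v hv, Function.comp_apply, he v hv]
  simp only [h2]
  unfold avg
  congr 1
  exact (Equiv.sum_comp (Equiv.arrowCongr e.symm (Equiv.refl A))
    (fun a : W → A => ‖∑ v ∈ Finset.univ.image w, ξ v (a v)‖ ^ p)).symm

end Pool.Agent.Helper190.SS
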