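import Pool.Agent.Helper190.SS.Defs
import Pool.Agent.Helper190.SS.P_poissonize_fix
import Pool.Agent.Helper190.SS.P_poissonize_avg

set_option autoImplicit false

open scoped BigOperators Matrix.Norms.L2Operator
open Matrix

namespace Pool.Agent.Helper190.SS



theorem pz_mono {Ω : Type*} [Fintype Ω] (f g : Ω → ℝ) (h : ∀ ω, f ω ≤ g ω) : avg f ≤ avg g := by
  unfold avg
  exact div_le_div_of_nonneg_right (Finset.sum_le_sum (fun ω _ => h ω)) (Nat.cast_nonneg _)

theorem pz_mul {Ω : Type*} [Fintype Ω] (c : ℝ) (f : Ω → ℝ) :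
    avg (fun ω => c * f ω) = c * avg f := by
  unfold avg
  rw [← Finset.mul_sum, mul_div_assoc]

theorem pz_comm {Ω Ω' : Type*} [Fintype Ω] [Fintype Ω'] (f : Ω → Ω' → ℝ) :
    avg (fun ω => avg (fun ω' => f ω ω')) = avg (fun ω' => avg (fun ω => f ω ω')) := by
  unfold avg
  rw [← Finset.sum_div, ← Finset.sum_div, Finset.sum_comm]
  ring

theorem pz_equiv {Ω Ω' : Type*} [Fintype Ω] [Fintype Ω'] (e : Ω ≃ Ω') (f : Ω' → ℝ) :
    avg (fun ω => f (e ω)) = avg f := by
  unfold avg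
  rw [Equiv.sum_comp e f, Fintype.card_congr e]

theorem pz_prod {Ω Ω' : Type*} [Fintype Ω] [Fintype Ω'] (f : Ω × Ω' → ℝ) :
    avg (fun ω => avg (fun ω' => f (ω, ω'))) = avg f := by
  unfold avg
  rw [← Finset.sum_div, Fintype.sum_prod_type, Fintype.card_prod]
  push_cast
  rw [div_div, mul_comm]

theorem poissonize {E W A : Type*} [NormedAddCommGroup E] [NormedSpace ℝ E] [Fintype W]
    [DecidableEq W] [Nonempty W] [Fintype A] [Nonempty A] (ξ : W → A → E)
    (hξ : ∀ w, ∑ a, ξ w a = 0) (p : ℕ) :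
    avg (fun a : W → A => ‖∑ v, ξ v (a v)‖ ^ p) ≤
      2 ^ p * avg (fun θ : W → W × A => ‖∑ τ, ξ (θ τ).1 (θ τ).2‖ ^ p) := by
  calc avg (fun a : W → A => ‖∑ v, ξ v (a v)‖ ^ p)
      ≤ avg (fun a : W → A => 2 ^ p *
          avg (fun w : W → W => ‖∑ v ∈ Finset.univ.image w, ξ v (a v)‖ ^ p)) :=
        pz_mono _ _ (fun a => poissonize_avg (fun v => ξ v (a v)) p)
    _ = 2 ^ p * avg (fun w : W → W => avg (fun a : W → A =>
          ‖∑ v ∈ Finset.univ.image w, ξ v (a v)‖ ^ p)) := by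
        rw [pz_mul, pz_comm]
    _ ≤ 2 ^ p * avg (fun w : W → W => avg (fun a : W → A =>
          ‖∑ τ, ξ (w τ) (a τ)‖ ^ p)) := by
        apply mul_le_mul_of_nonneg_left _ (by positivity)
        exact pz_mono _ _ (fun w => poissonize_fix ξ hξ w p)
    _ = 2 ^ p * avg (fun θ : W → W × A => ‖∑ τ, ξ (θ τ).1 (θ τ).2‖ ^ p) := by
        congr 1
        rw [← pz_equiv (Equiv.arrowProdEquivProdArrow W (fun _ => W) (fun _ => A)).symm,
          ← pz_prod]
        rfl

end Pool.Agent.Helper190.SS
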