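import Pool.Agent.Helper190.SS.Defs

set_option autoImplicit false

open scoped BigOperators Matrix.Norms.L2Operator
open Matrix

namespace Pool.Agent.Helper190.SS



/-- the reindexing of the value type -/
def xlEquiv (N Z B : Type*) : (N × Z) × (Bool × B) ≃ ((Z × B) × N) × Bool where
  toFun x := (((x.1.2, x.2.2), x.1.1), x.2.1)
  invFun y := ((y.1.2, y.1.1.1), (y.2, y.1.1.2))
  left_inv := fun ⟨⟨_, _⟩, ⟨_, _⟩⟩ => rfl
  right_inv := fun ⟨⟨⟨_, _⟩, _⟩, _⟩ => rfl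

theorem xl_avg {Ω Ω' : Type*} [Fintype Ω] [Fintype Ω'] (E : Ω ≃ Ω') (f : Ω → ℝ) (f' : Ω' → ℝ)
    (h : ∀ ω, f ω = f' (E ω)) : avg f = avg f' := by
  unfold avg
  rw [Fintype.card_congr E, Fintype.sum_equiv E f f' h]

theorem xmat_link {N Z B : Type*} [Fintype N] [Fintype Z] [Fintype B] [DecidableEq N]
    [DecidableEq Z] [DecidableEq B] (c : ℝ) (g : Matrix (Z × B) N ℝ → ℝ) :
    avg (fun θ : N × Z → (N × Z) × (Bool × B) =>
        g (∑ τ, Matrix.single ((θ τ).1.2, (θ τ).2.2) (θ τ).1.1 (c * sgn (θ τ).2.1))) =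
      avg (fun θ : N × Z → ((Z × B) × N) × Bool => g (Xmat c θ)) := by
  apply xl_avg (Equiv.piCongrRight (fun _ : N × Z => xlEquiv N Z B))
  intro θ
  rfl

end Pool.Agent.Helper190.SS
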