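import Pool.Agent.Helper190.SS.Defs
import Pool.Agent.Helper190.SS.P_poissonize
import Pool.Agent.Helper190.SS.P_xmat_link

set_option autoImplicit false

open scoped BigOperators Matrix.Norms.L2Operator
open Matrix

namespace Pool.Agent.Helper190.SS



theorem step_fixed {N Z B : Type*} [Fintype N] [Fintype Z] [Fintype B] [DecidableEq N]
    [DecidableEq Z] [DecidableEq B] [Nonempty N] [Nonempty Z] [Nonempty B] (c : ℝ)
    (P : Matrix N N ℝ) (I : N → Bool) (A : Matrix (Z × B) N ℝ) (p : ℕ) :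
    avg (fun a : N × Z → Bool × B => ‖P * dI I * (Smat c a)ᵀ * A‖ ^ p) ≤
      2 ^ p * avg (fun θ : N × Z → ((Z × B) × N) × Bool =>
        ‖P * dI I * (Xmat c θ)ᵀ * A‖ ^ p) := by
  classical
  have key := poissonize (W := N × Z) (A := Bool × B) (E := Matrix N N ℝ)
    (fun w a => P * dI I * (Matrix.single (w.2, a.2) w.1 (c * sgn a.1))ᵀ * A) (by
      intro w
      rw [Fintype.sum_prod_type, Fintype.sum_bool, ← Finset.sum_add_distrib]
      apply Finset.sum_eq_zero
      intro b _
      rw [← Matrix.add_mul, ← Matrix.mul_add, ← Matrix.transpose_add, ← Matrix.single_add]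
      simp [sgn]) p
  have h1 : ∀ a : N × Z → Bool × B,
      (∑ v, P * dI I * (Matrix.single (v.2, (a v).2) v.1 (c * sgn (a v).1))ᵀ * A) =
        P * dI I * (Smat c a)ᵀ * A := by
    intro a
    rw [Smat, Matrix.transpose_sum, Matrix.mul_sum, Matrix.sum_mul]
  have h2 : ∀ θ : N × Z → (N × Z) × (Bool × B),
      (∑ τ, P * dI I * (Matrix.single ((θ τ).1.2, (θ τ).2.2) (θ τ).1.1
        (c * sgn (θ τ).2.1))ᵀ * A) =
        P * dI I * (∑ τ, Matrix.single ((θ τ).1.2, (θ τ).2.2) (θ τ).1.1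
          (c * sgn (θ τ).2.1))ᵀ * A := by
    intro θ
    rw [Matrix.transpose_sum, Matrix.mul_sum, Matrix.sum_mul]
  have h3 := xmat_link (N := N) (Z := Z) (B := B) c (fun X => ‖P * dI I * Xᵀ * A‖ ^ p)
  simp only [h1, h2] at key
  rw [h3] at key
  exact key

end Pool.Agent.Helper190.SS
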