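import Pool.Agent.Helper190.SS.Defs

set_option autoImplicit false

open scoped BigOperators Matrix.Norms.L2Operator
open Matrix

namespace Pool.Agent.Helper190.SS



open scoped MatrixOrder in
theorem good_of_psd_sq {N : Type*} [Fintype N] [DecidableEq N] (G : Matrix N N ℝ)
    (hG : G.PosSemidef) : ∃ C : Matrix N N ℝ, G = Cᵀ * C := by
  have h : 0 ≤ G := hG.nonneg
  refine ⟨CFC.sqrt G, ?_⟩
  have h1 := CFC.sqrt_mul_sqrt_self G h
  have h2 : (CFC.sqrt G).IsHermitian := (CFC.sqrt_nonneg G).posSemidef.1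
  have h3 : (CFC.sqrt G)ᵀ = CFC.sqrt G := by
    rw [← conjTranspose_eq_transpose_of_trivial]
    exact h2
  rw [h3, h1]

theorem good_of_psd_quad {N : Type*} [Fintype N] [DecidableEq N] (B : Matrix N N ℝ)
    (c : N → ℝ) : |c ⬝ᵥ (B *ᵥ c)| ≤ ‖B‖ * ∑ k, c k ^ 2 := by
  have h1 := B.l2_opNorm_mulVec (WithLp.toLp 2 c)
  have h2 := abs_real_inner_le_norm (WithLp.toLp 2 c : EuclideanSpace ℝ N)
    (WithLp.toLp 2 (B *ᵥ c) : EuclideanSpace ℝ N)
  have h3 : inner ℝ (WithLp.toLp 2 c : EuclideanSpace ℝ N)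
    (WithLp.toLp 2 (B *ᵥ c) : EuclideanSpace ℝ N) = c ⬝ᵥ (B *ᵥ c) := by
    rw [EuclideanSpace.inner_eq_star_dotProduct]
    simp [dotProduct_comm]
  have h4 : ‖(WithLp.toLp 2 (B *ᵥ c) : EuclideanSpace ℝ N)‖ ≤
      ‖B‖ * ‖(WithLp.toLp 2 c : EuclideanSpace ℝ N)‖ := h1
  have h5 : ‖(WithLp.toLp 2 c : EuclideanSpace ℝ N)‖ ^ 2 = ∑ k, c k ^ 2 := by
    rw [EuclideanSpace.norm_sq_eq]
    simp
  rw [h3] at h2
  rw [← h5]
  have h6 := norm_nonneg (WithLp.toLp 2 c : EuclideanSpace ℝ N)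
  nlinarith

theorem good_of_psd {N : Type*} [Fintype N] [DecidableEq N] (r : ℕ) (G : Matrix N N ℝ)
    (hG : G.PosSemidef) (h1 : ‖G‖ ≤ 1) (ht : G.trace ≤ r) : Good r G := by
  refine ⟨?_, h1, ?_⟩
  · have := hG.1
    unfold Matrix.IsHermitian at this
    rw [conjTranspose_eq_transpose_of_trivial] at this
    exact this
  · intro B
    obtain ⟨C, hC⟩ := good_of_psd_sq G hG
    have e1 : Matrix.trace (G * B) = ∑ i, (C i) ⬝ᵥ (B *ᵥ (C i)) := by
      rw [hC, Matrix.mul_assoc, Matrix.trace_mul_comm]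
      unfold Matrix.trace
      apply Finset.sum_congr rfl
      intro i _
      rw [Matrix.diag_apply, Matrix.mul_assoc, Matrix.mul_apply]
      unfold dotProduct
      apply Finset.sum_congr rfl
      intro k _
      congr 1
    have e2 : Matrix.trace G = ∑ i, ∑ k, C i k ^ 2 := by
      rw [hC, Matrix.trace_mul_comm]
      unfold Matrix.trace
      apply Finset.sum_congr rfl
      intro i _
      rw [Matrix.diag_apply, Matrix.mul_apply]
      apply Finset.sum_congr rfl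
      intro k _
      rw [Matrix.transpose_apply, sq]
    rw [e1]
    calc |∑ i, (C i) ⬝ᵥ (B *ᵥ (C i))| ≤ ∑ i, |(C i) ⬝ᵥ (B *ᵥ (C i))| :=
          Finset.abs_sum_le_sum_abs _ _
      _ ≤ ∑ i, ‖B‖ * ∑ k, C i k ^ 2 := Finset.sum_le_sum (fun i _ => good_of_psd_quad B (C i))
      _ = Matrix.trace G * ‖B‖ := by rw [← Finset.mul_sum, e2, mul_comm]
      _ ≤ r * ‖B‖ := mul_le_mul_of_nonneg_right ht (norm_nonneg _)

end Pool.Agent.Helper190.SS
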