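import Pool.Agent.Helper190.SS.Defs
import Pool.Agent.Helper190.SS.P_good_of_psd

set_option autoImplicit false

open scoped BigOperators Matrix.Norms.L2Operator
open Matrix

namespace Pool.Agent.Helper190.SS



theorem good_gram {K N : Type*} [Fintype K] [DecidableEq K] [Fintype N] [DecidableEq N] (r : ℕ)
    (P : Matrix N N ℝ) (hs : Pᵀ = P) (hp : P * P = P) (ht : P.trace = r)
    (A : Matrix K N ℝ) (hA : A * P = A) (hne : A ≠ 0) :
    Good r ((‖A‖ ^ 2)⁻¹ • (A * Aᵀ)) := by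
  have hA0 : 0 < ‖A‖ := norm_pos_iff.mpr hne
  have hPc : Pᴴ = P := by rw [conjTranspose_eq_transpose_of_trivial, hs]
  have hPpsd : P.PosSemidef := by
    have h := Matrix.posSemidef_conjTranspose_mul_self P
    rwa [hPc, hp] at h
  have hPn : ‖P‖ ≤ 1 := by
    have h := Matrix.l2_opNorm_conjTranspose_mul_self P
    rw [hPc, hp] at h
    rcases (norm_nonneg P).eq_or_lt with h0 | h0
    · rw [← h0]; norm_num
    · have h2 : ‖P‖ * 1 = ‖P‖ * ‖P‖ := by rw [mul_one]; exact h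
      exact (mul_left_cancel₀ h0.ne' h2).ge
  have hGP : Good r P := good_of_psd r P hPpsd hPn ht.le
  have hAT : Aᴴ = Aᵀ := conjTranspose_eq_transpose_of_trivial A
  have hn1 : ‖Aᵀ * A‖ = ‖A‖ * ‖A‖ := by
    have h := Matrix.l2_opNorm_conjTranspose_mul_self A
    rwa [hAT] at h
  have hn3 : ‖Aᵀ‖ = ‖A‖ := by
    have h := Matrix.l2_opNorm_conjTranspose A
    rwa [hAT] at h
  have hn2 : ‖A * Aᵀ‖ = ‖A‖ * ‖A‖ := by
    have h := Matrix.l2_opNorm_conjTranspose_mul_self Aᵀ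
    rw [conjTranspose_eq_transpose_of_trivial, Matrix.transpose_transpose, hn3] at h
    exact h
  have htr : (A * Aᵀ).trace ≤ (r : ℝ) * (‖A‖ * ‖A‖) := by
    have h1 : (A * Aᵀ).trace = (P * (Aᵀ * A)).trace := by
      rw [Matrix.trace_mul_comm A Aᵀ, Matrix.trace_mul_comm P, Matrix.mul_assoc, hA]
    have h2 := hGP.2.2 (Aᵀ * A)
    rw [hn1] at h2
    rw [h1]
    exact (le_abs_self _).trans h2
  have hinv : 0 < (‖A‖ ^ 2)⁻¹ := by positivity
  refine good_of_psd r _ ?_ ?_ ?_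
  · have h := Matrix.posSemidef_self_mul_conjTranspose A
    rw [hAT] at h
    exact h.smul hinv.le
  · rw [norm_smul, Real.norm_of_nonneg hinv.le, hn2, ← pow_two, inv_mul_cancel₀ (by positivity)]
  · rw [Matrix.trace_smul, smul_eq_mul]
    calc (‖A‖ ^ 2)⁻¹ * (A * Aᵀ).trace ≤ (‖A‖ ^ 2)⁻¹ * ((r : ℝ) * (‖A‖ * ‖A‖)) :=
          mul_le_mul_of_nonneg_left htr hinv.le
      _ = r := by
          field_simp

end Pool.Agent.Helper190.SS
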