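import Pool.Agent.Helper190.SS.Defs
import Pool.Agent.Helper190.SS.P_good_of_psd

set_option autoImplicit false

open scoped BigOperators Matrix.Norms.L2Operator
open Matrix

namespace Pool.Agent.Helper190.SS



theorem norm_proj_le {N : Type*} [Fintype N] [DecidableEq N] (P : Matrix N N ℝ)
    (hs : Pᵀ = P) (hp : P * P = P) : ‖P‖ ≤ 1 := by
  have h := Matrix.l2_opNorm_conjTranspose_mul_self P
  rw [Matrix.conjTranspose_eq_transpose_of_trivial, hs, hp] at h
  have h0 := norm_nonneg P
  by_contra hcon
  push Not at hcon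
  nlinarith

theorem good_proj {N : Type*} [Fintype N] [DecidableEq N] (r : ℕ) (P : Matrix N N ℝ)
    (hs : Pᵀ = P) (hp : P * P = P) (ht : P.trace = r) (I : N → Bool) :
    Good r (dI I * P * dI I) := by
  have hDs : (dI I)ᵀ = dI I := by
    unfold dI
    rw [Matrix.diagonal_transpose]
  have hDp : dI I * dI I = dI I := by
    unfold dI
    rw [Matrix.diagonal_mul_diagonal]
    congr 1
    funext j
    by_cases h : I j <;> simp [h]
  have hP1 := norm_proj_le P hs hp
  have hD1 := norm_proj_le (dI I) hDs hDp
  apply good_of_psd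
  · have h := Matrix.posSemidef_conjTranspose_mul_self (P * dI I)
    rw [Matrix.conjTranspose_mul, Matrix.conjTranspose_eq_transpose_of_trivial,
      Matrix.conjTranspose_eq_transpose_of_trivial, hs, hDs] at h
    have e : dI I * P * (P * dI I) = dI I * P * dI I := by
      calc dI I * P * (P * dI I) = dI I * (P * P) * dI I := by simp only [Matrix.mul_assoc]
        _ = _ := by rw [hp]
    rwa [e] at h
  · calc ‖dI I * P * dI I‖ ≤ ‖dI I * P‖ * ‖dI I‖ := Matrix.l2_opNorm_mul _ _
      _ ≤ (‖dI I‖ * ‖P‖) * ‖dI I‖ :=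
        mul_le_mul_of_nonneg_right (Matrix.l2_opNorm_mul _ _) (norm_nonneg _)
      _ ≤ (1 * 1) * 1 := by
        gcongr
      _ = 1 := by norm_num
  · rw [← ht]
    unfold Matrix.trace
    apply Finset.sum_le_sum
    intro j _
    have hj : 0 ≤ P j j := by
      have h : P j j = (Pᵀ * P) j j := by rw [hs, hp]
      rw [h, Matrix.mul_apply]
      apply Finset.sum_nonneg
      intro i _
      rw [Matrix.transpose_apply]
      exact mul_self_nonneg _
    simp only [Matrix.diag_apply]
    unfold dI
    rw [Matrix.mul_diagonal, Matrix.diagonal_mul]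
    by_cases h : I j <;> simp [h, hj]

end Pool.Agent.Helper190.SS
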