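import Pool.Agent.Helper190.SS.Defs

set_option autoImplicit false

open scoped BigOperators Matrix.Norms.L2Operator
open Matrix

namespace Pool.Agent.Helper190.SS



theorem opNorm_sq_le_trace {K N : Type*} [Fintype K] [DecidableEq K] [Fintype N] [DecidableEq N]
    (Y : Matrix K N ℝ) : ‖Y‖ ^ 2 ≤ Matrix.trace (Yᵀ * Y) := by
  have htr : Matrix.trace (Yᵀ * Y) = ∑ i, ∑ j, Y i j ^ 2 := by
    rw [Matrix.trace, Finset.sum_comm]
    apply Finset.sum_congr rfl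
    intro j _
    rw [Matrix.diag_apply, Matrix.mul_apply]
    apply Finset.sum_congr rfl
    intro i _
    rw [Matrix.transpose_apply]
    ring
  have h0 : 0 ≤ Matrix.trace (Yᵀ * Y) := by
    rw [htr]
    positivity
  have h1 : ‖Y‖ ≤ Real.sqrt (Matrix.trace (Yᵀ * Y)) := by
    rw [Matrix.l2_opNorm_def]
    apply ContinuousLinearMap.opNorm_le_bound _ (Real.sqrt_nonneg _)
    intro x
    rw [← Real.sqrt_sq (norm_nonneg x), ← Real.sqrt_mul h0]
    apply Real.le_sqrt_of_sq_le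
    rw [EuclideanSpace.real_norm_sq_eq, EuclideanSpace.real_norm_sq_eq, htr, Finset.sum_mul]
    apply Finset.sum_le_sum
    intro i _
    have h2 : ((Matrix.toEuclideanLin (𝕜 := ℝ) ≪≫ₗ LinearMap.toContinuousLinearMap) Y x) i
        = ∑ j, Y i j * x j := by
      rfl
    rw [h2]
    exact Finset.sum_mul_sq_le_sq_mul_sq _ _ _
  calc ‖Y‖ ^ 2 ≤ Real.sqrt (Matrix.trace (Yᵀ * Y)) ^ 2 := by gcongr
    _ = _ := Real.sq_sqrt h0

theorem norm_symm_pow {N : Type*} [Fintype N] [DecidableEq N] (B : Matrix N N ℝ) (hB : Bᵀ = B)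
    (l : ℕ) : ‖B ^ (2 ^ l)‖ = ‖B‖ ^ (2 ^ l) := by
  induction l with
  | zero => simp
  | succ l ih =>
    have hs : (B ^ (2 ^ l))ᵀ = B ^ (2 ^ l) := by rw [Matrix.transpose_pow, hB]
    have h1 : B ^ (2 ^ (l + 1)) = (B ^ (2 ^ l))ᴴ * B ^ (2 ^ l) := by
      rw [Matrix.conjTranspose_eq_transpose_of_trivial, hs, ← pow_add]
      congr 1
      ring
    rw [h1, Matrix.l2_opNorm_conjTranspose_mul_self, ih, ← pow_add]
    congr 1
    ring

theorem norm_pow_le_trace {K N : Type*} [Fintype K] [DecidableEq K] [Fintype N] [DecidableEq N]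
    (Y : Matrix K N ℝ) (l : ℕ) : ‖Y‖ ^ (2 * 2 ^ l) ≤ Matrix.trace ((Yᵀ * Y) ^ (2 ^ l)) := by
  cases l with
  | zero => simpa using opNorm_sq_le_trace Y
  | succ l =>
    have hs : (Yᵀ * Y)ᵀ = Yᵀ * Y := by
      rw [Matrix.transpose_mul, Matrix.transpose_transpose]
    have h1 := opNorm_sq_le_trace ((Yᵀ * Y) ^ (2 ^ l))
    have h2 : ((Yᵀ * Y) ^ (2 ^ l))ᵀ = (Yᵀ * Y) ^ (2 ^ l) := by rw [Matrix.transpose_pow, hs]
    have h3 : ‖Yᵀ * Y‖ = ‖Y‖ * ‖Y‖ := by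
      rw [← Matrix.conjTranspose_eq_transpose_of_trivial]
      exact Matrix.l2_opNorm_conjTranspose_mul_self Y
    rw [h2, norm_symm_pow _ hs, h3, ← pow_add] at h1
    have h4 : ‖Y‖ ^ (2 * 2 ^ (l + 1)) = ((‖Y‖ * ‖Y‖) ^ 2 ^ l) ^ 2 := by
      rw [← sq, ← pow_mul, ← pow_mul]
      congr 1
    have h5 : 2 ^ (l + 1) = 2 ^ l + 2 ^ l := by ring
    rw [h4, h5]
    exact h1

end Pool.Agent.Helper190.SS
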