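import Pool.Agent.Helper190.SS.Defs
import Pool.Agent.Helper190.SS.P_norm_pow_le_trace
import Pool.Agent.Helper190.SS.P_good_proj
import Pool.Agent.Helper190.SS.P_good_gram

set_option autoImplicit false

open scoped BigOperators Matrix.Norms.L2Operator
open Matrix

namespace Pool.Agent.Helper190.SS



theorem trace_step_cyc {N : Type*} [Fintype N] [DecidableEq N] (U V : Matrix N N ℝ) (n : ℕ) :
    Matrix.trace ((U * V) ^ n) = Matrix.trace ((V * U) ^ n) := by
  have h : ∀ n : ℕ, (U * V) ^ n * U = U * (V * U) ^ n := by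
    intro n
    induction n with
    | zero => simp
    | succ n ih =>
      rw [pow_succ, pow_succ', Matrix.mul_assoc ((U * V) ^ n), Matrix.mul_assoc U V U,
        ← Matrix.mul_assoc ((U * V) ^ n), ih, Matrix.mul_assoc U, ← pow_succ, pow_succ']
  cases n with
  | zero => simp
  | succ n =>
    rw [pow_succ, ← Matrix.mul_assoc, h, Matrix.trace_mul_comm, ← Matrix.mul_assoc, ← pow_succ']

theorem trace_step {T K N : Type*} [Fintype T] [DecidableEq T] [Fintype K] [DecidableEq K] [Fintype N]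
    [DecidableEq N] (c : ℝ) (r : ℕ) (P : Matrix N N ℝ) (hs : Pᵀ = P) (hp : P * P = P)
    (ht : P.trace = r) (I : N → Bool) (A : Matrix K N ℝ) (hA : A * P = A) (l : ℕ) (Θ : ℝ)
    (hΘ : ∀ (G : Matrix N N ℝ) (H : Matrix K K ℝ), Good r G → Good r H →
      avg (fun θ : T → (K × N) × Bool =>
        Matrix.trace ((G * (Xmat c θ)ᵀ * H * Xmat c θ) ^ (2 ^ l))) ≤ Θ) :
    avg (fun θ : T → (K × N) × Bool => ‖P * dI I * (Xmat c θ)ᵀ * A‖ ^ (2 * 2 ^ l)) ≤
      ‖A‖ ^ (2 * 2 ^ l) * Θ := by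
  have h2l : 2 * 2 ^ l ≠ 0 := by positivity
  by_cases hA0 : A = 0
  · subst hA0
    simp [avg, h2l]
  · have hn : 0 < ‖A‖ := norm_pos_iff.2 hA0
    have hD : (dI I)ᵀ = (dI I : Matrix N N ℝ) := by
      simp [dI]
    set G : Matrix N N ℝ := dI I * P * dI I with hG
    set H : Matrix K K ℝ := (‖A‖ ^ 2)⁻¹ • (A * Aᵀ) with hH
    have hGood1 : Good r G := good_proj r P hs hp ht I
    have hGood2 : Good r H := good_gram r P hs hp ht A hA hA0
    have hAA : A * Aᵀ = (‖A‖ ^ 2) • H := by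
      rw [hH, smul_smul, mul_inv_cancel₀ (by positivity), one_smul]
    have key : ∀ θ : T → (K × N) × Bool, ‖P * dI I * (Xmat c θ)ᵀ * A‖ ^ (2 * 2 ^ l) ≤
        ‖A‖ ^ (2 * 2 ^ l) * Matrix.trace ((G * (Xmat c θ)ᵀ * H * Xmat c θ) ^ (2 ^ l)) := by
      intro θ
      set X : Matrix K N ℝ := Xmat c θ with hX
      have e0 : ‖P * dI I * Xᵀ * A‖ = ‖(P * dI I * Xᵀ * A)ᵀ‖ := by
        have := Matrix.l2_opNorm_conjTranspose (P * dI I * Xᵀ * A)
        rw [Matrix.conjTranspose_eq_transpose_of_trivial (P * dI I * Xᵀ * A)] at this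
        exact this.symm
      rw [e0]
      refine (norm_pow_le_trace _ l).trans ?_
      have e1 : ((P * dI I * Xᵀ * A)ᵀ)ᵀ * (P * dI I * Xᵀ * A)ᵀ
          = (P * dI I * Xᵀ * (A * Aᵀ) * X) * (dI I * P) := by
        rw [Matrix.transpose_transpose]
        simp only [Matrix.transpose_mul, Matrix.transpose_transpose, hs, hD, Matrix.mul_assoc]
      rw [e1, trace_step_cyc]
      have e2 : dI I * P * (P * dI I * Xᵀ * (A * Aᵀ) * X) = (‖A‖ ^ 2) • (G * Xᵀ * H * X) := by
        have : dI I * P * (P * dI I * Xᵀ * (A * Aᵀ) * X)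
            = dI I * (P * P) * dI I * Xᵀ * (A * Aᵀ) * X := by
          simp only [Matrix.mul_assoc]
        rw [this, hp, hAA, Matrix.mul_smul, Matrix.smul_mul]
      rw [e2, smul_pow, Matrix.trace_smul, smul_eq_mul, ← pow_mul]
    have hmono : avg (fun θ : T → (K × N) × Bool => ‖P * dI I * (Xmat c θ)ᵀ * A‖ ^ (2 * 2 ^ l)) ≤
        avg (fun θ : T → (K × N) × Bool => ‖A‖ ^ (2 * 2 ^ l) *
          Matrix.trace ((G * (Xmat c θ)ᵀ * H * Xmat c θ) ^ (2 ^ l))) := by
      unfold avg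
      apply div_le_div_of_nonneg_right _ (by positivity)
      exact Finset.sum_le_sum fun θ _ => key θ
    refine hmono.trans ?_
    have : avg (fun θ : T → (K × N) × Bool => ‖A‖ ^ (2 * 2 ^ l) *
          Matrix.trace ((G * (Xmat c θ)ᵀ * H * Xmat c θ) ^ (2 ^ l)))
        = ‖A‖ ^ (2 * 2 ^ l) * avg (fun θ : T → (K × N) × Bool =>
          Matrix.trace ((G * (Xmat c θ)ᵀ * H * Xmat c θ) ^ (2 ^ l))) := by
      unfold avg
      rw [← Finset.mul_sum, mul_div_assoc]
    rw [this]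
    exact mul_le_mul_of_nonneg_left (hΘ G H hGood1 hGood2) (by positivity)

end Pool.Agent.Helper190.SS
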