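import Pool.Agent.Helper190.SS.Defs
import Pool.Agent.Helper190.SS.P_decouple_norm
import Pool.Agent.Helper190.SS.P_split_indep
import Pool.Agent.Helper190.SS.P_trace_step
import Pool.Agent.Helper190.SS.P_smat_diag
import Pool.Agent.Helper190.SS.P_smat_local
import Pool.Agent.Helper190.SS.P_step_fixed
import Pool.Agent.Helper190.SS.P_half_drop
import Pool.Agent.Helper190.SS.P_norm_S_le

set_option autoImplicit false

open scoped BigOperators Matrix.Norms.L2Operator
open Matrix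

namespace Pool.Agent.Helper190.SS



theorem avg_mono_z {Ω : Type*} [Fintype Ω] (f g : Ω → ℝ) (h : ∀ ω, f ω ≤ g ω) : avg f ≤ avg g := by
  unfold avg
  exact div_le_div_of_nonneg_right (Finset.sum_le_sum fun ω _ => h ω) (Nat.cast_nonneg _)

theorem avg_mul_left_z {Ω : Type*} [Fintype Ω] (c : ℝ) (f : Ω → ℝ) :
    avg (fun ω => c * f ω) = c * avg f := by
  unfold avg
  rw [← Finset.mul_sum, mul_div_assoc]

theorem avg_add_z {Ω : Type*} [Fintype Ω] (f g : Ω → ℝ) :
    avg (fun ω => f ω + g ω) = avg f + avg g := by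
  unfold avg
  rw [Finset.sum_add_distrib, add_div]

theorem avg_const_z {Ω : Type*} [Fintype Ω] [Nonempty Ω] (c : ℝ) : avg (fun _ : Ω => c) = c := by
  unfold avg
  rw [Finset.sum_const, Finset.card_univ, nsmul_eq_mul, mul_div_assoc, mul_comm, div_mul_cancel₀]
  exact_mod_cast Fintype.card_ne_zero

theorem avg_comm_z {Ω Ω' : Type*} [Fintype Ω] [Fintype Ω'] (f : Ω → Ω' → ℝ) :
    avg (fun ω => avg (fun ω' => f ω ω')) = avg (fun ω' => avg (fun ω => f ω ω')) := by
  unfold avg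
  rw [← Finset.sum_div, ← Finset.sum_div, Finset.sum_comm, div_div, div_div, mul_comm]

theorem avg_sq_z {Ω : Type*} [Fintype Ω] [Nonempty Ω] (f : Ω → ℝ) :
    (avg f) ^ 2 ≤ avg (fun ω => f ω ^ 2) := by
  unfold avg
  have h1 : (∑ ω, f ω) ^ 2 ≤ (Fintype.card Ω : ℝ) * ∑ ω, f ω ^ 2 := by
    have := sq_sum_le_card_mul_sum_sq (s := (Finset.univ : Finset Ω)) (f := f)
    rwa [Finset.card_univ] at this
  have hc : (0 : ℝ) < Fintype.card Ω := by exact_mod_cast Fintype.card_pos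
  rw [div_pow, div_le_div_iff₀ (by positivity) hc]
  calc (∑ ω, f ω) ^ 2 * (Fintype.card Ω : ℝ)
      ≤ ((Fintype.card Ω : ℝ) * ∑ ω, f ω ^ 2) * (Fintype.card Ω : ℝ) := by gcongr
    _ = (∑ ω, f ω ^ 2) * (Fintype.card Ω : ℝ) ^ 2 := by ring

theorem z_bound {N Z B : Type*} [Fintype N] [Fintype Z] [Fintype B] [DecidableEq N]
    [DecidableEq Z] [DecidableEq B] [Nonempty N] [Nonempty Z] [Nonempty B] (c : ℝ)
    (hc : c ^ 2 * (Fintype.card Z : ℝ) = 1) (r : ℕ) (P : Matrix N N ℝ) (hs : Pᵀ = P)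
    (hp : P * P = P) (ht : P.trace = r) (l : ℕ) (Θ : ℝ) (hΘ0 : 0 ≤ Θ)
    (hΘ : ∀ (G : Matrix N N ℝ) (H : Matrix (Z × B) (Z × B) ℝ), Good r G → Good r H →
      avg (fun θ : N × Z → ((Z × B) × N) × Bool =>
        Matrix.trace ((G * (Xmat c θ)ᵀ * H * Xmat c θ) ^ (2 ^ l))) ≤ Θ) :
    avg (fun a : N × Z → Bool × B => ‖P * ((Smat c a)ᵀ * Smat c a - 1) * P‖ ^ (2 * 2 ^ l)) ≤
      128 ^ (2 ^ l) * Θ * (1 + Real.sqrt
        (avg (fun a : N × Z → Bool × B =>
          ‖P * ((Smat c a)ᵀ * Smat c a - 1) * P‖ ^ (2 * 2 ^ l)))) := by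
  set M : ℕ := 2 ^ l with hM
  set m2 : ℝ := avg (fun a : N × Z → Bool × B =>
    ‖P * ((Smat c a)ᵀ * Smat c a - 1) * P‖ ^ (2 * M)) with hm2
  -- the average of the M-th power
  have hZM : avg (fun a : N × Z → Bool × B => ‖P * ((Smat c a)ᵀ * Smat c a - 1) * P‖ ^ M) ≤
      Real.sqrt m2 := by
    apply Real.le_sqrt_of_sq_le
    refine (avg_sq_z _).trans (le_of_eq ?_)
    rw [hm2]
    congr 1
    funext a
    rw [← pow_mul, mul_comm M 2]
  -- the average of the norms of S
  have hSavg : avg (fun a : N × Z → Bool × B => ‖Smat c a * P‖ ^ (2 * M)) ≤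
      2 ^ M * (1 + Real.sqrt m2) := by
    refine (avg_mono_z _ _ fun a => norm_S_le P hs hp (Smat c a) M).trans ?_
    rw [avg_mul_left_z, avg_add_z, avg_const_z]
    gcongr
  -- the bound for fixed I
  have hI : ∀ I : N → Bool, avg (fun a : N × Z → Bool × B =>
      ‖P * dI I * (Smat c a)ᵀ * (Smat c a * dI (fun j => !(I j)) * P)‖ ^ (2 * M)) ≤
        2 ^ (2 * M) * Θ * (2 ^ M * (1 + Real.sqrt m2)) := by
    intro I
    have hsplit := split_indep (W := N × Z) (A := Bool × B) (fun w => I w.1)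
      (fun a a' => ‖P * dI I * (Smat c a)ᵀ * (Smat c a' * dI (fun j => !(I j)) * P)‖ ^ (2 * M))
      (by
        intro a a' b h
        have h1 : Smat c a * dI I = Smat c a' * dI I := smat_local c I a a' h
        have h2 : dI I * (Smat c a)ᵀ = dI I * (Smat c a')ᵀ := by
          have h3 := congrArg Matrix.transpose h1
          rw [Matrix.transpose_mul, Matrix.transpose_mul] at h3
          have h4 : (dI I)ᵀ = dI I := by unfold dI; rw [Matrix.diagonal_transpose]
          rwa [h4] at h3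
        show ‖P * dI I * (Smat c a)ᵀ * _‖ ^ (2 * M) = ‖P * dI I * (Smat c a')ᵀ * _‖ ^ (2 * M)
        rw [Matrix.mul_assoc P (dI I) (Smat c a)ᵀ, h2, ← Matrix.mul_assoc P (dI I) (Smat c a')ᵀ])
      (by
        intro a b b' h
        have h1 : Smat c b * dI (fun j => !(I j)) = Smat c b' * dI (fun j => !(I j)) := by
          apply smat_local
          intro w hw
          apply h w
          simpa using hw
        show ‖P * dI I * (Smat c a)ᵀ * (Smat c b * dI (fun j => !(I j)) * P)‖ ^ (2 * M) =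
          ‖P * dI I * (Smat c a)ᵀ * (Smat c b' * dI (fun j => !(I j)) * P)‖ ^ (2 * M)
        rw [h1])
    rw [hsplit]
    have hfix : ∀ a' : N × Z → Bool × B, avg (fun a : N × Z → Bool × B =>
        ‖P * dI I * (Smat c a)ᵀ * (Smat c a' * dI (fun j => !(I j)) * P)‖ ^ (2 * M)) ≤
          2 ^ (2 * M) * Θ * ‖Smat c a' * dI (fun j => !(I j)) * P‖ ^ (2 * M) := by
      intro a'
      refine (step_fixed c P I (Smat c a' * dI (fun j => !(I j)) * P) (2 * M)).trans ?_
      have hA : (Smat c a' * dI (fun j => !(I j)) * P) * P =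
          Smat c a' * dI (fun j => !(I j)) * P := by
        rw [Matrix.mul_assoc, hp]
      have h1 := trace_step (T := N × Z) (K := Z × B) c r P hs hp ht I
        (Smat c a' * dI (fun j => !(I j)) * P) hA l Θ hΘ
      calc (2 : ℝ) ^ (2 * M) * avg (fun θ : N × Z → ((Z × B) × N) × Bool =>
            ‖P * dI I * (Xmat c θ)ᵀ * (Smat c a' * dI (fun j => !(I j)) * P)‖ ^ (2 * M))
          ≤ 2 ^ (2 * M) * (‖Smat c a' * dI (fun j => !(I j)) * P‖ ^ (2 * M) * Θ) := by
            gcongr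
        _ = _ := by ring
    refine (avg_mono_z _ _ hfix).trans ?_
    rw [avg_mul_left_z]
    have h2 := (half_drop (Z := Z) (B := B) c P (fun j => !(I j)) (2 * M)).trans hSavg
    gcongr
  calc m2 ≤ avg (fun a : N × Z → Bool × B => 4 ^ (2 * M) * avg (fun I : N → Bool =>
        ‖P * dI I * (Smat c a)ᵀ * (Smat c a * dI (fun j => !(I j)) * P)‖ ^ (2 * M))) :=
        avg_mono_z _ _ fun a => decouple_norm P (Smat c a) (fun j => smat_diag c hc a j) (2 * M)
    _ = 4 ^ (2 * M) * avg (fun I : N → Bool => avg (fun a : N × Z → Bool × B =>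
        ‖P * dI I * (Smat c a)ᵀ * (Smat c a * dI (fun j => !(I j)) * P)‖ ^ (2 * M))) := by
        rw [avg_mul_left_z, avg_comm_z]
    _ ≤ 4 ^ (2 * M) * avg (fun _ : N → Bool =>
        2 ^ (2 * M) * Θ * (2 ^ M * (1 + Real.sqrt m2))) := by
        have := avg_mono_z _ _ hI
        gcongr
    _ = 4 ^ (2 * M) * (2 ^ (2 * M) * Θ * (2 ^ M * (1 + Real.sqrt m2))) := by
        rw [avg_const_z]
    _ = 128 ^ M * Θ * (1 + Real.sqrt m2) := by
        have h1 : (128 : ℝ) ^ M = 4 ^ (2 * M) * (2 ^ (2 * M) * 2 ^ M) := by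
          rw [pow_mul, pow_mul, ← mul_pow, ← mul_pow]
          norm_num
        rw [h1]; ring

end Pool.Agent.Helper190.SS
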