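import Pool.Agent.Helper190.SS.Defs
import Pool.Agent.Helper190.SS.P_moment_bound
import Pool.Agent.Helper190.SS.P_z_bound
import Pool.Agent.Helper190.SS.P_self_bound
import Pool.Agent.Helper190.SS.P_markov_avg
import Pool.Agent.Helper190.SS.P_params

set_option autoImplicit false

open scoped BigOperators Matrix.Norms.L2Operator
open Matrix

namespace Pool.Agent.Helper190.SS



theorem core_num (C0 : ℝ) (hC0 : 1 ≤ C0) (Z0 : ℕ) (hZ0 : 1400 * C0 ≤ (Z0 : ℝ)) (r M : ℕ)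
    (hr : 2 ≤ r) (hM : Real.log r + 5 ≤ (M : ℝ)) :
    (2 : ℝ) ^ (2 * M) * (3 * (128 ^ M * (2 * r * (C0 / Z0) ^ M))) ≤ 1 / 10 := by
  have hZpos : (0 : ℝ) < Z0 := by linarith
  have hrpos : (0 : ℝ) < r := by
    have : (2 : ℝ) ≤ (r : ℝ) := by exact_mod_cast hr
    linarith
  have h1 : (2 : ℝ) ^ (2 * M) * (3 * (128 ^ M * (2 * r * (C0 / Z0) ^ M)))
      = 6 * r * (512 * (C0 / Z0)) ^ M := by
    rw [mul_pow 512, pow_mul]
    have : (512 : ℝ) ^ M = ((2 : ℝ) ^ 2) ^ M * 128 ^ M := by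
      rw [← mul_pow]; norm_num
    rw [this]; ring
  rw [h1]
  have h2 : 512 * (C0 / Z0) ≤ Real.exp (-1) := by
    have he : Real.exp 1 ≤ 2.734375 := by
      have := Real.exp_one_lt_d9
      linarith
    rw [Real.exp_neg, ← one_div, le_div_iff₀ (Real.exp_pos 1)]
    have h3 : C0 / Z0 ≤ 1 / 1400 := by
      rw [div_le_div_iff₀ hZpos (by norm_num)]
      linarith
    have h4 : 0 ≤ C0 / Z0 := by positivity
    have h5 : 512 * (C0 / Z0) * Real.exp 1 ≤ 512 * (1 / 1400) * 2.734375 := by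
      apply mul_le_mul _ he (Real.exp_pos 1).le (by norm_num)
      linarith
    refine h5.trans ?_
    norm_num
  have h3 : (512 * (C0 / Z0)) ^ M ≤ Real.exp (-1) ^ M :=
    pow_le_pow_left₀ (by positivity) h2 M
  have h4 : Real.exp (-1) ^ M = Real.exp (-(M : ℝ)) := by
    rw [← Real.exp_nat_mul]; congr 1; ring
  have h5 : Real.exp (-(M : ℝ)) ≤ Real.exp (-(Real.log r + 5)) := by
    apply Real.exp_le_exp.mpr; linarith
  have h6 : Real.exp (-(Real.log r + 5)) = (r : ℝ)⁻¹ * Real.exp (-5) := by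
    rw [neg_add, Real.exp_add, Real.exp_neg, Real.exp_log hrpos]
  have h7 : 6 * r * (512 * (C0 / Z0)) ^ M ≤ 6 * r * ((r : ℝ)⁻¹ * Real.exp (-5)) := by
    apply mul_le_mul_of_nonneg_left _ (by positivity)
    calc (512 * (C0 / Z0)) ^ M ≤ Real.exp (-1) ^ M := h3
      _ = Real.exp (-(M : ℝ)) := h4
      _ ≤ _ := h5
      _ = _ := h6
  have h8 : 6 * r * ((r : ℝ)⁻¹ * Real.exp (-5)) = 6 * Real.exp (-5) := by
    field_simp
  rw [h8] at h7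
  refine h7.trans ?_
  have h9 : (60 : ℝ) ≤ Real.exp 5 := by
    have h10 : Real.exp 5 = Real.exp 1 ^ 5 := by
      rw [← Real.exp_nat_mul]; norm_num
    rw [h10]
    have h11 : (2.7 : ℝ) ≤ Real.exp 1 := by
      have := Real.exp_one_gt_d9
      linarith
    calc (60 : ℝ) ≤ 2.7 ^ 5 := by norm_num
      _ ≤ _ := pow_le_pow_left₀ (by norm_num) h11 5
  rw [Real.exp_neg]
  have h12 : (Real.exp 5)⁻¹ ≤ (60 : ℝ)⁻¹ := inv_anti₀ (by norm_num) h9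
  have h13 : 6 * (Real.exp 5)⁻¹ ≤ 6 * (60 : ℝ)⁻¹ := mul_le_mul_of_nonneg_left h12 (by norm_num)
  refine h13.trans ?_
  norm_num

theorem core_avg_nonneg {Ω : Type*} [Fintype Ω] (f : Ω → ℝ) (hf : ∀ ω, 0 ≤ f ω) : 0 ≤ avg f := by
  unfold avg
  exact div_nonneg (Finset.sum_nonneg fun ω _ => hf ω) (Nat.cast_nonneg _)

theorem core : ∃ C : ℝ, 0 < C ∧ ∀ r n : ℕ, 2 ≤ r → r ≤ n → ∃ ζ b : ℕ, 1 ≤ ζ ∧ 1 ≤ b ∧
    (ζ : ℝ) ≤ C * Real.log r ∧ ((b * ζ : ℕ) : ℝ) ≤ C * r ∧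
    ∀ P : Matrix (Fin n) (Fin n) ℝ, Pᵀ = P → P * P = P → P.trace = r →
      (9 / 10 : ℝ) * (Nat.card (Fin n × Fin ζ → Bool × Fin b) : ℝ) ≤
        (Nat.card {a : Fin n × Fin ζ → Bool × Fin b //
          ‖P * ((Smat (1 / Real.sqrt ζ) a)ᵀ * Smat (1 / Real.sqrt ζ) a - 1) * P‖ ≤ 1 / 2} : ℝ) := by
  obtain ⟨C0, hC0, hmom⟩ := moment_bound
  have hZle : 1400 * C0 ≤ ((⌈1400 * C0⌉₊ : ℕ) : ℝ) := Nat.le_ceil _
  generalize ⌈1400 * C0⌉₊ = Z0 at hZle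
  have hZpos : (0 : ℝ) < Z0 := by linarith
  have hZ1 : 1 ≤ Z0 := by
    have : 0 < Z0 := by exact_mod_cast hZpos
    exact this
  obtain ⟨C, hC, hpar⟩ := params Z0 hZ1
  refine ⟨C, hC, fun r n hr hrn => ?_⟩
  obtain ⟨l, ζ, b, hlog, hζ, hb, hexp, hrb, hζC, hbζ⟩ := hpar r hr
  have hM1 : 1 ≤ 2 ^ l := Nat.one_le_two_pow
  have hζ1 : 1 ≤ ζ := by
    rw [hζ]; exact Nat.mul_pos hZ1 hM1
  refine ⟨ζ, b, hζ1, hb, hζC, hbζ, ?_⟩
  intro P hPs hPp hPt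
  have : Nonempty (Fin n) := ⟨⟨0, by omega⟩⟩
  have : Nonempty (Fin ζ) := ⟨⟨0, by omega⟩⟩
  have : Nonempty (Fin b) := ⟨⟨0, by omega⟩⟩
  have hζpos : (0 : ℝ) < ζ := by exact_mod_cast hζ1
  have hc2 : (1 / Real.sqrt ζ) ^ 2 = 1 / (ζ : ℝ) := by
    rw [div_pow, one_pow, Real.sq_sqrt hζpos.le]
  have hc : (1 / Real.sqrt ζ) ^ 2 * (Fintype.card (Fin ζ) : ℝ) = 1 := by
    rw [hc2, Fintype.card_fin]
    field_simp
  have hΘeq : (1 / Real.sqrt ζ) ^ (2 * 2 ^ l) * (2 * r * (C0 * ((2 ^ l : ℕ) : ℝ)) ^ (2 ^ l))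
      = 2 * r * (C0 / Z0) ^ (2 ^ l) := by
    rw [pow_mul, hc2]
    have hMpos : (0 : ℝ) < ((2 ^ l : ℕ) : ℝ) := by exact_mod_cast hM1
    have : (1 / (ζ : ℝ)) ^ (2 ^ l) * (2 * r * (C0 * ((2 ^ l : ℕ) : ℝ)) ^ (2 ^ l))
        = 2 * r * ((1 / (ζ : ℝ)) * (C0 * ((2 ^ l : ℕ) : ℝ))) ^ (2 ^ l) := by
      rw [mul_pow (1 / (ζ : ℝ))]; ring
    rw [this]
    congr 2
    have hζc : (ζ : ℝ) = Z0 * ((2 ^ l : ℕ) : ℝ) := by rw [hζ]; push_cast; ring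
    rw [hζc]
    field_simp
  have hΘ0 : (0 : ℝ) ≤ 2 * r * (C0 / Z0) ^ (2 ^ l) := by positivity
  have hz := z_bound (N := Fin n) (Z := Fin ζ) (B := Fin b) (1 / Real.sqrt ζ) hc r P hPs hPp hPt l
    (2 * r * (C0 / Z0) ^ (2 ^ l)) hΘ0 (by
      intro G H hG hH
      rw [← hΘeq]
      have := hmom (T := Fin n × Fin ζ) (K := Fin ζ × Fin b) (N := Fin n) (2 ^ l) hM1
        (1 / Real.sqrt ζ) b r (by omega)
        (by simp only [Fintype.card_prod, Fintype.card_fin]; push_cast; ring)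
        hexp hrb G H hG hH
      exact this)
  set m := avg (fun a : Fin n × Fin ζ → Bool × Fin b =>
        ‖P * ((Smat (1 / Real.sqrt ζ) a)ᵀ * Smat (1 / Real.sqrt ζ) a - 1) * P‖ ^ (2 * 2 ^ l)) with hm
  have hm0 : 0 ≤ m := core_avg_nonneg _ fun a => by positivity
  have hnum := core_num C0 hC0 Z0 hZle r (2 ^ l) hr hlog
  have hB0 : (0 : ℝ) ≤ 128 ^ (2 ^ l) * (2 * r * (C0 / Z0) ^ (2 ^ l)) := by positivity
  have hp1 : (1 : ℝ) ≤ (2 : ℝ) ^ (2 * 2 ^ l) := one_le_pow₀ (by norm_num)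
  have hB1 : 128 ^ (2 ^ l) * (2 * r * (C0 / Z0) ^ (2 ^ l)) ≤ 1 := by
    generalize 128 ^ (2 ^ l) * (2 * r * (C0 / Z0) ^ (2 ^ l)) = B at hnum hB0
    nlinarith
  have hself := self_bound m _ hm0 hB0 hB1 hz
  have hmk := markov_avg (fun a : Fin n × Fin ζ → Bool × Fin b =>
        ‖P * ((Smat (1 / Real.sqrt ζ) a)ᵀ * Smat (1 / Real.sqrt ζ) a - 1) * P‖)
      (fun a => norm_nonneg _) (2 * 2 ^ l) (1 / 10) (by
        refine le_trans ?_ hnum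
        apply mul_le_mul_of_nonneg_left _ (by positivity)
        exact hself)
  have h910 : (1 - 1 / 10 : ℝ) = 9 / 10 := by norm_num
  rw [h910] at hmk
  exact hmk

end Pool.Agent.Helper190.SS
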