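import Pool.Agent.Helper190.SS.Defs

set_option autoImplicit false

open scoped BigOperators Matrix.Norms.L2Operator
open Matrix

namespace Pool.Agent.Helper190.SS



theorem exists_proj (n : ℕ) (V : Submodule ℝ (EuclideanSpace ℝ (Fin n))) :
    ∃ P : Matrix (Fin n) (Fin n) ℝ, Pᵀ = P ∧ P * P = P ∧
      P.trace = (Module.finrank ℝ V : ℝ) ∧
      ∀ x : EuclideanSpace ℝ (Fin n), x ∈ V → P.mulVec (WithLp.ofLp x) = WithLp.ofLp x := by
  classical
  set b := stdOrthonormalBasis ℝ V with hb
  set A : Matrix (Fin n) (Fin (Module.finrank ℝ V)) ℝ :=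
    Matrix.of (fun i k => (b k : EuclideanSpace ℝ (Fin n)).ofLp i) with hA
  have hAA : Aᵀ * A = 1 := by
    ext k l
    have h1 := b.orthonormal
    rw [orthonormal_iff_ite] at h1
    have h2 := h1 k l
    rw [Submodule.coe_inner, PiLp.inner_apply] at h2
    rw [Matrix.mul_apply, Matrix.one_apply]
    rw [← h2]
    apply Finset.sum_congr rfl
    intro i _
    simp only [hA, Matrix.transpose_apply, Matrix.of_apply, RCLike.inner_apply, conj_trivial]
    ring
  refine ⟨A * Aᵀ, ?_, ?_, ?_, ?_⟩
  · rw [Matrix.transpose_mul, Matrix.transpose_transpose]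
  · calc A * Aᵀ * (A * Aᵀ) = A * (Aᵀ * A) * Aᵀ := by simp only [Matrix.mul_assoc]
      _ = A * Aᵀ := by rw [hAA, Matrix.mul_one]
  · rw [Matrix.trace_mul_comm, hAA, Matrix.trace_one]
    simp
  · intro x hx
    have h1 : A.mulVec (fun k => b.repr ⟨x, hx⟩ k) = WithLp.ofLp x := by
      have h2 := b.sum_repr ⟨x, hx⟩
      have h3 : (∑ k, b.repr ⟨x, hx⟩ k • (b k : EuclideanSpace ℝ (Fin n))) = x := by
        have h4 := congrArg (fun y : V => (y : EuclideanSpace ℝ (Fin n))) h2
        simp only [Submodule.coe_sum, Submodule.coe_smul] at h4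
        exact h4
      ext i
      have h5 := congrArg (fun y : EuclideanSpace ℝ (Fin n) => y.ofLp i) h3
      simp only [WithLp.ofLp_sum, WithLp.ofLp_smul, Finset.sum_apply, Pi.smul_apply,
        smul_eq_mul] at h5
      rw [← h5]
      simp only [Matrix.mulVec, dotProduct, hA, Matrix.of_apply]
      apply Finset.sum_congr rfl
      intro k _
      ring
    rw [← h1, Matrix.mulVec_mulVec, Matrix.mul_assoc, hAA, Matrix.mul_one]

end Pool.Agent.Helper190.SS
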