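import Pool.Agent.Helper190.SS.Defs

set_option autoImplicit false

open scoped BigOperators Matrix.Norms.L2Operator
open Matrix

namespace Pool.Agent.Helper190.SS



theorem good_event {K : Type*} [Fintype K] [DecidableEq K] (n : ℕ) (P : Matrix (Fin n) (Fin n) ℝ)
    (hs : Pᵀ = P) (S : Matrix K (Fin n) ℝ) (h : ‖P * (Sᵀ * S - 1) * P‖ ≤ 1 / 2)
    (x : EuclideanSpace ℝ (Fin n)) (hx : P.mulVec (WithLp.ofLp x) = WithLp.ofLp x) :
    Real.sqrt (1 / 2) * ‖x‖ ≤ ‖Matrix.toEuclideanLin S x‖ ∧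
      ‖Matrix.toEuclideanLin S x‖ ≤ Real.sqrt (3 / 2) * ‖x‖ := by
  have hn1 : ‖x‖ ^ 2 = (WithLp.ofLp x) ⬝ᵥ (WithLp.ofLp x) := by
    rw [EuclideanSpace.real_norm_sq_eq, dotProduct]
    exact Finset.sum_congr rfl fun i _ => sq _
  have hn2 : ‖Matrix.toEuclideanLin S x‖ ^ 2 =
      (S.mulVec (WithLp.ofLp x)) ⬝ᵥ (S.mulVec (WithLp.ofLp x)) := by
    rw [EuclideanSpace.real_norm_sq_eq, dotProduct]
    exact Finset.sum_congr rfl fun i _ => sq _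
  have hvP : Matrix.vecMul (WithLp.ofLp x) P = WithLp.ofLp x := by
    rw [← Matrix.mulVec_transpose, hs, hx]
  have hkey : (WithLp.ofLp x) ⬝ᵥ ((P * (Sᵀ * S - 1) * P).mulVec (WithLp.ofLp x)) =
      ‖Matrix.toEuclideanLin S x‖ ^ 2 - ‖x‖ ^ 2 := by
    rw [hn1, hn2, ← Matrix.mulVec_mulVec, hx, ← Matrix.mulVec_mulVec, Matrix.dotProduct_mulVec,
      hvP, Matrix.sub_mulVec, dotProduct_sub, Matrix.one_mulVec, ← Matrix.mulVec_mulVec,
      Matrix.dotProduct_mulVec (WithLp.ofLp x) Sᵀ, Matrix.vecMul_transpose]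
  have habs : |(WithLp.ofLp x) ⬝ᵥ ((P * (Sᵀ * S - 1) * P).mulVec (WithLp.ofLp x))| ≤
      1 / 2 * ‖x‖ ^ 2 := by
    have h1 := abs_real_inner_le_norm
      (WithLp.toLp 2 ((P * (Sᵀ * S - 1) * P).mulVec (WithLp.ofLp x))) x
    have h2 := Matrix.l2_opNorm_mulVec (P * (Sᵀ * S - 1) * P) x
    have h3 : inner ℝ (WithLp.toLp 2 ((P * (Sᵀ * S - 1) * P).mulVec (WithLp.ofLp x))) x =
        (WithLp.ofLp x) ⬝ᵥ ((P * (Sᵀ * S - 1) * P).mulVec (WithLp.ofLp x)) := by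
      rw [EuclideanSpace.inner_eq_star_dotProduct]
      simp
    rw [h3] at h1
    refine h1.trans ?_
    have h4 : ‖WithLp.toLp 2 ((P * (Sᵀ * S - 1) * P).mulVec (WithLp.ofLp x))‖ ≤ 1 / 2 * ‖x‖ :=
      h2.trans (mul_le_mul_of_nonneg_right h (norm_nonneg _))
    calc _ ≤ (1 / 2 * ‖x‖) * ‖x‖ := mul_le_mul_of_nonneg_right h4 (norm_nonneg _)
      _ = 1 / 2 * ‖x‖ ^ 2 := by ring
  rw [hkey] at habs
  obtain ⟨ha, hb⟩ := abs_le.mp habs
  constructor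
  · refine (sq_le_sq₀ (by positivity) (norm_nonneg _)).mp ?_
    rw [mul_pow, Real.sq_sqrt (by norm_num)]
    linarith
  · refine (sq_le_sq₀ (norm_nonneg _) (by positivity)).mp ?_
    rw [mul_pow, Real.sq_sqrt (by norm_num)]
    linarith

end Pool.Agent.Helper190.SS
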